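import Pool.Agent.Run7.h507.FD.Box

/-!
The trilinear estimate with absolute values for the selected frequencies.
-/

set_option autoImplicit false

open MeasureTheory ProbabilityTheory Filter Topology

namespace Pool.Agent.Run7.h507.FD

open RT

section

variable {D : Set K3} {κ K : ℝ}

open Classical in
/-- The component of the shell `i`. -/
noncomputable def cu (D : Set K3) (i : ℕ) (u : K3 → ℝ) (k : K3) : ℝ :=
  if k ∈ D ∧ k ≠ 0 ∧ sh k = i then u k else 0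

theorem cu_of {i : ℕ} {u : K3 → ℝ} {k : K3} (h : k ∈ D ∧ k ≠ 0 ∧ sh k = i) : cu D i u k = u k := by
  unfold cu; rw [if_pos h]

theorem cu_of_not {i : ℕ} {u : K3 → ℝ} {k : K3} (h : ¬(k ∈ D ∧ k ≠ 0 ∧ sh k = i)) :
    cu D i u k = 0 := by
  unfold cu; rw [if_neg h]

theorem cu_nonneg {i : ℕ} {u : K3 → ℝ} (hu : ∀ k, 0 ≤ u k) (k : K3) : 0 ≤ cu D i u k := by
  by_cases h : k ∈ D ∧ k ≠ 0 ∧ sh k = i
  · rw [cu_of h]; exact hu k
  · rw [cu_of_not h]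

open Classical in
/-- The indicator of the shell `i`. -/
noncomputable def id1 (D : Set K3) (i : ℕ) (k : K3) : ℂ := if k ∈ D ∧ k ≠ 0 ∧ sh k = i then 1 else 0

theorem id1_mul (i : ℕ) (u : K3 → ℝ) (k : K3) : id1 D i k * (u k : ℂ) = (cu D i u k : ℂ) := by
  by_cases h : k ∈ D ∧ k ≠ 0 ∧ sh k = i
  · rw [cu_of h]; unfold id1; rw [if_pos h, one_mul]
  · rw [cu_of_not h]; unfold id1; rw [if_neg h, zero_mul, Complex.ofReal_zero]

/-- The kernel. -/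
noncomputable def kn (D : Set K3) (i₁ i₂ i₃ : ℕ) (p q r : K3) : ℂ :=
  if r = -(p + q) then id1 D i₁ p * id1 D i₂ q * id1 D i₃ r else 0

open Classical in
theorem T3_eq (A B C : Finset K3) :
    (T3 A B C : ℂ) = ∑ p ∈ A, ∑ q ∈ B, ∑ r ∈ C, if r = -(p + q) then (1 : ℂ) else 0 := by
  have h1 : (T3 A B C : ℂ) = ∑ r ∈ C, ∑ p ∈ A, ∑ q ∈ B, if r = -(p + q) then (1 : ℂ) else 0 := by
    unfold T3 rho
    push_cast
    refine Finset.sum_congr rfl fun r _ => ?_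
    rw [Finset.card_filter]
    push_cast
    refine Finset.sum_congr rfl fun p _ => ?_
    have e : ∀ q : K3, (r = -(p + q)) ↔ (q = -(p + r)) := by
      intro q
      constructor
      · intro h; rw [h]; abel
      · intro h; rw [h]; abel
    simp only [e]
    rw [Finset.sum_ite_eq']
  rw [h1, Finset.sum_comm]
  exact Finset.sum_congr rfl fun p _ => Finset.sum_comm

theorem kn_flat (hK : 0 ≤ K) (hκ : 0 ≤ κ) (hκ3 : κ ≤ 3) (h : SD D κ K) (h' : CD D κ K)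
    {i₁ i₂ i₃ J : ℕ} (h1 : i₁ ≤ J) (h2 : i₂ ≤ J) (h3 : i₃ ≤ J) (hJ : J ≤ max i₁ (max i₂ i₃))
    (A B C : Finset K3) :
    ‖∑ p ∈ A, ∑ q ∈ B, ∑ r ∈ C, kn D i₁ i₂ i₃ p q r‖
      ≤ Fc κ K * (J + 1) ^ 2 * ((2 : ℝ) ^ J) ^ g0 κ
        * Real.sqrt A.card * Real.sqrt B.card * Real.sqrt C.card := by
  classical
  set A' := A.filter fun k => k ∈ D ∧ k ≠ 0 ∧ sh k = i₁ with hA'
  set B' := B.filter fun k => k ∈ D ∧ k ≠ 0 ∧ sh k = i₂ with hB'
  set C' := C.filter fun k => k ∈ D ∧ k ≠ 0 ∧ sh k = i₃ with hC'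
  have e1 : ∑ p ∈ A, ∑ q ∈ B, ∑ r ∈ C, kn D i₁ i₂ i₃ p q r = (T3 A' B' C' : ℂ) := by
    rw [T3_eq, hA', hB', hC', Finset.sum_filter]
    refine Finset.sum_congr rfl fun p _ => ?_
    by_cases c1 : p ∈ D ∧ p ≠ 0 ∧ sh p = i₁
    · rw [if_pos c1, Finset.sum_filter]
      refine Finset.sum_congr rfl fun q _ => ?_
      by_cases c2 : q ∈ D ∧ q ≠ 0 ∧ sh q = i₂
      · rw [if_pos c2, Finset.sum_filter]
        refine Finset.sum_congr rfl fun r _ => ?_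
        unfold kn id1
        rw [if_pos c1, if_pos c2]
        by_cases c3 : r ∈ D ∧ r ≠ 0 ∧ sh r = i₃
        · rw [if_pos c3, if_pos c3, mul_one, mul_one]
        · rw [if_neg c3, if_neg c3, mul_zero, ite_self]
      · rw [if_neg c2]
        refine Finset.sum_eq_zero fun r _ => ?_
        unfold kn id1
        rw [if_neg c2, mul_zero, zero_mul, ite_self]
    · rw [if_neg c1]
      refine Finset.sum_eq_zero fun q _ => Finset.sum_eq_zero fun r _ => ?_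
      unfold kn id1
      rw [if_neg c1, zero_mul, zero_mul, ite_self]
  rw [e1, Complex.norm_natCast]
  refine (shell_flat hK hκ hκ3 h h' h1 h2 h3 hJ (fun k hk => (Finset.mem_filter.1 hk).2)
    (fun k hk => (Finset.mem_filter.1 hk).2) (fun k hk => (Finset.mem_filter.1 hk).2)).trans ?_
  rw [mul_assoc (Fc κ K * ((J : ℝ) + 1) ^ 2 * ((2 : ℝ) ^ J) ^ g0 κ * Real.sqrt A.card),
    mul_assoc (Fc κ K * ((J : ℝ) + 1) ^ 2 * ((2 : ℝ) ^ J) ^ g0 κ),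
    ← Real.sqrt_mul (Nat.cast_nonneg _), ← Real.sqrt_mul (Nat.cast_nonneg _), ← mul_assoc]
  have hF := Fc_nonneg (κ := κ) hK
  refine mul_le_mul_of_nonneg_left (Real.sqrt_le_sqrt ?_) (by positivity)
  have f1 : (A'.card : ℝ) ≤ A.card := by exact_mod_cast Finset.card_filter_le _ _
  have f2 : (B'.card : ℝ) ≤ B.card := by exact_mod_cast Finset.card_filter_le _ _
  have f3 : (C'.card : ℝ) ≤ C.card := by exact_mod_cast Finset.card_filter_le _ _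
  gcongr

theorem sum_kn_one {i₁ i₂ i₃ : ℕ} (p q : K3) (C : Finset K3) (u v w : K3 → ℝ) :
    ∑ r ∈ C, kn D i₁ i₂ i₃ p q r * (u p : ℂ) * (v q : ℂ) * (w r : ℂ)
      = if -(p + q) ∈ C then
        ((cu D i₁ u p * cu D i₂ v q * cu D i₃ w (-(p + q)) : ℝ) : ℂ) else 0 := by
  classical
  have e : ∀ r, kn D i₁ i₂ i₃ p q r * (u p : ℂ) * (v q : ℂ) * (w r : ℂ)
      = if r = -(p + q) then ((cu D i₁ u p * cu D i₂ v q * cu D i₃ w r : ℝ) : ℂ) else 0 := by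
    intro r
    unfold kn
    split_ifs
    · push_cast
      rw [← id1_mul, ← id1_mul, ← id1_mul]
      ring
    · ring
  simp only [e]
  rw [Finset.sum_ite_eq' C (-(p + q))
    fun r => ((cu D i₁ u p * cu D i₂ v q * cu D i₃ w r : ℝ) : ℂ)]

/-- The bound in `ℓ²` for three shells. -/
theorem shell_tri (hK : 0 ≤ K) (hκ : 0 ≤ κ) (hκ3 : κ ≤ 3) (h : SD D κ K) (h' : CD D κ K)
    {i₁ i₂ i₃ J : ℕ} (h1 : i₁ ≤ J) (h2 : i₂ ≤ J) (h3 : i₃ ≤ J) (hJ : J ≤ max i₁ (max i₂ i₃))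
    (B : Finset K3) (u v w : K3 → ℝ) :
    |∑ x ∈ Tr B, cu D i₁ u x.1 * cu D i₂ v x.2 * cu D i₃ w (-(x.1 + x.2))|
      ≤ 343 * Fc κ K * (J + 1) ^ 5 * ((2 : ℝ) ^ J) ^ g0 κ
        * (Real.sqrt (∑ k ∈ B, cu D i₁ u k ^ 2) * Real.sqrt (∑ k ∈ B, cu D i₂ v k ^ 2)
          * Real.sqrt (∑ k ∈ B, cu D i₃ w k ^ 2)) := by
  classical
  set S := B.filter fun k => k ∈ Bn (2 ^ (J + 1)) with hS
  have hF := Fc_nonneg (κ := κ) hK
  have hcc : ∀ (i : ℕ) (u : K3 → ℝ) (k : K3), cu D i (cu D i u) k = cu D i u k := by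
    intro i u k
    by_cases c : k ∈ D ∧ k ≠ 0 ∧ sh k = i
    · rw [cu_of c]
    · rw [cu_of_not c, cu_of_not c]
  have e1 := flat_tri (t := kn D i₁ i₂ i₃) (K := Fc κ K * (J + 1) ^ 2 * ((2 : ℝ) ^ J) ^ g0 κ)
    (by positivity) S (fun A _ B _ C _ => kn_flat hK hκ hκ3 h h' h1 h2 h3 hJ A B C)
    (fun k => (cu D i₁ u k : ℂ)) (fun k => (cu D i₂ v k : ℂ)) (fun k => (cu D i₃ w k : ℂ))
  have e2 : ∑ i ∈ S, ∑ j ∈ S, ∑ k ∈ S, kn D i₁ i₂ i₃ i j k * (cu D i₁ u i : ℂ)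
      * (cu D i₂ v j : ℂ) * (cu D i₃ w k : ℂ)
      = ((∑ x ∈ Tr B, cu D i₁ u x.1 * cu D i₂ v x.2 * cu D i₃ w (-(x.1 + x.2)) : ℝ) : ℂ) := by
    have f1 : ∀ p q, ∑ k ∈ S, kn D i₁ i₂ i₃ p q k * (cu D i₁ u p : ℂ) * (cu D i₂ v q : ℂ)
        * (cu D i₃ w k : ℂ)
        = if -(p + q) ∈ S then
          ((cu D i₁ u p * cu D i₂ v q * cu D i₃ w (-(p + q)) : ℝ) : ℂ) else 0 := by
      intro p q
      rw [sum_kn_one p q S (cu D i₁ u) (cu D i₂ v) (cu D i₃ w), hcc, hcc, hcc]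
    simp only [f1]
    rw [← Finset.sum_product' S S (fun p q => if -(p + q) ∈ S then
          ((cu D i₁ u p * cu D i₂ v q * cu D i₃ w (-(p + q)) : ℝ) : ℂ) else 0),
      ← Finset.sum_filter]
    push_cast
    have f2 : (S ×ˢ S).filter (fun x => -(x.1 + x.2) ∈ S) ⊆ Tr B := by
      intro x hx
      rw [Finset.mem_filter, Finset.mem_product] at hx
      rw [mem_Tr]
      exact ⟨(Finset.mem_filter.1 hx.1.1).1, (Finset.mem_filter.1 hx.1.2).1,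
        (Finset.mem_filter.1 hx.2).1⟩
    rw [← Finset.sum_subset f2]
    intro x hx hx2
    rw [mem_Tr] at hx
    have f3 : ∀ {i : ℕ} {u : K3 → ℝ} {k : K3}, i ≤ J → k ∈ B → k ∉ S → cu D i u k = 0 := by
      intro i u k hi hk hkS
      refine cu_of_not fun hc => hkS ?_
      rw [hS, Finset.mem_filter]
      exact ⟨hk, mem_Bn_of_sh (by rw [hc.2.2]; exact hi)⟩
    by_cases c1 : x.1 ∈ S
    · by_cases c2 : x.2 ∈ S
      · have c3 : -(x.1 + x.2) ∉ S := fun c3 => hx2 (Finset.mem_filter.2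
          ⟨Finset.mem_product.2 ⟨c1, c2⟩, c3⟩)
        rw [f3 h3 hx.2.2 c3]
        simp
      · rw [f3 h2 hx.2.1 c2]
        simp
    · rw [f3 h1 hx.1 c1]
      simp
  rw [e2, Complex.norm_real, Real.norm_eq_abs] at e1
  refine e1.trans ?_
  have e3 : Hl S ≤ 7 * (J + 1) := by
    refine le_trans ?_ (Hl_le J)
    unfold Hl
    refine Real.sqrt_le_sqrt (mul_le_mul_of_nonneg_left (harmonic_mono' (Finset.card_le_card ?_))
      (by norm_num))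
    intro k hk
    exact (Finset.mem_filter.1 hk).2
  have e4 : 0 ≤ Hl S := Real.sqrt_nonneg _
  have e5 : ∀ (i : ℕ) (u : K3 → ℝ), Real.sqrt (∑ k ∈ S, ‖(cu D i u k : ℂ)‖ ^ 2)
      ≤ Real.sqrt (∑ k ∈ B, cu D i u k ^ 2) := by
    intro i u
    refine Real.sqrt_le_sqrt ?_
    have f1 : ∀ k, ‖(cu D i u k : ℂ)‖ ^ 2 = cu D i u k ^ 2 := by
      intro k
      rw [Complex.norm_real, Real.norm_eq_abs, sq_abs]
    simp only [f1]
    exact Finset.sum_le_sum_of_subset_of_nonneg (Finset.filter_subset _ _) fun _ _ _ => sq_nonneg _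
  have g1 := e5 i₁ u
  have g2 := e5 i₂ v
  have g3 := e5 i₃ w
  have g4 : Hl S ^ 3 ≤ (7 * (J + 1)) ^ 3 := pow_le_pow_left₀ e4 e3 3
  calc Fc κ K * (J + 1) ^ 2 * ((2 : ℝ) ^ J) ^ g0 κ * Hl S ^ 3
        * Real.sqrt (∑ i ∈ S, ‖(cu D i₁ u i : ℂ)‖ ^ 2) * Real.sqrt (∑ i ∈ S, ‖(cu D i₂ v i : ℂ)‖ ^ 2)
        * Real.sqrt (∑ i ∈ S, ‖(cu D i₃ w i : ℂ)‖ ^ 2)
      ≤ Fc κ K * (J + 1) ^ 2 * ((2 : ℝ) ^ J) ^ g0 κ * (7 * (J + 1)) ^ 3
        * Real.sqrt (∑ k ∈ B, cu D i₁ u k ^ 2) * Real.sqrt (∑ k ∈ B, cu D i₂ v k ^ 2)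
          * Real.sqrt (∑ k ∈ B, cu D i₃ w k ^ 2) := by
        gcongr
    _ = _ := by ring

end

end Pool.Agent.Run7.h507.FD
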