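import Pool.Agent.Run7.h507.FD.Abs

/-!
The trilinear estimate with absolute values: the sum over the shells.
-/

set_option autoImplicit false

open MeasureTheory ProbabilityTheory Filter Topology

namespace Pool.Agent.Run7.h507.FD

open RT

/-- The weighted norm. -/
noncomputable def Nb (B : Finset K3) (b : ℝ) (u : K3 → ℝ) : ℝ :=
  Real.sqrt (∑ k ∈ B, jb k ^ b * u k ^ 2)

theorem Nb_nonneg (B : Finset K3) (b : ℝ) (u : K3 → ℝ) : 0 ≤ Nb B b u := Real.sqrt_nonneg _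

theorem two_pow_rpow (J : ℕ) (x : ℝ) : ((2 : ℝ) ^ J) ^ x = ((2 : ℝ) ^ x) ^ J := by
  rw [← Real.rpow_natCast, ← Real.rpow_natCast, ← Real.rpow_mul (by norm_num),
    ← Real.rpow_mul (by norm_num), mul_comm]

theorem exists_poly5 {δ : ℝ} (hδ : 0 < δ) :
    ∃ C : ℝ, 0 ≤ C ∧ ∃ ρ : ℝ, 0 < ρ ∧ ρ < 1 ∧ ∀ J i₁ i₂ i₃ : ℕ, i₁ ≤ J → i₂ ≤ J → i₃ ≤ J →
      ((J : ℝ) + 1) ^ 5 * ((2 : ℝ) ^ J) ^ (-δ) ≤ C * (ρ ^ i₁ * ρ ^ i₂ * ρ ^ i₃) := by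
  set r : ℝ := (2 : ℝ) ^ (δ / 2) with hr
  have hr1 : 1 < r := Real.one_lt_rpow (by norm_num) (by linarith)
  have hr0 : 0 < r := by linarith
  have h1 := tendsto_pow_const_div_const_pow_of_one_lt 5 hr1
  obtain ⟨E, hE⟩ := h1.bddAbove_range
  have hE' : ∀ n : ℕ, (n : ℝ) ^ 5 / r ^ n ≤ E := fun n => hE ⟨n, rfl⟩
  have hE0 : 0 ≤ E := le_trans (by positivity) (hE' 0)
  set ρ : ℝ := (2 : ℝ) ^ (-(δ / 6)) with hρ
  have hρ0 : 0 < ρ := Real.rpow_pos_of_pos (by norm_num) _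
  have hρ1 : ρ < 1 := Real.rpow_lt_one_of_one_lt_of_neg (by norm_num) (by linarith)
  refine ⟨E * r, by positivity, ρ, hρ0, hρ1, fun J i₁ i₂ i₃ h1 h2 h3 => ?_⟩
  have h4 := hE' (J + 1)
  rw [div_le_iff₀ (by positivity)] at h4
  push_cast at h4
  have e1 : ((2 : ℝ) ^ J) ^ (-δ) = ρ ^ (3 * J) * (r ^ J)⁻¹ := by
    have f1 : ρ ^ (3 * J) = ((2 : ℝ) ^ (-(δ / 2))) ^ J := by
      have f0 : ((2 : ℝ) ^ (-(δ / 6))) ^ 3 = (2 : ℝ) ^ (-(δ / 2)) := by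
        rw [← Real.rpow_natCast, ← Real.rpow_mul (by norm_num)]
        congr 1
        push_cast
        ring
      rw [pow_mul, hρ, f0]
    have f2 : (r ^ J)⁻¹ = ((2 : ℝ) ^ (-(δ / 2))) ^ J := by
      rw [hr, Real.rpow_neg (by norm_num), inv_pow]
    rw [f1, f2, ← mul_pow, ← Real.rpow_add (by norm_num), two_pow_rpow]
    congr 2
    ring
  have e2 : ρ ^ (3 * J) ≤ ρ ^ i₁ * ρ ^ i₂ * ρ ^ i₃ := by
    rw [← pow_add, ← pow_add]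
    exact pow_le_pow_of_le_one hρ0.le hρ1.le (by omega)
  rw [e1]
  have e3 : 0 < r ^ J := by positivity
  calc ((J : ℝ) + 1) ^ 5 * (ρ ^ (3 * J) * (r ^ J)⁻¹)
      ≤ (E * r ^ (J + 1)) * (ρ ^ (3 * J) * (r ^ J)⁻¹) :=
        mul_le_mul_of_nonneg_right h4 (by positivity)
    _ = E * r * ρ ^ (3 * J) := by
        rw [pow_succ]
        field_simp
    _ ≤ _ := mul_le_mul_of_nonneg_left e2 (by positivity)

section

variable {D : Set K3} {κ K : ℝ}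

theorem cu_N0 (B : Finset K3) (i : ℕ) (u : K3 → ℝ) :
    Real.sqrt (∑ k ∈ B, cu D i u k ^ 2) ≤ Nb B 0 u := by
  unfold Nb
  refine Real.sqrt_le_sqrt (Finset.sum_le_sum fun k _ => ?_)
  rw [Real.rpow_zero, one_mul]
  by_cases c : k ∈ D ∧ k ≠ 0 ∧ sh k = i
  · rw [cu_of c]
  · rw [cu_of_not c]
    nlinarith [sq_nonneg (u k)]

theorem cu_Nb (B : Finset K3) {i J : ℕ} (hi : J ≤ i + 1) {b : ℝ} (hb : 0 ≤ b) (u : K3 → ℝ) :
    Real.sqrt (∑ k ∈ B, cu D i u k ^ 2) ≤ 2 ^ (b / 2) * ((2 : ℝ) ^ J) ^ (-(b / 2)) * Nb B b u := by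
  have hx : (0 : ℝ) < (2 : ℝ) ^ i := by positivity
  have hxJ : (0 : ℝ) < (2 : ℝ) ^ J := by positivity
  have h1 : ∑ k ∈ B, cu D i u k ^ 2 ≤ (((2 : ℝ) ^ i) ^ (-(b / 2))) ^ 2
      * ∑ k ∈ B, jb k ^ b * u k ^ 2 := by
    rw [Finset.mul_sum]
    refine Finset.sum_le_sum fun k _ => ?_
    by_cases c : k ∈ D ∧ k ≠ 0 ∧ sh k = i
    · rw [cu_of c]
      have f1 := sh_le c.2.1
      rw [c.2.2, ← jb_of_ne c.2.1] at f1
      have f2 : (((2 : ℝ) ^ i) ^ (-(b / 2))) ^ 2 = (((2 : ℝ) ^ i) ^ b)⁻¹ := by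
        rw [← Real.rpow_natCast, ← Real.rpow_mul hx.le, ← Real.rpow_neg hx.le]
        congr 1
        push_cast
        ring
      have f3 : ((2 : ℝ) ^ i) ^ b ≤ jb k ^ b := Real.rpow_le_rpow hx.le f1 hb
      have f4 : 0 < ((2 : ℝ) ^ i) ^ b := Real.rpow_pos_of_pos hx _
      rw [f2, ← mul_assoc]
      have f5 : 1 ≤ (((2 : ℝ) ^ i) ^ b)⁻¹ * jb k ^ b := by
        rw [inv_mul_eq_div, le_div_iff₀ f4, one_mul]
        exact f3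
      nlinarith [sq_nonneg (u k)]
    · rw [cu_of_not c]
      have := Real.rpow_nonneg (jb_pos k).le b
      have := sq_nonneg (u k)
      simp only [ne_eq, OfNat.ofNat_ne_zero, not_false_eq_true, zero_pow]
      positivity
  have h2 : Real.sqrt (∑ k ∈ B, cu D i u k ^ 2) ≤ ((2 : ℝ) ^ i) ^ (-(b / 2)) * Nb B b u := by
    unfold Nb
    refine (Real.sqrt_le_sqrt h1).trans (le_of_eq ?_)
    rw [Real.sqrt_mul (sq_nonneg _), Real.sqrt_sq (Real.rpow_nonneg hx.le _)]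
  refine h2.trans (mul_le_mul_of_nonneg_right ?_ (Nb_nonneg _ _ _))
  have g1 : (2 : ℝ) ^ J ≤ 2 * 2 ^ i := by
    calc (2 : ℝ) ^ J ≤ 2 ^ (i + 1) := pow_le_pow_right₀ (by norm_num) hi
      _ = 2 * 2 ^ i := by ring
  have g2 : (2 * (2 : ℝ) ^ i) ^ (-(b / 2)) ≤ ((2 : ℝ) ^ J) ^ (-(b / 2)) :=
    Real.rpow_le_rpow_of_nonpos hxJ g1 (by linarith)
  rw [Real.mul_rpow (by norm_num) hx.le] at g2
  have g3 : (2 : ℝ) ^ (b / 2) * 2 ^ (-(b / 2)) = 1 := by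
    rw [← Real.rpow_add (by norm_num)]
    simp
  calc ((2 : ℝ) ^ i) ^ (-(b / 2)) = 2 ^ (b / 2) * (2 ^ (-(b / 2)) * ((2 : ℝ) ^ i) ^ (-(b / 2))) := by
        rw [← mul_assoc, g3, one_mul]
    _ ≤ _ := mul_le_mul_of_nonneg_left g2 (Real.rpow_nonneg (by norm_num) _)

/-- The sum of the three products. -/
noncomputable def XX (B : Finset K3) (b : ℝ) (u v w : K3 → ℝ) : ℝ :=
  Nb B 0 u * (Nb B b v * Nb B b w) + Nb B 0 v * (Nb B b u * Nb B b w)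
    + Nb B 0 w * (Nb B b u * Nb B b v)

theorem XX_nonneg (B : Finset K3) (b : ℝ) (u v w : K3 → ℝ) : 0 ≤ XX B b u v w := by
  unfold XX
  have := Nb_nonneg B b
  have := Nb_nonneg B 0
  have h1 := Nb_nonneg B b u
  have h2 := Nb_nonneg B b v
  have h3 := Nb_nonneg B b w
  have h4 := Nb_nonneg B 0 u
  have h5 := Nb_nonneg B 0 v
  have h6 := Nb_nonneg B 0 w
  positivity

theorem pair_top (B : Finset K3) {i i' i'' J : ℕ} (hi : J ≤ i + 1) (hi' : J ≤ i' + 1) {b : ℝ}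
    (hb : 0 ≤ b) (u v w : K3 → ℝ) :
    Real.sqrt (∑ k ∈ B, cu D i'' u k ^ 2) * (Real.sqrt (∑ k ∈ B, cu D i v k ^ 2)
      * Real.sqrt (∑ k ∈ B, cu D i' w k ^ 2))
      ≤ 2 ^ b * ((2 : ℝ) ^ J) ^ (-b) * (Nb B 0 u * (Nb B b v * Nb B b w)) := by
  have h1 := cu_Nb (D := D) B hi hb v
  have h2 := cu_Nb (D := D) B hi' hb w
  have h3 := cu_N0 (D := D) B i'' u
  have hxJ : (0 : ℝ) < (2 : ℝ) ^ J := by positivity
  have e1 : (2 : ℝ) ^ (b / 2) * 2 ^ (b / 2) = 2 ^ b := by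
    rw [← Real.rpow_add (by norm_num)]
    congr 1
    ring
  have e2 : ((2 : ℝ) ^ J) ^ (-(b / 2)) * ((2 : ℝ) ^ J) ^ (-(b / 2)) = ((2 : ℝ) ^ J) ^ (-b) := by
    rw [← Real.rpow_add hxJ]
    congr 1
    ring
  have n1 := Nb_nonneg B b v
  have n2 := Nb_nonneg B b w
  have n3 := Nb_nonneg B 0 u
  calc _ ≤ Nb B 0 u * ((2 ^ (b / 2) * ((2 : ℝ) ^ J) ^ (-(b / 2)) * Nb B b v)
        * (2 ^ (b / 2) * ((2 : ℝ) ^ J) ^ (-(b / 2)) * Nb B b w)) := by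
        refine mul_le_mul h3 (mul_le_mul h1 h2 (Real.sqrt_nonneg _) (by positivity))
          (by positivity) n3
    _ = (2 ^ (b / 2) * 2 ^ (b / 2)) * (((2 : ℝ) ^ J) ^ (-(b / 2)) * ((2 : ℝ) ^ J) ^ (-(b / 2)))
          * (Nb B 0 u * (Nb B b v * Nb B b w)) := by ring
    _ = _ := by rw [e1, e2]

/-- The bound for three shells with the weights. -/
theorem shell_w (hK : 0 ≤ K) (hκ : 0 ≤ κ) (hκ3 : κ ≤ 3) (h : SD D κ K) (h' : CD D κ K)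
    {i₁ i₂ i₃ J : ℕ} (h1 : i₁ ≤ J) (h2 : i₂ ≤ J) (h3 : i₃ ≤ J) (hJ : J ≤ max i₁ (max i₂ i₃))
    (B : Finset K3) (u v w : K3 → ℝ) {σ δ : ℝ} (hσ : 0 ≤ σ) (hδ : 0 < δ) :
    ((2 : ℝ) ^ (J + 1)) ^ σ
      * |∑ x ∈ Tr B, cu D i₁ u x.1 * cu D i₂ v x.2 * cu D i₃ w (-(x.1 + x.2))|
      ≤ 343 * Fc κ K * 2 ^ (g0 κ + δ) * 4 ^ σ * ((J + 1) ^ 5 * ((2 : ℝ) ^ J) ^ (-δ))
        * XX B (σ + g0 κ + δ) u v w := by
  have hF := Fc_nonneg (κ := κ) hK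
  have hg := g0_nonneg κ
  set b : ℝ := σ + g0 κ + δ with hb
  have hb0 : 0 ≤ b := by positivity
  have hxJ : (0 : ℝ) < (2 : ℝ) ^ J := by positivity
  have hXX := XX_nonneg B b u v w
  have hR : 0 ≤ 343 * Fc κ K * 2 ^ (g0 κ + δ) * 4 ^ σ * (((J : ℝ) + 1) ^ 5 * ((2 : ℝ) ^ J) ^ (-δ)) := by
    positivity
  by_cases h0 : ∑ x ∈ Tr B, cu D i₁ u x.1 * cu D i₂ v x.2 * cu D i₃ w (-(x.1 + x.2)) = 0
  · rw [h0, abs_zero, mul_zero]
    exact mul_nonneg hR hXX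
  obtain ⟨x, hx, hne⟩ := Finset.exists_ne_zero_of_sum_ne_zero h0
  have c1 : x.1 ∈ D ∧ x.1 ≠ 0 ∧ sh x.1 = i₁ := by
    by_contra hc
    apply hne
    rw [cu_of_not hc, zero_mul, zero_mul]
  have c2 : x.2 ∈ D ∧ x.2 ≠ 0 ∧ sh x.2 = i₂ := by
    by_contra hc
    apply hne
    rw [cu_of_not (k := x.2) hc, mul_zero, zero_mul]
  have c3 : -(x.1 + x.2) ∈ D ∧ -(x.1 + x.2) ≠ 0 ∧ sh (-(x.1 + x.2)) = i₃ := by
    by_contra hc
    apply hne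
    rw [cu_of_not (k := -(x.1 + x.2)) hc, mul_zero]
  have t1 := sh_tri (q := x.2) (r := -(x.1 + x.2)) c1.2.1 (by abel)
  have t2 := sh_tri (q := x.1) (r := -(x.1 + x.2)) c2.2.1 (by abel)
  have t3 := sh_tri (q := x.1) (r := x.2) c3.2.1 (by abel)
  rw [c1.2.2, c2.2.2, c3.2.2] at t1
  rw [c2.2.2, c1.2.2, c3.2.2] at t2
  rw [c3.2.2, c1.2.2, c2.2.2] at t3
  have e1 := shell_tri hK hκ hκ3 h h' h1 h2 h3 hJ B u v w
  set U := Real.sqrt (∑ k ∈ B, cu D i₁ u k ^ 2) with hU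
  set V := Real.sqrt (∑ k ∈ B, cu D i₂ v k ^ 2) with hV
  set W := Real.sqrt (∑ k ∈ B, cu D i₃ w k ^ 2) with hW
  have e2 : U * V * W ≤ 2 ^ b * ((2 : ℝ) ^ J) ^ (-b) * XX B b u v w := by
    have n1 := Nb_nonneg B b u
    have n2 := Nb_nonneg B b v
    have n3 := Nb_nonneg B b w
    have n4 := Nb_nonneg B 0 u
    have n5 := Nb_nonneg B 0 v
    have n6 := Nb_nonneg B 0 w
    have hp : 0 ≤ (2 : ℝ) ^ b * ((2 : ℝ) ^ J) ^ (-b) := by positivity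
    have k1 : 0 ≤ Nb B 0 u * (Nb B b v * Nb B b w) := by positivity
    have k2 : 0 ≤ Nb B 0 v * (Nb B b u * Nb B b w) := by positivity
    have k3 : 0 ≤ Nb B 0 w * (Nb B b u * Nb B b v) := by positivity
    by_cases d1 : J ≤ i₂ + 1 ∧ J ≤ i₃ + 1
    · have := pair_top (D := D) (i'' := i₁) B d1.1 d1.2 hb0 u v w
      calc U * V * W = U * (V * W) := by ring
        _ ≤ _ := this
        _ ≤ _ := mul_le_mul_of_nonneg_left (by unfold XX; linarith) hp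
    by_cases d2 : J ≤ i₁ + 1 ∧ J ≤ i₃ + 1
    · have := pair_top (D := D) (i'' := i₂) B d2.1 d2.2 hb0 v u w
      calc U * V * W = V * (U * W) := by ring
        _ ≤ _ := this
        _ ≤ _ := mul_le_mul_of_nonneg_left (by unfold XX; linarith) hp
    · have := pair_top (D := D) (i'' := i₃) B (i := i₁) (i' := i₂) (J := J) (by omega) (by omega)
        hb0 w u v
      calc U * V * W = W * (U * V) := by ring
        _ ≤ _ := this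
        _ ≤ _ := mul_le_mul_of_nonneg_left (by unfold XX; linarith) hp
  have e3 : ((2 : ℝ) ^ (J + 1)) ^ σ = 2 ^ σ * ((2 : ℝ) ^ J) ^ σ := by
    rw [pow_succ, mul_comm ((2 : ℝ) ^ J) 2, Real.mul_rpow (by norm_num) hxJ.le]
  have e4 : (2 : ℝ) ^ σ * 2 ^ b = 2 ^ (g0 κ + δ) * 4 ^ σ := by
    have : (4 : ℝ) ^ σ = 2 ^ σ * 2 ^ σ := by
      rw [← Real.mul_rpow (by norm_num) (by norm_num)]
      norm_num
    rw [this, hb, add_assoc, Real.rpow_add (by norm_num)]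
    ring
  have e5 : ((2 : ℝ) ^ J) ^ σ * ((2 : ℝ) ^ J) ^ g0 κ * ((2 : ℝ) ^ J) ^ (-b)
      = ((2 : ℝ) ^ J) ^ (-δ) := by
    rw [← Real.rpow_add hxJ, ← Real.rpow_add hxJ]
    congr 1
    rw [hb]
    ring
  rw [e3]
  calc 2 ^ σ * ((2 : ℝ) ^ J) ^ σ
        * |∑ x ∈ Tr B, cu D i₁ u x.1 * cu D i₂ v x.2 * cu D i₃ w (-(x.1 + x.2))|
      ≤ 2 ^ σ * ((2 : ℝ) ^ J) ^ σ * (343 * Fc κ K * (J + 1) ^ 5 * ((2 : ℝ) ^ J) ^ g0 κ
        * (U * V * W)) := mul_le_mul_of_nonneg_left e1 (by positivity)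
    _ ≤ 2 ^ σ * ((2 : ℝ) ^ J) ^ σ * (343 * Fc κ K * (J + 1) ^ 5 * ((2 : ℝ) ^ J) ^ g0 κ
        * (2 ^ b * ((2 : ℝ) ^ J) ^ (-b) * XX B b u v w)) := by
        refine mul_le_mul_of_nonneg_left (mul_le_mul_of_nonneg_left e2 (by positivity))
          (by positivity)
    _ = 343 * Fc κ K * (2 ^ σ * 2 ^ b) * ((J + 1) ^ 5
        * (((2 : ℝ) ^ J) ^ σ * ((2 : ℝ) ^ J) ^ g0 κ * ((2 : ℝ) ^ J) ^ (-b))) * XX B b u v w := by
        ring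
    _ = _ := by
        rw [e4, e5]
        ring

theorem mx_nn (p q : K3) : 0 ≤ mx p q := (len_nonneg p).trans (le_max_left _ _)

open Classical in
/-- The indicator of the triads of selected frequencies. -/
noncomputable def dd (D : Set K3) (x : K3 × K3) : ℝ :=
  if x.1 ∈ D ∧ x.2 ∈ D ∧ -(x.1 + x.2) ∈ D then 1 else 0

/-- The trilinear estimate. -/
theorem ate (hK : 0 ≤ K) (hκ : 0 ≤ κ) (hκ3 : κ ≤ 3) (h : SD D κ K) (h' : CD D κ K)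
    (h0 : ∀ k ∈ D, k ≠ 0) {δ : ℝ} (hδ : 0 < δ) :
    ∃ C : ℝ, 0 ≤ C ∧ ∀ σ : ℝ, 0 ≤ σ → ∀ (B : Finset K3) (u v w : K3 → ℝ), (∀ k, 0 ≤ u k) →
      (∀ k, 0 ≤ v k) → (∀ k, 0 ≤ w k) →
      ∑ x ∈ Tr B, dd D x * mx x.1 x.2 ^ σ * (u x.1 * v x.2 * w (-(x.1 + x.2)))
        ≤ C * 4 ^ σ * XX B (σ + g0 κ + δ) u v w := by
  obtain ⟨C₃, hC₃, ρ, hρ0, hρ1, hpoly⟩ := exists_poly5 hδ
  have hF := Fc_nonneg (κ := κ) hK
  have h1ρ : 0 < 1 - ρ := by linarith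
  refine ⟨343 * Fc κ K * 2 ^ (g0 κ + δ) * (C₃ * ((1 - ρ)⁻¹) ^ 3), by positivity,
    fun σ hσ B u v w hu hv hw => ?_⟩
  classical
  set M := B.sup sh + 1 with hM
  have hsh : ∀ k ∈ B, sh k < M := fun k hk => Nat.lt_succ_of_le (Finset.le_sup hk)
  set R := Finset.range M ×ˢ Finset.range M ×ˢ Finset.range M with hR
  have hXX := XX_nonneg B (σ + g0 κ + δ) u v w
  have h1 : ∑ x ∈ Tr B, dd D x * mx x.1 x.2 ^ σ * (u x.1 * v x.2 * w (-(x.1 + x.2)))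
      ≤ ∑ τ ∈ R, ((2 : ℝ) ^ (max τ.1 (max τ.2.1 τ.2.2) + 1)) ^ σ
        * ∑ x ∈ Tr B, cu D τ.1 u x.1 * cu D τ.2.1 v x.2 * cu D τ.2.2 w (-(x.1 + x.2)) := by
    simp only [Finset.mul_sum]
    rw [Finset.sum_comm]
    refine Finset.sum_le_sum fun x hx => ?_
    have hnn : ∀ τ : ℕ × ℕ × ℕ, 0 ≤ ((2 : ℝ) ^ (max τ.1 (max τ.2.1 τ.2.2) + 1)) ^ σ
        * (cu D τ.1 u x.1 * cu D τ.2.1 v x.2 * cu D τ.2.2 w (-(x.1 + x.2))) := by
      intro τ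
      have n1 := cu_nonneg (D := D) (i := τ.1) hu x.1
      have n2 := cu_nonneg (D := D) (i := τ.2.1) hv x.2
      have n3 := cu_nonneg (D := D) (i := τ.2.2) hw (-(x.1 + x.2))
      positivity
    by_cases hd : x.1 ∈ D ∧ x.2 ∈ D ∧ -(x.1 + x.2) ∈ D
    · rw [mem_Tr] at hx
      have hmem : (sh x.1, sh x.2, sh (-(x.1 + x.2))) ∈ R := by
        simp only [hR, Finset.mem_product, Finset.mem_range]
        exact ⟨hsh _ hx.1, hsh _ hx.2.1, hsh _ hx.2.2⟩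
      refine le_trans ?_ (Finset.single_le_sum (fun τ _ => hnn τ) hmem)
      show dd D x * mx x.1 x.2 ^ σ * (u x.1 * v x.2 * w (-(x.1 + x.2)))
        ≤ ((2 : ℝ) ^ (max (sh x.1) (max (sh x.2) (sh (-(x.1 + x.2)))) + 1)) ^ σ
        * (cu D (sh x.1) u x.1 * cu D (sh x.2) v x.2 * cu D (sh (-(x.1 + x.2))) w (-(x.1 + x.2)))
      rw [cu_of ⟨hd.1, h0 _ hd.1, rfl⟩, cu_of ⟨hd.2.1, h0 _ hd.2.1, rfl⟩,
        cu_of ⟨hd.2.2, h0 _ hd.2.2, rfl⟩]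
      unfold dd
      rw [if_pos hd, one_mul]
      have n1 := hu x.1
      have n2 := hv x.2
      have n3 := hw (-(x.1 + x.2))
      refine mul_le_mul_of_nonneg_right (Real.rpow_le_rpow (mx_nn _ _) ?_ hσ) (by positivity)
      unfold mx
      refine max_le ?_ (max_le ?_ ?_)
      · exact (lt_sh x.1).le.trans (pow_le_pow_right₀ (by norm_num) (by omega))
      · exact (lt_sh x.2).le.trans (pow_le_pow_right₀ (by norm_num) (by omega))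
      · rw [← len_neg]
        exact (lt_sh (-(x.1 + x.2))).le.trans (pow_le_pow_right₀ (by norm_num) (by omega))
    · unfold dd
      rw [if_neg hd, zero_mul, zero_mul]
      exact Finset.sum_nonneg fun τ _ => hnn τ
  refine h1.trans ?_
  have h2 : ∀ τ ∈ R, ((2 : ℝ) ^ (max τ.1 (max τ.2.1 τ.2.2) + 1)) ^ σ
        * ∑ x ∈ Tr B, cu D τ.1 u x.1 * cu D τ.2.1 v x.2 * cu D τ.2.2 w (-(x.1 + x.2))
      ≤ 343 * Fc κ K * 2 ^ (g0 κ + δ) * 4 ^ σ * XX B (σ + g0 κ + δ) u v w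
        * (C₃ * (ρ ^ τ.1 * ρ ^ τ.2.1 * ρ ^ τ.2.2)) := by
    intro τ _
    set J := max τ.1 (max τ.2.1 τ.2.2) with hJ
    have a1 : τ.1 ≤ J := le_max_left _ _
    have a2 : τ.2.1 ≤ J := (le_max_left _ _).trans (le_max_right _ _)
    have a3 : τ.2.2 ≤ J := (le_max_right _ _).trans (le_max_right _ _)
    have b1 := shell_w hK hκ hκ3 h h' a1 a2 a3 le_rfl B u v w hσ hδ
    have b2 := hpoly J τ.1 τ.2.1 τ.2.2 a1 a2 a3
    calc _ ≤ _ := mul_le_mul_of_nonneg_left (le_abs_self _) (by positivity)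
      _ ≤ _ := b1
      _ = 343 * Fc κ K * 2 ^ (g0 κ + δ) * 4 ^ σ * XX B (σ + g0 κ + δ) u v w
          * (((J : ℝ) + 1) ^ 5 * ((2 : ℝ) ^ J) ^ (-δ)) := by ring
      _ ≤ _ := mul_le_mul_of_nonneg_left b2 (by positivity)
  refine (Finset.sum_le_sum h2).trans ?_
  rw [← Finset.mul_sum, ← Finset.mul_sum]
  have h3 : ∑ τ ∈ R, ρ ^ τ.1 * ρ ^ τ.2.1 * ρ ^ τ.2.2 ≤ ((1 - ρ)⁻¹) ^ 3 := by
    have e1 : ∑ τ ∈ R, ρ ^ τ.1 * ρ ^ τ.2.1 * ρ ^ τ.2.2 = (∑ i ∈ Finset.range M, ρ ^ i) ^ 3 := by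
      rw [hR, Finset.sum_product]
      simp only [Finset.sum_product]
      rw [pow_succ, pow_two, Finset.sum_mul_sum, Finset.sum_mul]
      refine Finset.sum_congr rfl fun i _ => ?_
      rw [Finset.sum_mul]
      refine Finset.sum_congr rfl fun j _ => ?_
      rw [Finset.mul_sum]
    rw [e1]
    refine pow_le_pow_left₀ (Finset.sum_nonneg fun _ _ => by positivity) ?_ 3
    have := summable_geometric_of_lt_one hρ0.le hρ1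
    rw [← tsum_geometric_of_lt_one hρ0.le hρ1]
    exact this.sum_le_tsum _ fun _ _ => by positivity
  calc 343 * Fc κ K * 2 ^ (g0 κ + δ) * 4 ^ σ * XX B (σ + g0 κ + δ) u v w
        * (C₃ * ∑ τ ∈ R, ρ ^ τ.1 * ρ ^ τ.2.1 * ρ ^ τ.2.2)
      ≤ 343 * Fc κ K * 2 ^ (g0 κ + δ) * 4 ^ σ * XX B (σ + g0 κ + δ) u v w
        * (C₃ * ((1 - ρ)⁻¹) ^ 3) := by
        refine mul_le_mul_of_nonneg_left (mul_le_mul_of_nonneg_left h3 hC₃) (by positivity)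
    _ = _ := by ring

end

end Pool.Agent.Run7.h507.FD
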