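import Pool.Agent.Run7.h507.FD.Sel
import Pool.Agent.Run7.h507.RT.Dya

/-!
Almost surely few sums of two small sets of frequencies are selected.
-/

set_option autoImplicit false

open MeasureTheory ProbabilityTheory Filter Topology
open scoped NNReal ENNReal

namespace Pool.Agent.Run7.h507.FD

open RT

/-- The sum over the nonempty subsets. -/
theorem sum_pow_card_le {β : Type*} [DecidableEq β] (Q : Finset β) (hD : 1 ≤ Q.card) {x : ℝ}
    (hx0 : 0 ≤ x) (hx : x ≤ 1 / (Q.card : ℝ) ^ 2) :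
    ∑ A ∈ Q.powerset.erase ∅, x ^ A.card ≤ 2 / Q.card := by
  have hsum : ∑ A ∈ Q.powerset.erase ∅, x ^ A.card = (x + 1) ^ Q.card - 1 := by
    have h1 := Finset.sum_pow_mul_eq_add_pow x 1 Q
    simp only [one_pow, mul_one] at h1
    rw [← h1, ← Finset.add_sum_erase Q.powerset (fun A => x ^ A.card)
      (Finset.empty_mem_powerset Q)]
    simp
  have hDpos : (0 : ℝ) < Q.card := by exact_mod_cast hD
  rw [hsum]
  have h1 : x + 1 ≤ Real.exp x := Real.add_one_le_exp x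
  have h2 : (x + 1) ^ Q.card ≤ Real.exp (Q.card * x) := by
    rw [Real.exp_nat_mul]
    exact pow_le_pow_left₀ (by positivity) h1 _
  have h3 : Q.card * x ≤ 1 / Q.card := by
    calc (Q.card : ℝ) * x ≤ Q.card * (1 / (Q.card : ℝ) ^ 2) :=
          mul_le_mul_of_nonneg_left hx hDpos.le
      _ = 1 / Q.card := by field_simp
  have h4 : (1 : ℝ) / Q.card ≤ 1 := by
    rw [div_le_one hDpos]
    exact_mod_cast hD
  have h5 : Real.exp (1 / Q.card) ≤ 1 + 2 * (1 / Q.card) := by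
    have h6 : (0 : ℝ) ≤ 1 / Q.card := by positivity
    have h7 := Real.exp_bound' h6 h4 (n := 2) (by norm_num)
    simp only [Finset.sum_range_succ, Finset.sum_range_zero, pow_zero, Nat.factorial,
      Nat.cast_one, div_one, pow_one] at h7
    norm_num at h7
    have h8 : ((Q.card : ℝ) ^ 2)⁻¹ ≤ (Q.card : ℝ)⁻¹ := by
      refine inv_anti₀ hDpos ?_
      have : (1 : ℝ) ≤ Q.card := by exact_mod_cast hD
      nlinarith
    have h11 : (0 : ℝ) ≤ (Q.card : ℝ)⁻¹ := by positivity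
    rw [one_div]
    linarith
  have h9 := h2.trans ((Real.exp_le_exp.2 h3).trans h5)
  have h10 : 2 * (1 / (Q.card : ℝ)) = 2 / Q.card := by ring
  linarith

open Classical in
/-- The frequencies of the shell `i` whose negatives are sums of elements of `A` and `B`. -/
noncomputable def Rs (i : ℕ) (A B : Finset K3) : Finset K3 :=
  ((A ×ˢ B).image fun x => -(x.1 + x.2)).filter fun r => r ≠ 0 ∧ sh r = i

theorem mem_Rs {i : ℕ} {A B : Finset K3} {r : K3} :
    r ∈ Rs i A B ↔ (∃ p ∈ A, ∃ q ∈ B, p + q + r = 0) ∧ r ≠ 0 ∧ sh r = i := by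
  classical
  unfold Rs
  rw [Finset.mem_filter, Finset.mem_image]
  refine and_congr_left fun _ => ⟨?_, ?_⟩
  · rintro ⟨x, hx, rfl⟩
    rw [Finset.mem_product] at hx
    exact ⟨x.1, hx.1, x.2, hx.2, by abel⟩
  · rintro ⟨p, hp, q, hq, h⟩
    exact ⟨(p, q), Finset.mem_product.2 ⟨hp, hq⟩, by
      show -(p + q) = r
      rw [← add_eq_zero_iff_neg_eq, h]⟩

theorem card_Rs (i : ℕ) (A B : Finset K3) : (Rs i A B).card ≤ A.card * B.card := by
  classical
  unfold Rs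
  refine (Finset.card_filter_le _ _).trans (Finset.card_image_le.trans ?_)
  rw [Finset.card_product]

open Classical in
/-- Few of the sums are selected. -/
def SD (D : Set K3) (κ K : ℝ) : Prop :=
  ∀ j i : ℕ, i < j + 4 → ∀ A B : Finset K3, A ⊆ Bn (2 ^ (j + 1)) → B ⊆ Bn (2 ^ (j + 1)) →
    (((Rs i A B).filter fun k => k ∈ D).card : ℝ)
      ≤ K * (((2 : ℝ) ^ i) ^ (-κ) * (A.card * B.card) + (j + 1) * (A.card + B.card))

/-- The number of the frequencies in a shell. -/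
def CD (D : Set K3) (κ K : ℝ) : Prop :=
  ∀ (i : ℕ) (R : Finset K3), (∀ k ∈ R, k ∈ D ∧ sh k = i) →
    (R.card : ℝ) ≤ K * (((2 : ℝ) ^ i) ^ (3 - κ) + (i + 1))

theorem log_card_le (j : ℕ) : Real.log (Bn (2 ^ (j + 1))).card ≤ 9 * (j + 1) := by
  have h4 := le_card_Bn j
  have h5 : (0 : ℝ) < (Bn (2 ^ (j + 1))).card := lt_of_lt_of_le (by positivity) h4
  have hj : (0 : ℝ) ≤ j := Nat.cast_nonneg j
  calc Real.log (Bn (2 ^ (j + 1))).card ≤ Real.log (2 ^ (3 * (j + 3))) :=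
        Real.log_le_log h5 (card_Bn_le j)
    _ = (3 * (j + 3) : ℕ) * Real.log 2 := Real.log_pow _ _
    _ ≤ (3 * (j + 3) : ℕ) * 1 := by
        refine mul_le_mul_of_nonneg_left ?_ (Nat.cast_nonneg _)
        have := Real.log_two_lt_d9
        linarith
    _ ≤ 9 * (j + 1) := by push_cast; linarith

section

variable {Ω : Type*} [MeasurableSpace Ω] {P : Measure Ω} [IsProbabilityMeasure P]
  {S : Sym2 K3 → Set Ω} {κ C₀ : ℝ}

open Classical in
/-- The bad event at the scale `j`. -/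
def BadS (S : Sym2 K3 → Set Ω) (κ C₀ : ℝ) (j : ℕ) : Set Ω :=
  {ω | ∃ i < j + 4, ∃ A B : Finset K3, A ⊆ Bn (2 ^ (j + 1)) ∧ B ⊆ Bn (2 ^ (j + 1)) ∧
    A.Nonempty ∧ B.Nonempty ∧ 4 * (C₀ * ((2 : ℝ) ^ i) ^ (-κ) * (A.card * B.card))
      + 2 * (2 * Real.log (Bn (2 ^ (j + 1))).card * (A.card + B.card))
      ≤ (((Rs i A B).filter fun k => k ∈ Dm S ω).card : ℝ)}

theorem mean_Rs (hκ : 0 ≤ κ) (hC : 0 ≤ C₀) (i : ℕ) (A B : Finset K3) :
    ∑ k ∈ Rs i A B, C₀ * len k ^ (-κ) ≤ C₀ * ((2 : ℝ) ^ i) ^ (-κ) * (A.card * B.card) := by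
  have h1 : ∀ k ∈ Rs i A B, C₀ * len k ^ (-κ) ≤ C₀ * ((2 : ℝ) ^ i) ^ (-κ) := by
    intro k hk
    rw [mem_Rs] at hk
    have h2 := sh_le hk.2.1
    rw [hk.2.2] at h2
    exact mul_le_mul_of_nonneg_left
      (Real.rpow_le_rpow_of_nonpos (by positivity) h2 (by linarith)) hC
  refine (Finset.sum_le_sum h1).trans ?_
  rw [Finset.sum_const, nsmul_eq_mul, mul_comm]
  refine mul_le_mul_of_nonneg_left ?_ (mul_nonneg hC (Real.rpow_nonneg (by positivity) _))
  exact_mod_cast card_Rs i A B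

theorem measure_BadS (h : Sel P S κ C₀) (hκ : 0 ≤ κ) (hC : 0 ≤ C₀) (j : ℕ) :
    P (BadS S κ C₀ j) ≤ ENNReal.ofReal (16 * (1 / 2) ^ j) := by
  classical
  set Q := Bn (2 ^ (j + 1)) with hQ
  have h2 := le_card_Bn j
  rw [← hQ] at h2
  have hD1 : (1 : ℝ) ≤ Q.card := le_trans (one_le_pow₀ (by norm_num)) h2
  have hD0 : (0 : ℝ) < Q.card := by linarith
  have hDn : 1 ≤ Q.card := by exact_mod_cast hD1
  set L' : ℝ := 2 * Real.log Q.card with hL'
  set x : ℝ := Real.exp (-L') with hx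
  have hx0 : 0 ≤ x := (Real.exp_pos _).le
  have hx1 : x ≤ 1 / (Q.card : ℝ) ^ 2 := by
    rw [hx, hL', ← neg_mul, mul_comm, Real.exp_mul, Real.exp_log hD0, Real.rpow_neg hD0.le, one_div]
    norm_num
  set N : Finset (Finset K3) := Q.powerset.erase ∅ with hN
  have hmem : ∀ A, A ∈ N ↔ A ⊆ Q ∧ A.Nonempty := by
    intro A
    rw [hN, Finset.mem_erase, Finset.mem_powerset, Finset.nonempty_iff_ne_empty]
    tauto
  set E : ℕ × Finset K3 × Finset K3 → Set Ω := fun y =>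
    {ω | 4 * (C₀ * ((2 : ℝ) ^ y.1) ^ (-κ) * (y.2.1.card * y.2.2.card))
      + 2 * (L' * (y.2.1.card + y.2.2.card))
      ≤ (((Rs y.1 y.2.1 y.2.2).filter fun k => k ∈ Dm S ω).card : ℝ)} with hE
  have hsub : BadS S κ C₀ j ⊆ ⋃ y ∈ Finset.range (j + 4) ×ˢ N ×ˢ N, E y := by
    rintro ω ⟨i, hi, A, B, hA, hB, hA', hB', hω⟩
    simp only [Set.mem_iUnion]
    refine ⟨(i, A, B), ?_, hω⟩
    simp only [Finset.mem_product, Finset.mem_range]
    exact ⟨hi, (hmem A).2 ⟨hA, hA'⟩, (hmem B).2 ⟨hB, hB'⟩⟩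
  refine (measure_mono hsub).trans ((measure_biUnion_finset_le _ _).trans ?_)
  have h1 : ∀ y ∈ Finset.range (j + 4) ×ˢ N ×ˢ N, P (E y)
      ≤ ENNReal.ofReal (x ^ y.2.1.card * x ^ y.2.2.card) := by
    intro y _
    have h3 := count_tail h (Rs y.1 y.2.1 y.2.2) (fun k hk => (mem_Rs.1 hk).2.1)
      (mean_Rs hκ hC y.1 y.2.1 y.2.2) (L' * (y.2.1.card + y.2.2.card))
    rw [← ofReal_measureReal (measure_ne_top _ _)]
    refine ENNReal.ofReal_le_ofReal (h3.trans (le_of_eq ?_))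
    rw [hx, ← Real.exp_nat_mul, ← Real.exp_nat_mul, ← Real.exp_add]
    congr 1
    ring
  refine (Finset.sum_le_sum h1).trans ?_
  rw [← ENNReal.ofReal_sum_of_nonneg (fun y _ => by positivity)]
  refine ENNReal.ofReal_le_ofReal ?_
  have h3 : ∑ y ∈ Finset.range (j + 4) ×ˢ N ×ˢ N, x ^ y.2.1.card * x ^ y.2.2.card
      = (j + 4) * (∑ A ∈ N, x ^ A.card) ^ 2 := by
    rw [Finset.sum_product]
    simp only [Finset.sum_product]
    rw [Finset.sum_const, Finset.card_range, nsmul_eq_mul, pow_two, Finset.sum_mul_sum]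
    push_cast
    rfl
  rw [h3]
  have h4 := sum_pow_card_le Q hDn hx0 hx1
  have h5 : 0 ≤ ∑ A ∈ N, x ^ A.card := Finset.sum_nonneg fun _ _ => by positivity
  have h6 : (2 : ℝ) / Q.card ≤ 2 * (1 / 2) ^ j := by
    rw [div_le_iff₀ hD0]
    have e : (2 : ℝ) * (1 / 2) ^ j * 2 ^ j = 2 := by
      rw [mul_assoc, ← mul_pow]
      norm_num
    nlinarith [pow_pos (by norm_num : (0 : ℝ) < 1 / 2) j]
  have h7 : ((j : ℝ) + 4) ≤ 4 * 2 ^ j := by
    have h8 : (j : ℝ) + 1 ≤ 2 ^ j := by exact_mod_cast Nat.lt_two_pow_self (n := j)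
    have h9 : (0 : ℝ) ≤ j := Nat.cast_nonneg j
    linarith
  calc ((j : ℝ) + 4) * (∑ A ∈ N, x ^ A.card) ^ 2
      ≤ (4 * 2 ^ j) * (2 * (1 / 2) ^ j) ^ 2 := by
        refine mul_le_mul h7 (pow_le_pow_left₀ h5 (h4.trans h6) 2) (by positivity) (by positivity)
    _ = 16 * (2 * (1 / 2)) ^ j * (1 / 2) ^ j := by
        rw [mul_pow, mul_pow]
        ring
    _ = 16 * (1 / 2) ^ j := by norm_num

/-- Almost surely few sums are selected. -/
theorem ae_SD (h : Sel P S κ C₀) (hκ : 0 ≤ κ) (hC : 0 ≤ C₀) :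
    ∀ᵐ ω ∂P, ∃ K : ℝ, 0 ≤ K ∧ SD (Dm S ω) κ K := by
  classical
  have hs : (∑' j, P (BadS S κ C₀ j)) ≠ ∞ := by
    have h1 : Summable fun j : ℕ => (16 : ℝ) * (1 / 2) ^ j :=
      (summable_geometric_of_lt_one (by norm_num) (by norm_num)).mul_left 16
    exact ne_top_of_le_ne_top h1.tsum_ofReal_ne_top
      (ENNReal.tsum_le_tsum fun j => measure_BadS h hκ hC j)
  filter_upwards [ae_eventually_notMem hs] with ω hω
  obtain ⟨j₀, hj₀⟩ := eventually_atTop.1 hω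
  set K₀ : ℝ := 4 * C₀ + 36 + (Bn (2 ^ (j₀ + 1))).card with hK₀
  have hK₀0 : 0 ≤ K₀ := by positivity
  refine ⟨K₀, hK₀0, fun j i hi A B hA hB => ?_⟩
  have hj0 : (0 : ℝ) ≤ j := Nat.cast_nonneg j
  have hp : (0 : ℝ) ≤ ((2 : ℝ) ^ i) ^ (-κ) := Real.rpow_nonneg (by positivity) _
  have htriv : (((Rs i A B).filter fun k => k ∈ Dm S ω).card : ℝ) ≤ A.card * B.card := by
    have : ((Rs i A B).filter fun k => k ∈ Dm S ω).card ≤ A.card * B.card :=
      (Finset.card_filter_le _ _).trans (card_Rs i A B)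
    exact_mod_cast this
  rcases A.eq_empty_or_nonempty with hA0 | hA'
  · rw [hA0] at htriv ⊢
    simp only [Finset.card_empty, Nat.cast_zero, zero_mul] at htriv
    exact htriv.trans (by positivity)
  rcases B.eq_empty_or_nonempty with hB0 | hB'
  · rw [hB0] at htriv ⊢
    simp only [Finset.card_empty, Nat.cast_zero, mul_zero] at htriv
    exact htriv.trans (by positivity)
  rcases le_total j₀ j with hj | hj
  · have h1 := hj₀ j hj
    have h2 : (((Rs i A B).filter fun k => k ∈ Dm S ω).card : ℝ)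
        ≤ 4 * (C₀ * ((2 : ℝ) ^ i) ^ (-κ) * (A.card * B.card))
      + 2 * (2 * Real.log (Bn (2 ^ (j + 1))).card * (A.card + B.card)) := by
      by_contra hcon
      exact h1 ⟨i, hi, A, B, hA, hB, hA', hB', (not_le.1 hcon).le⟩
    refine h2.trans ?_
    have h3 := log_card_le j
    have h4 : 2 * (2 * Real.log (Bn (2 ^ (j + 1))).card * ((A.card : ℝ) + B.card))
        ≤ 36 * ((j + 1) * (A.card + B.card)) := by
      have := mul_le_mul_of_nonneg_right h3 (by positivity : (0 : ℝ) ≤ (A.card : ℝ) + B.card)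
      linarith
    have h5 : 4 * (C₀ * ((2 : ℝ) ^ i) ^ (-κ) * (A.card * B.card))
        = 4 * C₀ * (((2 : ℝ) ^ i) ^ (-κ) * (A.card * B.card)) := by ring
    have h6 : 4 * C₀ ≤ K₀ := by
      rw [hK₀]
      have : (0 : ℝ) ≤ (Bn (2 ^ (j₀ + 1))).card := Nat.cast_nonneg _
      linarith
    have h7 : 36 ≤ K₀ := by
      rw [hK₀]
      have : (0 : ℝ) ≤ (Bn (2 ^ (j₀ + 1))).card := Nat.cast_nonneg _
      linarith
    rw [h5, mul_add K₀]
    refine add_le_add (mul_le_mul_of_nonneg_right h6 (by positivity))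
      (h4.trans (mul_le_mul_of_nonneg_right h7 (by positivity)))
  · have hle : (A.card : ℝ) ≤ (Bn (2 ^ (j₀ + 1))).card := by
      have e1 : (Bn (2 ^ (j + 1))).card ≤ (Bn (2 ^ (j₀ + 1))).card := by
        rw [card_Bn, card_Bn]
        have : 2 ^ (j + 1) ≤ 2 ^ (j₀ + 1) := Nat.pow_le_pow_right (by norm_num) (by omega)
        gcongr
      exact_mod_cast (Finset.card_le_card hA).trans e1
    have h8 : (A.card : ℝ) ≤ K₀ := by
      rw [hK₀]
      linarith
    refine htriv.trans ?_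
    have hB1 : (0 : ℝ) ≤ B.card := Nat.cast_nonneg _
    have hA1 : (0 : ℝ) ≤ A.card := Nat.cast_nonneg _
    calc (A.card : ℝ) * B.card ≤ K₀ * B.card := mul_le_mul_of_nonneg_right h8 hB1
      _ ≤ K₀ * (((2 : ℝ) ^ i) ^ (-κ) * (A.card * B.card) + (j + 1) * (A.card + B.card)) := by
          refine mul_le_mul_of_nonneg_left ?_ hK₀0
          have e1 : (0 : ℝ) ≤ ((2 : ℝ) ^ i) ^ (-κ) * (A.card * B.card) := by positivity
          nlinarith

/-- Almost surely the number of the selected frequencies in the shells is as expected. -/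
theorem ae_CD (h : Sel P S κ C₀) (hκ : 0 ≤ κ) (hC : 0 ≤ C₀) :
    ∀ᵐ ω ∂P, ∃ K : ℝ, 0 ≤ K ∧ CD (Dm S ω) κ K := by
  classical
  set Sh : ℕ → Finset K3 := fun i => (Bn (2 ^ (i + 1))).filter fun k => k ≠ 0 ∧ sh k = i with hSh
  set m : ℕ → ℝ := fun i => C₀ * ((2 : ℝ) ^ i) ^ (-κ) * 2 ^ (3 * (i + 3)) with hm
  have hcard : ∀ i, ((Sh i).card : ℝ) ≤ 2 ^ (3 * (i + 3)) := fun i =>
    le_trans (by exact_mod_cast Finset.card_filter_le _ _) (card_Bn_le i)
  have hmean : ∀ i, ∑ k ∈ Sh i, C₀ * len k ^ (-κ) ≤ m i := by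
    intro i
    have h1 : ∀ k ∈ Sh i, C₀ * len k ^ (-κ) ≤ C₀ * ((2 : ℝ) ^ i) ^ (-κ) := by
      intro k hk
      rw [hSh, Finset.mem_filter] at hk
      have h2 := sh_le hk.2.1
      rw [hk.2.2] at h2
      exact mul_le_mul_of_nonneg_left
        (Real.rpow_le_rpow_of_nonpos (by positivity) h2 (by linarith)) hC
    refine (Finset.sum_le_sum h1).trans ?_
    rw [Finset.sum_const, nsmul_eq_mul, mul_comm]
    exact mul_le_mul_of_nonneg_left (hcard i) (mul_nonneg hC (Real.rpow_nonneg (by positivity) _))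
  set Bd : ℕ → Set Ω := fun i =>
    {ω | 4 * m i + 2 * (i * Real.log 2) ≤ (((Sh i).filter fun k => k ∈ Dm S ω).card : ℝ)} with hBd
  have hP : ∀ i, P (Bd i) ≤ ENNReal.ofReal ((1 / 2) ^ i) := by
    intro i
    have h1 := count_tail h (Sh i) (fun k hk => (Finset.mem_filter.1 hk).2.1) (hmean i)
      (i * Real.log 2)
    rw [← ofReal_measureReal (measure_ne_top _ _)]
    refine ENNReal.ofReal_le_ofReal (h1.trans (le_of_eq ?_))
    rw [← mul_neg, Real.exp_nat_mul, Real.exp_neg, Real.exp_log (by norm_num), one_div]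
  have hs : (∑' j, P (Bd j)) ≠ ∞ := by
    have h1 : Summable fun j : ℕ => ((1 / 2 : ℝ)) ^ j :=
      summable_geometric_of_lt_one (by norm_num) (by norm_num)
    exact ne_top_of_le_ne_top h1.tsum_ofReal_ne_top (ENNReal.tsum_le_tsum hP)
  filter_upwards [ae_eventually_notMem hs] with ω hω
  obtain ⟨j₀, hj₀⟩ := eventually_atTop.1 hω
  set K₀ : ℝ := 4 * C₀ * 512 + 2 + (Bn (2 ^ (j₀ + 1))).card with hK₀
  have hQ0 : (0 : ℝ) ≤ (Bn (2 ^ (j₀ + 1))).card := Nat.cast_nonneg _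
  have hK₀0 : 0 ≤ K₀ := by positivity
  refine ⟨K₀, hK₀0, fun i R hR => ?_⟩
  have hi0 : (0 : ℝ) ≤ i := Nat.cast_nonneg i
  have hx : (0 : ℝ) < (2 : ℝ) ^ i := by positivity
  have hp : (0 : ℝ) ≤ ((2 : ℝ) ^ i) ^ (3 - κ) := Real.rpow_nonneg hx.le _
  have hsub : R ⊆ (Sh i).filter fun k => k ∈ Dm S ω := by
    intro k hk
    have h1 := hR k hk
    rw [Finset.mem_filter, hSh, Finset.mem_filter]
    exact ⟨⟨mem_Bn_of_sh h1.2.le, h1.1.1, h1.2⟩, h1.1⟩
  have hle : (R.card : ℝ) ≤ (((Sh i).filter fun k => k ∈ Dm S ω).card : ℝ) := by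
    exact_mod_cast Finset.card_le_card hsub
  rcases le_total j₀ i with hj | hj
  · have h1 := hj₀ i hj
    have h2 : (((Sh i).filter fun k => k ∈ Dm S ω).card : ℝ) ≤ 4 * m i + 2 * (i * Real.log 2) := by
      by_contra hcon
      exact h1 (not_le.1 hcon).le
    refine hle.trans (h2.trans ?_)
    have h3 : m i = C₀ * 512 * ((2 : ℝ) ^ i) ^ (3 - κ) := by
      rw [hm]
      have e1 : ((2 : ℝ) ^ i) ^ (3 - κ) = ((2 : ℝ) ^ i) ^ (-κ) * ((2 : ℝ) ^ i) ^ 3 := by
        rw [sub_eq_neg_add, Real.rpow_add hx]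
        norm_num
      show C₀ * ((2 : ℝ) ^ i) ^ (-κ) * 2 ^ (3 * (i + 3)) = _
      rw [e1]
      have e2 : (2 : ℝ) ^ (3 * (i + 3)) = 512 * ((2 : ℝ) ^ i) ^ 3 := by
        rw [← pow_mul]
        ring
      rw [e2]
      ring
    have h4 : Real.log 2 ≤ 1 := by
      have := Real.log_two_lt_d9
      linarith
    have h5 : 2 * (i * Real.log 2) ≤ 2 * (i + 1) := by nlinarith
    have h6 : 4 * C₀ * 512 ≤ K₀ := by
      rw [hK₀]
      linarith
    have h7 : 2 ≤ K₀ := by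
      rw [hK₀]
      have : 0 ≤ 4 * C₀ * 512 := by positivity
      linarith
    rw [h3, mul_add]
    refine add_le_add ?_ (h5.trans (mul_le_mul_of_nonneg_right h7 (by positivity)))
    calc 4 * (C₀ * 512 * ((2 : ℝ) ^ i) ^ (3 - κ)) = 4 * C₀ * 512 * ((2 : ℝ) ^ i) ^ (3 - κ) := by ring
      _ ≤ _ := mul_le_mul_of_nonneg_right h6 hp
  · have e1 : (Bn (2 ^ (i + 1))).card ≤ (Bn (2 ^ (j₀ + 1))).card := by
      rw [card_Bn, card_Bn]
      have : 2 ^ (i + 1) ≤ 2 ^ (j₀ + 1) := Nat.pow_le_pow_right (by norm_num) (by omega)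
      gcongr
    have e2 : R.card ≤ (Bn (2 ^ (i + 1))).card :=
      (Finset.card_le_card hsub).trans ((Finset.card_filter_le _ _).trans (Finset.card_filter_le _ _))
    have e3 : (R.card : ℝ) ≤ (Bn (2 ^ (j₀ + 1))).card := by exact_mod_cast e2.trans e1
    have e4 : (R.card : ℝ) ≤ K₀ := by
      rw [hK₀]
      have : 0 ≤ 4 * C₀ * 512 := by positivity
      linarith
    calc (R.card : ℝ) ≤ K₀ * 1 := by linarith
      _ ≤ _ := mul_le_mul_of_nonneg_left (by linarith) hK₀0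

end

end Pool.Agent.Run7.h507.FD
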