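import Pool.Agent.Run7.h507.FD.Lev
import Pool.Agent.Run7.h507.FD.Dis
import Pool.Agent.Run7.h507.RT.Dya2

/-!
The number of the triads between sets of selected frequencies in three shells.
-/

set_option autoImplicit false

open MeasureTheory ProbabilityTheory Filter Topology

namespace Pool.Agent.Run7.h507.FD

open RT

/-- The number of the triads between three sets. -/
def T3 (A B C : Finset K3) : ℕ := ∑ r ∈ C, rho A B r

theorem T3_symm (A B C : Finset K3) : T3 A B C = T3 B A C :=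
  Finset.sum_congr rfl fun r _ => rho_symm A B r

theorem T3_swap (A B C : Finset K3) : T3 A B C = T3 C B A := by
  unfold T3 rho
  simp only [Finset.card_filter]
  rw [Finset.sum_comm]
  refine Finset.sum_congr rfl fun p _ => Finset.sum_congr rfl fun r _ => ?_
  rw [add_comm]

theorem T3_swap' (A B C : Finset K3) : T3 A B C = T3 A C B := by
  rw [T3_symm A B C, T3_swap B A C, T3_symm C A B]

theorem exists_of_T3 {A B C : Finset K3} (h : T3 A B C ≠ 0) :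
    ∃ p ∈ A, ∃ q ∈ B, ∃ r ∈ C, p + q + r = 0 := by
  unfold T3 at h
  obtain ⟨r, hr, h1⟩ := Finset.exists_ne_zero_of_sum_ne_zero h
  unfold rho at h1
  obtain ⟨p, hp⟩ := Finset.card_pos.1 (Nat.pos_of_ne_zero h1)
  rw [Finset.mem_filter] at hp
  exact ⟨p, hp.1, _, hp.2, r, hr, by abel⟩

/-- The exponent. -/
noncomputable def g0 (κ : ℝ) : ℝ := max 0 ((3 - 3 * κ) / 2)

theorem g0_nonneg (κ : ℝ) : 0 ≤ g0 κ := le_max_left _ _

/-- A set of selected frequencies in the shell `i`. -/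
def InSh (D : Set K3) (i : ℕ) (A : Finset K3) : Prop := ∀ k ∈ A, k ∈ D ∧ k ≠ 0 ∧ sh k = i

theorem InSh.sub {D : Set K3} {i J : ℕ} {A : Finset K3} (h : InSh D i A) (hi : i ≤ J) :
    A ⊆ Bn (2 ^ (J + 1)) := fun k hk => mem_Bn_of_sh (by rw [(h k hk).2.2]; exact hi)

theorem harm_le {J : ℕ} {A : Finset K3} (h : A ⊆ Bn (2 ^ (J + 1))) :
    (harmonic A.card : ℝ) ≤ 10 * (J + 1) := by
  have h1 : (harmonic A.card : ℝ) ≤ harmonic (Bn (2 ^ (J + 1))).card :=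
    harmonic_mono' (Finset.card_le_card h)
  have h2 := harmonic_le_one_add_log (Bn (2 ^ (J + 1))).card
  have h3 := log_card_le J
  have h4 : (0 : ℝ) ≤ J := Nat.cast_nonneg J
  linarith

section

variable {D : Set K3} {κ K : ℝ}

theorem hits_le (h : SD D κ K) {i₃ J : ℕ} (hi : i₃ ≤ J) {A B C : Finset K3}
    (hA : A ⊆ Bn (2 ^ (J + 1))) (hB : B ⊆ Bn (2 ^ (J + 1))) (hC : InSh D i₃ C)
    {S S' : Finset K3} (hS : S ⊆ A) (hS' : S' ⊆ B) :
    (hits C S S' : ℝ) ≤ (K * ((2 : ℝ) ^ i₃) ^ (-κ)) * (S.card * S'.card)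
      + (K * (J + 1)) * (S.card + S'.card) := by
  classical
  have h1 := h J i₃ (by omega) S S' (hS.trans hA) (hS'.trans hB)
  have h2 : (hits C S S' : ℝ) ≤ (((Rs i₃ S S').filter fun k => k ∈ D).card : ℝ) := by
    have : hits C S S' ≤ ((Rs i₃ S S').filter fun k => k ∈ D).card := by
      unfold hits
      refine Finset.card_le_card fun r hr => ?_
      rw [Finset.mem_filter] at hr
      obtain ⟨hrC, p, hp, hq⟩ := hr
      have h3 := hC r hrC
      rw [Finset.mem_filter, mem_Rs]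
      exact ⟨⟨⟨p, hp, _, hq, by abel⟩, h3.2.1, h3.2.2⟩, h3.1⟩
    exact_mod_cast this
  refine h2.trans (h1.trans (le_of_eq ?_))
  ring

/-- The factor. -/
noncomputable def Fc (κ K : ℝ) : ℝ := 40 * (K * 2 ^ κ * (K + 1)) + 40 * (K + 1)

theorem Fc_nonneg (hK : 0 ≤ K) : 0 ≤ Fc κ K := by unfold Fc; positivity

/-- The bound, if the third set is in one of the top shells and not the smallest. -/
theorem shell_third (hK : 0 ≤ K) (hκ : 0 ≤ κ) (hκ3 : κ ≤ 3) (h : SD D κ K) (h' : CD D κ K)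
    {i₁ i₂ i₃ J : ℕ} (h1 : i₁ ≤ J) (h2 : i₂ ≤ J) (h3 : i₃ ≤ J) (h4 : J ≤ i₃ + 1)
    {A B C : Finset K3} (hA : InSh D i₁ A) (hB : InSh D i₂ B) (hC : InSh D i₃ C)
    (hABC : min A.card B.card ≤ C.card) :
    (T3 A B C : ℝ) ≤ Fc κ K * (J + 1) ^ 2 * ((2 : ℝ) ^ J) ^ g0 κ
      * Real.sqrt (A.card * B.card * C.card) := by
  have ha : (0 : ℝ) ≤ A.card := Nat.cast_nonneg _
  have hb : (0 : ℝ) ≤ B.card := Nat.cast_nonneg _
  have hc : (0 : ℝ) ≤ C.card := Nat.cast_nonneg _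
  have hJ : (0 : ℝ) ≤ J := Nat.cast_nonneg J
  have hx : (0 : ℝ) < (2 : ℝ) ^ J := by positivity
  have hx1 : (1 : ℝ) ≤ (2 : ℝ) ^ J := one_le_pow₀ (by norm_num)
  have hg1 : (1 : ℝ) ≤ ((2 : ℝ) ^ J) ^ g0 κ := Real.one_le_rpow hx1 (g0_nonneg κ)
  set W := Real.sqrt (A.card * B.card * C.card) with hW
  have hW0 : 0 ≤ W := Real.sqrt_nonneg _
  set α : ℝ := K * ((2 : ℝ) ^ i₃) ^ (-κ) with hα
  have hα0 : 0 ≤ α := mul_nonneg hK (Real.rpow_nonneg (by positivity) _)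
  have hβ1 : (1 : ℝ) ≤ (K + 1) * (J + 1) := by nlinarith
  have e1 := triads_le (A := A) (B := B) (C := C) (α := α) (β := (K + 1) * (J + 1)) hα0 hβ1
    (fun S hS S' hS' => by
      refine (hits_le h h3 (hA.sub h1) (hB.sub h2) hC hS hS').trans ?_
      have : (0 : ℝ) ≤ (S.card : ℝ) + S'.card := by positivity
      have e : K * ((J : ℝ) + 1) ≤ (K + 1) * (J + 1) := by nlinarith
      have := mul_le_mul_of_nonneg_right e this
      linarith) hABC
  have e2 := harm_le (hA.sub h1)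
  have hM : ∀ {i : ℕ} {R : Finset K3}, i ≤ J → InSh D i R →
      (R.card : ℝ) ≤ K * (((2 : ℝ) ^ J) ^ (3 - κ) + (J + 1)) := by
    intro i R hi hR
    refine (h' i R fun k hk => ⟨(hR k hk).1, (hR k hk).2.2⟩).trans
      (mul_le_mul_of_nonneg_left ?_ hK)
    have f1 : ((2 : ℝ) ^ i) ^ (3 - κ) ≤ ((2 : ℝ) ^ J) ^ (3 - κ) :=
      Real.rpow_le_rpow (by positivity) (pow_le_pow_right₀ (by norm_num) hi) (by linarith)
    have f2 : (i : ℝ) ≤ J := by exact_mod_cast hi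
    linarith
  set M : ℝ := K * (((2 : ℝ) ^ J) ^ (3 - κ) + (J + 1)) with hMd
  have hM0 : 0 ≤ M := by positivity
  have e3 : (A.card : ℝ) * B.card ≤ Real.sqrt M * W := by
    have f1 : (A.card : ℝ) * B.card ≤ M * C.card := by
      rcases le_total A.card B.card with h5 | h5
      · have f2 : (A.card : ℝ) ≤ C.card := by
          rw [min_eq_left h5] at hABC
          exact_mod_cast hABC
        have f3 := hM h2 hB
        calc (A.card : ℝ) * B.card ≤ C.card * M := mul_le_mul f2 f3 hb hc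
          _ = _ := mul_comm _ _
      · have f2 : (B.card : ℝ) ≤ C.card := by
          rw [min_eq_right h5] at hABC
          exact_mod_cast hABC
        exact mul_le_mul (hM h1 hA) f2 hb hM0
    have f4 : ((A.card : ℝ) * B.card) ^ 2 ≤ M * (A.card * B.card * C.card) := by
      have := mul_le_mul_of_nonneg_right f1 (by positivity : (0 : ℝ) ≤ (A.card : ℝ) * B.card)
      nlinarith
    rw [hW, ← Real.sqrt_mul hM0]
    exact Real.le_sqrt_of_sq_le f4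
  have e4 : α * Real.sqrt M ≤ K * 2 ^ κ * (K + 1) * (2 * ((J + 1) * ((2 : ℝ) ^ J) ^ g0 κ)) := by
    have f1 : ((2 : ℝ) ^ i₃) ^ (-κ) ≤ 2 ^ κ * ((2 : ℝ) ^ J) ^ (-κ) := by
      have g1 : (2 : ℝ) ^ J ≤ 2 * 2 ^ i₃ := by
        calc (2 : ℝ) ^ J ≤ 2 ^ (i₃ + 1) := pow_le_pow_right₀ (by norm_num) h4
          _ = 2 * 2 ^ i₃ := by ring
      have g2 : (2 * (2 : ℝ) ^ i₃) ^ (-κ) ≤ ((2 : ℝ) ^ J) ^ (-κ) :=
        Real.rpow_le_rpow_of_nonpos hx g1 (by linarith)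
      rw [Real.mul_rpow (by norm_num) (by positivity)] at g2
      have g3 : (2 : ℝ) ^ κ * 2 ^ (-κ) = 1 := by
        rw [← Real.rpow_add (by norm_num)]
        simp
      calc ((2 : ℝ) ^ i₃) ^ (-κ) = 2 ^ κ * (2 ^ (-κ) * ((2 : ℝ) ^ i₃) ^ (-κ)) := by
            rw [← mul_assoc, g3, one_mul]
        _ ≤ _ := mul_le_mul_of_nonneg_left g2 (Real.rpow_nonneg (by norm_num) _)
    have f2 : Real.sqrt M ≤ (K + 1) * (((2 : ℝ) ^ J) ^ ((3 - κ) / 2) + (J + 1)) := by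
      rw [Real.sqrt_le_left (by positivity)]
      have g1 : (((2 : ℝ) ^ J) ^ ((3 - κ) / 2)) ^ 2 = ((2 : ℝ) ^ J) ^ (3 - κ) := by
        rw [← Real.rpow_natCast, ← Real.rpow_mul hx.le]
        congr 1
        push_cast
        ring
      have g2 : (0 : ℝ) ≤ ((2 : ℝ) ^ J) ^ ((3 - κ) / 2) := Real.rpow_nonneg hx.le _
      rw [hMd, ← g1]
      set y := ((2 : ℝ) ^ J) ^ ((3 - κ) / 2)
      have g3 : K ≤ (K + 1) ^ 2 := by nlinarith
      have g4 : y ^ 2 + (J + 1) ≤ (y + (J + 1)) ^ 2 := by nlinarith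
      calc K * (y ^ 2 + (J + 1)) ≤ (K + 1) ^ 2 * (y + (J + 1)) ^ 2 :=
            mul_le_mul g3 g4 (by positivity) (by positivity)
        _ = _ := by ring
    have f3 : ((2 : ℝ) ^ J) ^ (-κ) * (((2 : ℝ) ^ J) ^ ((3 - κ) / 2) + (J + 1))
        ≤ 2 * ((J + 1) * ((2 : ℝ) ^ J) ^ g0 κ) := by
      have g1 : ((2 : ℝ) ^ J) ^ (-κ) * ((2 : ℝ) ^ J) ^ ((3 - κ) / 2) ≤ ((2 : ℝ) ^ J) ^ g0 κ := by
        rw [← Real.rpow_add hx]
        refine Real.rpow_le_rpow_of_exponent_le hx1 (le_trans (le_of_eq ?_) (le_max_right _ _))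
        ring
      have g2 : ((2 : ℝ) ^ J) ^ (-κ) ≤ 1 := Real.rpow_le_one_of_one_le_of_nonpos hx1 (by linarith)
      have g3 : ((2 : ℝ) ^ J) ^ (-κ) * ((J : ℝ) + 1) ≤ 1 * (J + 1) :=
        mul_le_mul_of_nonneg_right g2 (by positivity)
      rw [mul_add]
      nlinarith
    calc α * Real.sqrt M
        ≤ K * (2 ^ κ * ((2 : ℝ) ^ J) ^ (-κ)) * ((K + 1) * (((2 : ℝ) ^ J) ^ ((3 - κ) / 2) + (J + 1))) := by
          exact mul_le_mul (mul_le_mul_of_nonneg_left f1 hK) f2 (Real.sqrt_nonneg _) (by positivity)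
      _ = K * 2 ^ κ * (K + 1) * (((2 : ℝ) ^ J) ^ (-κ) * (((2 : ℝ) ^ J) ^ ((3 - κ) / 2) + (J + 1))) := by
          ring
      _ ≤ _ := mul_le_mul_of_nonneg_left f3 (by positivity)
  set g := ((2 : ℝ) ^ J) ^ g0 κ with hg
  have e5 : 2 * α * (A.card * B.card) ≤ 2 * (K * 2 ^ κ * (K + 1) * (2 * ((J + 1) * g))) * W := by
    calc 2 * α * (A.card * B.card) ≤ 2 * α * (Real.sqrt M * W) :=
          mul_le_mul_of_nonneg_left e3 (by positivity)
      _ = 2 * (α * Real.sqrt M) * W := by ring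
      _ ≤ _ := by
          refine mul_le_mul_of_nonneg_right ?_ hW0
          linarith
  have e6 : 4 * ((K + 1) * (J + 1)) * W ≤ 4 * ((K + 1) * (J + 1)) * g * W := by
    refine mul_le_mul_of_nonneg_right ?_ hW0
    have : (0 : ℝ) ≤ 4 * ((K + 1) * (J + 1)) := by positivity
    nlinarith
  have e7 : 2 * α * (A.card * B.card) + 4 * ((K + 1) * (J + 1)) * W
      ≤ (4 * (K * 2 ^ κ * (K + 1)) + 4 * (K + 1)) * ((J + 1) * g) * W := by
    refine (add_le_add e5 e6).trans (le_of_eq ?_)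
    ring
  have e8 : 0 ≤ 2 * α * (A.card * B.card) + 4 * ((K + 1) * (J + 1)) * W := by positivity
  calc (T3 A B C : ℝ) ≤ (harmonic A.card : ℝ)
        * (2 * α * (A.card * B.card) + 4 * ((K + 1) * (J + 1)) * W) := e1
    _ ≤ 10 * (J + 1) * ((4 * (K * 2 ^ κ * (K + 1)) + 4 * (K + 1)) * ((J + 1) * g) * W) :=
        mul_le_mul e2 e7 e8 (by positivity)
    _ = _ := by
        unfold Fc
        ring

/-- The bound for three shells. -/
theorem shell_flat (hK : 0 ≤ K) (hκ : 0 ≤ κ) (hκ3 : κ ≤ 3) (h : SD D κ K) (h' : CD D κ K)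
    {i₁ i₂ i₃ J : ℕ} (h1 : i₁ ≤ J) (h2 : i₂ ≤ J) (h3 : i₃ ≤ J) (hJ : J ≤ max i₁ (max i₂ i₃))
    {A B C : Finset K3} (hA : InSh D i₁ A) (hB : InSh D i₂ B) (hC : InSh D i₃ C) :
    (T3 A B C : ℝ) ≤ Fc κ K * (J + 1) ^ 2 * ((2 : ℝ) ^ J) ^ g0 κ
      * Real.sqrt (A.card * B.card * C.card) := by
  by_cases h0 : T3 A B C = 0
  · rw [h0, Nat.cast_zero]
    have := Fc_nonneg (κ := κ) hK
    positivity
  obtain ⟨p, hp, q, hq, r, hr, hpqr⟩ := exists_of_T3 h0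
  have hp' := hA p hp
  have hq' := hB q hq
  have hr' := hC r hr
  have t1 := sh_tri (q := q) (r := r) hp'.2.1 hpqr
  have t2 := sh_tri (q := p) (r := r) hq'.2.1 (by rw [← hpqr]; abel)
  have t3 := sh_tri (q := p) (r := q) hr'.2.1 (by rw [← hpqr]; abel)
  rw [hp'.2.2, hq'.2.2, hr'.2.2] at t1
  rw [hq'.2.2, hp'.2.2, hr'.2.2] at t2
  rw [hr'.2.2, hp'.2.2, hq'.2.2] at t3
  have key : ∀ {x y z : ℕ} {X Y Z : Finset K3}, x ≤ J → y ≤ J → z ≤ J → J ≤ y + 1 → J ≤ z + 1 →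
      InSh D x X → InSh D y Y → InSh D z Z → (T3 X Y Z : ℝ) ≤ Fc κ K * (J + 1) ^ 2
        * ((2 : ℝ) ^ J) ^ g0 κ * Real.sqrt (X.card * Y.card * Z.card) := by
    intro x y z X Y Z hx hy hz hy1 hz1 hX hY hZ
    rcases le_total Y.card Z.card with h5 | h5
    · exact shell_third hK hκ hκ3 h h' hx hy hz hz1 hX hY hZ ((min_le_right _ _).trans h5)
    · rw [T3_swap']
      have := shell_third hK hκ hκ3 h h' hx hz hy hy1 hX hZ hY ((min_le_right _ _).trans h5)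
      refine this.trans (le_of_eq ?_)
      rw [mul_right_comm (X.card : ℝ)]
  by_cases c1 : J ≤ i₂ + 1 ∧ J ≤ i₃ + 1
  · exact key h1 h2 h3 c1.1 c1.2 hA hB hC
  by_cases c2 : J ≤ i₁ + 1 ∧ J ≤ i₃ + 1
  · rw [T3_symm]
    refine (key h2 h1 h3 c2.1 c2.2 hB hA hC).trans (le_of_eq ?_)
    rw [mul_comm (B.card : ℝ)]
  · rw [T3_swap]
    refine (key h3 h2 h1 (by omega) (by omega) hC hB hA).trans (le_of_eq ?_)
    congr 2
    ring

end

end Pool.Agent.Run7.h507.FD
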