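import Pool.Agent.Run7.h507.FD.Exi2

/-!
The energy equality in integrated form.
-/

set_option autoImplicit false

open MeasureTheory Set Filter Topology
open scoped ENNReal

namespace Pool.Agent.Run7.h507.FD

open RT

/-- The energy equality. -/
theorem energy_eq {η : K3 → K3 → ℝ} (hη : IsWeight η) {ν α : ℝ} (hν : 0 ≤ ν) (hα : 0 ≤ α)
    {L : ℝ → Cf} (hL : Sol η ν α (Ioi 0) L)
    (h0 : Tendsto (fun t => ∑' k, nsq (L t k)) (𝓝[>] 0) (𝓝 (∑' k, nsq (L 0 k)))) {s t : ℝ}
    (hs : 0 ≤ s) (hst : s ≤ t) :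
    IntervalIntegrable (fun τ => ∑' k, lam ν α k * nsq (L τ k)) volume s t ∧
      ∑' k, nsq (L t k) + 2 * ∫ τ in s..t, ∑' k, lam ν α k * nsq (L τ k)
        = ∑' k, nsq (L s k) := by
  have hder : ∀ x, 0 < x → HasDerivAt (fun s => -∑' k, nsq (L s k))
      (2 * ∑' k, lam ν α k * nsq (L x k)) x := by
    intro x hx
    have h1 := (energy_deriv hη hν hα hL hx).neg
    rw [neg_neg] at h1
    exact h1
  have hcont : ContinuousOn (fun s => -∑' k, nsq (L s k)) (Icc s t) := by
    intro x hx
    rcases eq_or_lt_of_le (hs.trans hx.1) with h | h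
    · rw [← h]
      have h1 : ContinuousWithinAt (fun s => -∑' k, nsq (L s k)) (Ioi 0) 0 := h0.neg
      refine (continuousWithinAt_Ioi_iff_Ici.1 h1).mono fun y hy => ?_
      exact hs.trans hy.1
    · exact (hder x h).continuousAt.continuousWithinAt
  have hd : ∀ x ∈ Ioo s t, HasDerivAt (fun s => -∑' k, nsq (L s k))
      (2 * ∑' k, lam ν α k * nsq (L x k)) x := fun x hx => hder x (hs.trans_lt hx.1)
  have hi : IntervalIntegrable (fun x => 2 * ∑' k, lam ν α k * nsq (L x k)) volume s t := by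
    rw [intervalIntegrable_iff_integrableOn_Ioc_of_le hst]
    refine intervalIntegral.integrableOn_deriv_of_nonneg hcont hd fun x _ => ?_
    exact mul_nonneg zero_le_two (tsum_nonneg fun k => mul_nonneg (lam_nonneg hν α k) (nsq_nonneg _))
  have h1 := intervalIntegral.integral_eq_sub_of_hasDerivAt_of_le hst hcont hd hi
  rw [intervalIntegral.integral_const_mul] at h1
  refine ⟨?_, by linarith⟩
  have h2 := hi.const_mul (1 / 2)
  refine h2.congr fun x _ => ?_
  show 1 / 2 * (2 * ∑' k, lam ν α k * nsq (L x k)) = _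
  ring

end Pool.Agent.Run7.h507.FD
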