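import Pool.Agent.Run7.h507.FD.Weak3

/-!
Existence and uniqueness of weak solutions with selected frequencies.
-/

set_option autoImplicit false

open MeasureTheory Set Filter Topology
open scoped ENNReal

namespace Pool.Agent.Run7.h507.FD

open RT

/-- Weak solutions on `[0, T]`. -/
structure WI (D : Set K3) (ν α T : ℝ) (c : Cf) (a : ℝ → Cf) : Prop where
  herm : ∀ t ∈ Icc 0 T, Herm (a t)
  div : ∀ t ∈ Icc 0 T, Dv (a t)
  cont : ∀ k, ContinuousOn (fun t => a t k) (Icc 0 T)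
  bdd : ∃ E : ℝ, ∀ t ∈ Icc 0 T, ∀ F : Finset K3, ∑ k ∈ F, nsq (a t k) ≤ E
  diss : ∃ E : ℝ, ∀ F : Finset K3, ∫ s in (0 : ℝ)..T, ∑ k ∈ F, RT.sq k ^ α * nsq (a s k) ≤ E
  eqn : ∀ t ∈ Icc 0 T, ∀ k,
    a t k = c k - ∫ s in (0 : ℝ)..t, (lam ν α k • a s k + nl (dw D) (a s) (a s) k)

/-- The projection to `[0, T]`. -/
noncomputable def cl (T t : ℝ) : ℝ := max 0 (min t T)

theorem cl_mem {T : ℝ} (hT : 0 ≤ T) (t : ℝ) : cl T t ∈ Icc 0 T :=
  ⟨le_max_left _ _, max_le hT (min_le_right _ _)⟩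

theorem cl_of {T t : ℝ} (h : t ∈ Icc 0 T) : cl T t = t := by
  unfold cl
  rw [min_eq_left h.2, max_eq_right h.1]

theorem cl_cont (T : ℝ) : Continuous (cl T) := continuous_const.max (continuous_id.min continuous_const)

theorem cont_cl {T : ℝ} (hT : 0 ≤ T) {f : ℝ → C3} (hf : ContinuousOn f (Icc 0 T)) :
    Continuous fun t => f (cl T t) :=
  hf.comp_continuous (cl_cont T) (cl_mem hT)

section

variable {D : Set K3} {ν α β C : ℝ}

theorem WI.toWR {T : ℝ} (hT : 0 ≤ T) {c : Cf} {a : ℝ → Cf} (h : WI D ν α T c a) :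
    WR D ν α T c fun t => a (cl T t) := by
  obtain ⟨E, hE⟩ := h.bdd
  obtain ⟨E', hE'⟩ := h.diss
  refine ⟨fun t => h.herm _ (cl_mem hT t), fun t => h.div _ (cl_mem hT t),
    fun k => cont_cl hT (h.cont k), ⟨E, fun t F => hE _ (cl_mem hT t) F⟩, ⟨E', fun F => ?_⟩, ?_⟩
  · refine le_trans (le_of_eq ?_) (hE' F)
    refine intervalIntegral.integral_congr fun s hs => ?_
    rw [uIcc_of_le hT] at hs
    simp only [cl_of hs]
  · intro t ht k
    simp only [cl_of ht]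
    rw [h.eqn t ht k]
    congr 1
    refine intervalIntegral.integral_congr fun s hs => ?_
    rw [uIcc_of_le ht.1] at hs
    have hs' : s ∈ Icc 0 T := ⟨hs.1, hs.2.trans ht.2⟩
    simp only [cl_of hs']

theorem WI.uniq (hneg : ∀ k, -k ∈ D ↔ k ∈ D) (hC : 0 ≤ C) (hE : Est D β C) (hβ0 : 0 ≤ β)
    (hα : 0 < α) (hβα : β < 2 * α) (hν : 0 < ν) {T : ℝ} {c : Cf} {a b : ℝ → Cf}
    (ha : WI D ν α T c a) (hb : WI D ν α T c b) : ∀ t ∈ Icc 0 T, a t = b t := by
  intro t ht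
  have hT : 0 ≤ T := ht.1.trans ht.2
  have h := WR.uniq hneg hC hE hβ0 hα hβα hν hT (ha.toWR hT) (hb.toWR hT) t ht
  simp only [cl_of ht] at h
  exact h

/-- The integral form of the equation. -/
theorem eqn_of (hneg : ∀ k, -k ∈ D ↔ k ∈ D) {T E : ℝ} {a : ℝ → Cf}
    (hc : ∀ k, ContinuousOn (fun t => a t k) (Icc 0 T))
    (hE : ∀ t ∈ Icc 0 T, ∀ F : Finset K3, ∑ k ∈ F, nsq (a t k) ≤ E)
    (hd : ∀ t ∈ Ioo 0 T, ∀ k, HasDerivAt (fun s => a s k)
      (-((ν * RT.sq k ^ α : ℝ) • a t k) - nl (dw D) (a t) (a t) k) t) :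
    ∀ t ∈ Icc 0 T, ∀ k,
      a t k = a 0 k - ∫ s in (0 : ℝ)..t, (lam ν α k • a s k + nl (dw D) (a s) (a s) k) := by
  intro t ht k
  have hT : 0 ≤ T := ht.1.trans ht.2
  have hcl : ∀ k, Continuous fun s => a (cl T s) k := fun k => cont_cl hT (hc k)
  have hs0 : ∀ s, Sm 0 (a (cl T s)) := fun s => (sm0_of_bdd (hE _ (cl_mem hT s))).1
  have i1 : IntervalIntegrable (fun s => nl (dw D) (a (cl T s)) (a (cl T s)) k) volume 0 t :=
    ii_of_bdd (meas_nl hcl hcl hs0 hs0 k) fun s => norm_nl_le0 (hs0 s) (hs0 s)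
      (sm0_of_bdd (hE _ (cl_mem hT s))).2 (sm0_of_bdd (hE _ (cl_mem hT s))).2 k
  have i2 : IntervalIntegrable (fun s => lam ν α k • a (cl T s) k) volume 0 t := by
    have hc : Continuous fun s => lam ν α k • a (cl T s) k := (hcl k).const_smul (lam ν α k)
    exact hc.intervalIntegrable _ _
  have hIcc : ∀ s ∈ uIcc 0 t, s ∈ Icc 0 T := by
    intro s hs
    rw [uIcc_of_le ht.1] at hs
    exact ⟨hs.1, hs.2.trans ht.2⟩
  have i3 : IntervalIntegrable (fun s => lam ν α k • a s k + nl (dw D) (a s) (a s) k)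
      volume 0 t := by
    refine (i2.add i1).congr fun s hs => ?_
    have := hIcc s (uIoc_subset_uIcc hs)
    simp only [cl_of this]
  have i4 : IntervalIntegrable (fun s => -((ν * RT.sq k ^ α : ℝ) • a s k)
      - nl (dw D) (a s) (a s) k) volume 0 t := by
    refine i3.neg.congr fun s _ => ?_
    show -(lam ν α k • a s k + nl (dw D) (a s) (a s) k) = _
    unfold lam
    abel
  have h1 := intervalIntegral.integral_eq_sub_of_hasDerivAt_of_le ht.1
    ((hc k).mono (Icc_subset_Icc le_rfl ht.2))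
    (fun s hs => hd s ⟨hs.1, hs.2.trans_le ht.2⟩ k) i4
  have h2 : ∫ s in (0 : ℝ)..t, (-((ν * RT.sq k ^ α : ℝ) • a s k) - nl (dw D) (a s) (a s) k)
      = -∫ s in (0 : ℝ)..t, (lam ν α k • a s k + nl (dw D) (a s) (a s) k) := by
    rw [← intervalIntegral.integral_neg]
    refine intervalIntegral.integral_congr fun s _ => ?_
    show _ = -(lam ν α k • a s k + nl (dw D) (a s) (a s) k)
    unfold lam
    abel
  rw [h2] at h1
  have h3 : a t k = a 0 k + (a t k - a 0 k) := by abel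
  rw [h3, ← h1, sub_eq_add_neg]

end

end Pool.Agent.Run7.h507.FD
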