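import Pool.Agent.Run7.h507.FD.Exi

/-!
Existence of weak solutions with selected frequencies, smooth for positive times.
-/

set_option autoImplicit false

open MeasureTheory Set Filter Topology
open scoped ENNReal

namespace Pool.Agent.Run7.h507.FD

open RT

section

variable {D : Set K3} {ν α β C : ℝ}

theorem summable_lam {η : K3 → K3 → ℝ} (hν : 0 ≤ ν) (hα : 0 ≤ α) {a : ℝ → Cf}
    (ha : Sol η ν α (Ioi 0) a) {t : ℝ} (ht : 0 < t) :
    Summable fun k => lam ν α k * nsq (a t k) := by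
  obtain ⟨n, hn⟩ := exists_nat_ge (2 * α)
  have ht' : t ∈ Ioi (0 : ℝ) := ht
  obtain ⟨A3, hA3⟩ := ha.bound ht' ht' (n + 3)
  have hA3' := hA3 t ⟨le_rfl, le_rfl⟩
  refine Summable.of_nonneg_of_le (fun k => mul_nonneg (lam_nonneg hν α k) (nsq_nonneg _))
    (fun k => ?_) (summable_jb.mul_left (3 * ν * A3 ^ 2))
  have h0 := jb_pos k
  rw [← div_eq_mul_inv, le_div_iff₀ (by positivity)]
  have e1 : lam ν α k ≤ ν * jb k ^ n := mul_le_mul_of_nonneg_left (sq_rpow_le hα hn k) hν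
  calc lam ν α k * nsq (a t k) * jb k ^ 6
      ≤ ν * jb k ^ n * (3 * ‖a t k‖ ^ 2) * jb k ^ 6 := by
        refine mul_le_mul_of_nonneg_right ?_ (by positivity)
        exact mul_le_mul e1 (nsq_le _) (nsq_nonneg _) (by positivity)
    _ ≤ ν * jb k ^ (2 * n) * (3 * ‖a t k‖ ^ 2) * jb k ^ 6 := by
        have : jb k ^ n ≤ jb k ^ (2 * n) := pow_le_pow_right₀ (one_le_jb k) (by omega)
        gcongr
    _ = 3 * ν * (jb k ^ (n + 3) * ‖a t k‖) ^ 2 := by ring
    _ ≤ 3 * ν * A3 ^ 2 := by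
        have := pow_le_pow_left₀ (by positivity) (hA3' k) 2
        gcongr

/-- The dissipation of a smooth solution. -/
theorem diss_of (hη : IsWeight (dw D)) (hν : 0 < ν) (hα : 0 ≤ α) {T E : ℝ} (hT : 0 < T)
    {L : ℝ → Cf} (hL : Sol (dw D) ν α (Ioi 0) L)
    (hE : ∀ t ∈ Icc 0 T, ∀ F : Finset K3, ∑ k ∈ F, nsq (L t k) ≤ E)
    (hc : ∀ k, ContinuousOn (fun t => L t k) (Icc 0 T)) (F : Finset K3) :
    ∫ s in (0 : ℝ)..T, ∑ k ∈ F, RT.sq k ^ α * nsq (L s k) ≤ E / (2 * ν) := by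
  set g : ℝ → ℝ := fun s => ∑ k ∈ F, RT.sq k ^ α * nsq (L s k) with hg
  have hgc : ContinuousOn g (Icc 0 T) := continuousOn_finsetSum _ fun k _ =>
    continuousOn_const.mul (nsq_continuous.comp_continuousOn (hc k))
  have key : ∀ ε ∈ Ioo 0 T, ∫ s in ε..T, g s ≤ E / (2 * ν) := by
    intro ε hε
    have hsub : Icc ε T ⊆ Icc 0 T := Icc_subset_Icc hε.1.le le_rfl
    have hd : ∀ x ∈ Icc ε T, HasDerivAt (fun s => -∑' k, nsq (L s k))
        (2 * ∑' k, lam ν α k * nsq (L x k)) x := by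
      intro x hx
      have h1 := (energy_deriv hη hν.le hα hL (hε.1.trans_le hx.1)).neg
      rw [neg_neg] at h1
      exact h1
    have h1 := intervalIntegral.integral_le_sub_of_hasDeriv_right_of_le (a := ε) (b := T)
      (g := fun s => -∑' k, nsq (L s k)) (g' := fun x => 2 * ∑' k, lam ν α k * nsq (L x k))
      (φ := fun s => 2 * ν * g s) hε.2.le
      (fun x hx => (hd x hx).continuousAt.continuousWithinAt)
      (fun x hx => (hd x ⟨hx.1.le, hx.2.le⟩).hasDerivWithinAt)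
      ((continuousOn_const.mul (hgc.mono hsub)).integrableOn_Icc)
      (fun x hx => by
        have h0x : 0 < x := hε.1.trans hx.1
        have h2 := (summable_lam hν.le hα hL h0x).sum_le_tsum F
          fun k _ => mul_nonneg (lam_nonneg hν.le α k) (nsq_nonneg _)
        have h3 : 2 * ν * g x = 2 * ∑ k ∈ F, lam ν α k * nsq (L x k) := by
          rw [hg, mul_assoc, Finset.mul_sum]
          congr 1
          refine Finset.sum_congr rfl fun k _ => ?_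
          unfold lam
          ring
        show 2 * ν * g x ≤ 2 * ∑' k, lam ν α k * nsq (L x k)
        rw [h3]
        linarith)
    rw [intervalIntegral.integral_const_mul] at h1
    have h2 : ∑' k, nsq (L ε k) ≤ E :=
      (summable_nsq_of_bdd (hE ε ⟨hε.1.le, hε.2.le⟩)).tsum_le_of_sum_le (hE ε ⟨hε.1.le, hε.2.le⟩)
    have h3 : 0 ≤ ∑' k, nsq (L T k) := tsum_nonneg fun _ => nsq_nonneg _
    rw [le_div_iff₀ (by positivity)]
    linarith
  obtain ⟨M, hM⟩ := isCompact_Icc.exists_bound_of_continuousOn hgc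
  have hM0 : 0 ≤ M := (norm_nonneg _).trans (hM 0 ⟨le_rfl, hT.le⟩)
  refine le_of_forall_pos_le_add fun δ hδ => ?_
  set ε := min (T / 2) (δ / (M + 1)) with hε
  have hε0 : 0 < ε := lt_min (by linarith) (by positivity)
  have hεT : ε < T := (min_le_left _ _).trans_lt (by linarith)
  have hεδ : M * ε ≤ δ := by
    have h1 : ε ≤ δ / (M + 1) := min_le_right _ _
    rw [le_div_iff₀ (by linarith)] at h1
    nlinarith
  have i1 : IntervalIntegrable g volume 0 ε :=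
    (hgc.mono (Icc_subset_Icc le_rfl hεT.le)).intervalIntegrable_of_Icc hε0.le
  have i2 : IntervalIntegrable g volume ε T :=
    (hgc.mono (Icc_subset_Icc hε0.le le_rfl)).intervalIntegrable_of_Icc hεT.le
  have h1 : ∫ s in (0 : ℝ)..ε, g s ≤ M * ε := by
    have h2 := intervalIntegral.norm_integral_le_of_norm_le_const (a := 0) (b := ε) (f := g)
      (C := M) fun x hx => by
        rw [uIoc_of_le hε0.le] at hx
        exact hM x ⟨hx.1.le, hx.2.trans hεT.le⟩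
    rw [sub_zero, abs_of_pos hε0] at h2
    exact (le_abs_self _).trans h2
  have h2 := intervalIntegral.integral_add_adjacent_intervals i1 i2
  have h3 := key ε ⟨hε0, hεT⟩
  rw [← h2]
  linarith

/-- Solutions which are smooth for positive times are weak solutions. -/
theorem wi_of (hneg : ∀ k, -k ∈ D ↔ k ∈ D) (hν : 0 < ν) (hα : 0 ≤ α)
    {T E : ℝ} {c : Cf} {L : ℝ → Cf} (h0 : L 0 = c)
    (hh : Herm c) (hd : Dv c) (hL : Sol (dw D) ν α (Ioi 0) L)
    (hE : ∀ t ∈ Icc 0 T, ∀ F : Finset K3, ∑ k ∈ F, nsq (L t k) ≤ E)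
    (hk : ∀ k, Tendsto (fun t => L t k) (𝓝[>] 0) (𝓝 (c k))) : WI D ν α T c L := by
  have hder : ∀ t, 0 < t → ∀ k, HasDerivAt (fun s => L s k)
      (-((ν * RT.sq k ^ α : ℝ) • L t k) - nl (dw D) (L t) (L t) k) t :=
    fun t ht k => (hL.der t ht k).hasDerivAt (Ioi_mem_nhds ht)
  have hcont : ∀ k, ContinuousOn (fun t => L t k) (Icc 0 T) := by
    intro k t ht
    rcases eq_or_lt_of_le ht.1 with h | h
    · rw [← h]
      have h1 : ContinuousWithinAt (fun t => L t k) (Ioi 0) 0 := by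
        show Tendsto (fun t => L t k) (𝓝[>] 0) (𝓝 (L 0 k))
        rw [h0]
        exact hk k
      exact (continuousWithinAt_Ioi_iff_Ici.1 h1).mono Icc_subset_Ici_self
    · exact (hder t h k).continuousAt.continuousWithinAt
  refine ⟨fun t ht => ?_, fun t ht => ?_, hcont, ⟨E, hE⟩, ?_, ?_⟩
  · rcases eq_or_lt_of_le ht.1 with h | h
    · rw [← h, h0]; exact hh
    · exact hL.herm t h
  · rcases eq_or_lt_of_le ht.1 with h | h
    · rw [← h, h0]; exact hd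
    · exact hL.div t h
  · rcases lt_or_ge 0 T with hT | hT
    · exact ⟨E / (2 * ν), fun F => diss_of (isWeight_dw hneg) hν hα hT hL hE hcont F⟩
    · refine ⟨0, fun F => ?_⟩
      rw [intervalIntegral.integral_symm, neg_nonpos]
      exact intervalIntegral.integral_nonneg hT fun s _ => Finset.sum_nonneg fun k _ =>
        mul_nonneg (Real.rpow_nonneg (sq_nonneg' k) _) (nsq_nonneg _)
  · intro t ht k
    have h1 := eqn_of hneg hcont hE (fun s hs k => hder s hs.1 k) t ht k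
    rw [h0] at h1
    exact h1

theorem nsq_cD_le (a : Cf) (k : K3) : nsq (cD D a k) ≤ nsq (a k) := by
  by_cases hk : k ∈ D
  · rw [cD_of hk]
  · rw [cD_of_not hk]
    have : nsq (0 : C3) = 0 := nsq_zero
    rw [this]
    exact nsq_nonneg _

/-- The energy is continuous at time zero. -/
theorem tendsto_energy {L : ℝ → Cf} {c : Cf} (hc : Summable fun k => nsq (c k))
    (hE : ∀ t, 0 ≤ t → ∀ F : Finset K3, ∑ k ∈ F, nsq (L t k) ≤ ∑' k, nsq (c k))
    (hk : ∀ k, Tendsto (fun t => L t k) (𝓝[>] 0) (𝓝 (c k))) :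
    Tendsto (fun t => ∑' k, nsq (L t k)) (𝓝[>] 0) (𝓝 (∑' k, nsq (c k))) := by
  set E := ∑' k, nsq (c k) with hEd
  rw [Metric.tendsto_nhds]
  intro ε hε
  obtain ⟨F, hF⟩ : ∃ F : Finset K3, E - ε / 2 < ∑ k ∈ F, nsq (c k) := by
    have h1 : Tendsto (fun F : Finset K3 => ∑ k ∈ F, nsq (c k)) atTop (𝓝 E) := hc.hasSum
    obtain ⟨F, hF⟩ := (h1.eventually (lt_mem_nhds (by linarith : E - ε / 2 < E))).exists
    exact ⟨F, hF⟩
  have h1 : Tendsto (fun t => ∑ k ∈ F, nsq (L t k)) (𝓝[>] 0) (𝓝 (∑ k ∈ F, nsq (c k))) :=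
    tendsto_finsetSum _ fun k _ => (nsq_continuous.tendsto _).comp (hk k)
  filter_upwards [h1.eventually (lt_mem_nhds (by linarith : ∑ k ∈ F, nsq (c k) - ε / 2
    < ∑ k ∈ F, nsq (c k))), self_mem_nhdsWithin] with t h3 ht
  have ht0 : 0 ≤ t := le_of_lt ht
  have hs := summable_nsq_of_bdd (hE t ht0)
  have h4 : ∑' k, nsq (L t k) ≤ E := hs.tsum_le_of_sum_le (hE t ht0)
  have h5 : ∑ k ∈ F, nsq (L t k) ≤ ∑' k, nsq (L t k) := hs.sum_le_tsum _ fun _ _ => nsq_nonneg _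
  rw [Real.dist_eq, abs_lt]
  constructor <;> linarith

variable {Ψ : K3 → ℝ}

/-- Existence for data in `L²`. -/
theorem exists_wi (hneg : ∀ k, -k ∈ D ↔ k ∈ D) (hν : 0 < ν) (hα : 0 ≤ α) (hΨ : ∀ k, 0 ≤ Ψ k)
    (hS : Sub (dw D) Ψ) (hA : Absb ν α Ψ) {c : Cf} (hh : Herm c) (hd : Dv c)
    (hc : Summable fun k => nsq (c k)) (hs : ∀ k ∉ D, c k = 0) :
    ∃ L : ℝ → Cf, (∀ t, ∀ k ∉ D, L t k = 0) ∧ Sol (dw D) ν α (Ioi 0) L ∧
      (∀ T, WI D ν α T c L) ∧ Tendsto (fun t => ∑' k, nsq (L t k - c k)) (𝓝[>] 0) (𝓝 0) ∧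
      L 0 = c ∧ Tendsto (fun t => ∑' k, nsq (L t k)) (𝓝[>] 0) (𝓝 (∑' k, nsq (c k))) := by
  obtain ⟨L, hL0, hL, hE, hk⟩ := exists_L2 (isWeight_dw hneg) hν.le hα hΨ hS hA hh hd hc
  have hE' : ∀ t, 0 ≤ t → ∀ F : Finset K3, ∑ k ∈ F, nsq (cD D (L t) k) ≤ ∑' k, nsq (c k) :=
    fun t ht F => (Finset.sum_le_sum fun k _ => nsq_cD_le _ _).trans (hE t ht F)
  have hk' : ∀ k, ∃ C : ℝ, ∀ t, 0 ≤ t → ‖cD D (L t) k - c k‖ ≤ C * t := by
    intro k
    by_cases h : k ∈ D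
    · obtain ⟨C, hC⟩ := hk k
      refine ⟨C, fun t ht => ?_⟩
      rw [cD_of h]
      exact hC t ht
    · refine ⟨0, fun t _ => ?_⟩
      rw [cD_of_not h, hs k h, sub_zero, norm_zero, zero_mul]
  have hL' := FD.Sol.cD hneg hL
  have hk0 : ∀ k, Tendsto (fun t => cD D (L t) k) (𝓝[>] 0) (𝓝 (c k)) := ?_
  · refine ⟨fun t => cD D (L t), fun t k h => cD_of_not h, hL', fun T => ?_,
      tendsto_zero hc hE' hk', by show cD D (L 0) = c; rw [hL0]; exact cD_eq hs,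
      tendsto_energy hc hE' hk0⟩
    exact wi_of hneg hν hα (by rw [hL0]; exact cD_eq hs) hh hd hL' (fun t ht F => hE' t ht.1 F) hk0
  intro k
  obtain ⟨C, hC⟩ := hk' k
  rw [tendsto_iff_norm_sub_tendsto_zero]
  have h1 : Tendsto (fun t : ℝ => C * t) (𝓝[>] 0) (𝓝 0) := by
    have : Tendsto (fun t : ℝ => C * t) (𝓝 0) (𝓝 (C * 0)) :=
      (continuous_const.mul continuous_id).tendsto 0
    rw [mul_zero] at this
    exact this.mono_left nhdsWithin_le_nhds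
  refine squeeze_zero' (Eventually.of_forall fun _ => norm_nonneg _) ?_ h1
  filter_upwards [self_mem_nhdsWithin] with t ht
  exact hC t (le_of_lt ht)

/-- Existence for smooth data. -/
theorem exists_smooth_wi (hneg : ∀ k, -k ∈ D ↔ k ∈ D) (hν : 0 < ν) (hα : 0 ≤ α)
    (hΨ : ∀ k, 0 ≤ Ψ k) (hS : Sub (dw D) Ψ) (hA : Absb ν α Ψ) {c : Cf} (hh : Herm c) (hd : Dv c)
    (hc : Rapid c) (hs : ∀ k ∉ D, c k = 0) :
    ∃ L : ℝ → Cf, Sol (dw D) ν α (Ici 0) L ∧ ∀ T, WI D ν α T c L := by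
  obtain ⟨L, hL0, hL⟩ := exists_smooth (isWeight_dw hneg) hν.le hα hΨ hS hA hh hd hc
  have hL' := FD.Sol.cD hneg hL
  refine ⟨fun t => cD D (L t), hL', fun T => ?_⟩
  have h00 : (0 : ℝ) ∈ Ici (0 : ℝ) := self_mem_Ici
  have h0T : max T 0 ∈ Ici (0 : ℝ) := mem_Ici.2 (le_max_right T 0)
  obtain ⟨A, hA⟩ := hL'.bound h00 h0T 3
  have hnn : (fun t => cD D (L t)) 0 = c := by
    show cD D (L 0) = c
    rw [hL0]
    exact cD_eq hs
  refine wi_of (E := 3 * A ^ 2 * ∑' k : K3, (jb k ^ 6)⁻¹) hneg hν hα hnn hh hd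
    (hL'.mono Ioi_subset_Ici_self) (fun t ht F => ?_) fun k => ?_
  · rw [← tsum_mul_left]
    refine le_trans (Finset.sum_le_sum fun k _ => ?_) ((summable_jb.mul_left (3 * A ^ 2)).sum_le_tsum F
      fun k _ => mul_nonneg (by positivity) (inv_nonneg.2 (pow_nonneg (jb_pos k).le _)))
    have h0 := jb_pos k
    have h1 := hA t ⟨ht.1, ht.2.trans (le_max_left _ _)⟩ k
    rw [← div_eq_mul_inv, le_div_iff₀ (by positivity)]
    calc nsq (cD D (L t) k) * jb k ^ 6 ≤ 3 * ‖cD D (L t) k‖ ^ 2 * jb k ^ 6 :=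
          mul_le_mul_of_nonneg_right (nsq_le _) (by positivity)
      _ = 3 * (jb k ^ 3 * ‖cD D (L t) k‖) ^ 2 := by ring
      _ ≤ 3 * A ^ 2 := by
          have := pow_le_pow_left₀ (by positivity) h1 2
          linarith
  · have h1 := (hL'.der 0 h00 k).continuousWithinAt
    have h2 : Tendsto (fun s => cD D (L s) k) (𝓝[≥] 0) (𝓝 (cD D (L 0) k)) := h1
    rw [hL0, cD_eq hs] at h2
    exact h2.mono_left (nhdsWithin_mono _ Ioi_subset_Ici_self)

theorem Sol.congr {η : K3 → K3 → ℝ} {I : Set ℝ} {a b : ℝ → Cf} (h : Sol η ν α I a)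
    (he : ∀ t ∈ I, b t = a t) (hI : I.OrdConnected) : Sol η ν α I b := by
  refine ⟨fun t ht => ?_, fun t ht => ?_, fun s hs t ht m => ?_, fun t ht k => ?_⟩
  · rw [he t ht]; exact h.herm t ht
  · rw [he t ht]; exact h.div t ht
  · obtain ⟨C, hC⟩ := h.rapid s hs t ht m
    refine ⟨C, fun τ hτ k => ?_⟩
    rw [he τ (hI.out hs ht hτ)]
    exact hC τ hτ k
  · rw [he t ht]
    exact (h.der t ht k).congr (fun s hs => by show b s k = a s k; rw [he s hs])
      (by show b t k = a t k; rw [he t ht])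

/-- The main theorem, for given frequencies. -/
theorem main (hneg : ∀ k, -k ∈ D ↔ k ∈ D) (hν : 0 < ν) (hα : 0 < α) (hC : 0 ≤ C)
    (hE : Est D β C) (hβ0 : 0 ≤ β) (hβα : β < 2 * α) (hS : Sub (dw D) fun k => jb k ^ β)
    {c : Cf} (hh : Herm c) (hd : Dv c) (hc : Summable fun k => nsq (c k))
    (hs : ∀ k ∉ D, c k = 0) :
    ∃ L : ℝ → Cf, (∀ t, ∀ k ∉ D, L t k = 0) ∧ Sol (dw D) ν α (Ioi 0) L ∧
      (∀ T, WI D ν α T c L) ∧ (∀ T b, WI D ν α T c b → ∀ t ∈ Icc 0 T, b t = L t) ∧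
      Tendsto (fun t => ∑' k, nsq (L t k - c k)) (𝓝[>] 0) (𝓝 0) ∧
      (∀ t, 0 < t → HasDerivAt (fun s => ∑' k, nsq (L s k)) (-(2 * ∑' k, lam ν α k * nsq (L t k))) t) ∧
      (Rapid c → Sol (dw D) ν α (Ici 0) L) ∧ L 0 = c ∧
      Tendsto (fun t => ∑' k, nsq (L t k)) (𝓝[>] 0) (𝓝 (∑' k, nsq (c k))) := by
  have hΨ : ∀ k, 0 ≤ jb k ^ β := fun k => Real.rpow_nonneg (jb_pos k).le _
  have hA := absb_rpow hν hα hβα
  obtain ⟨L, h1, h2, h3, h4, h0, h9⟩ := exists_wi hneg hν hα.le hΨ hS hA hh hd hc hs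
  refine ⟨L, h1, h2, h3, fun T b hb t ht => WI.uniq hneg hC hE hβ0 hα hβα hν hb (h3 T) t ht, h4,
    fun t ht => energy_deriv (isWeight_dw hneg) hν.le hα.le h2 ht, fun hr => ?_, h0, h9⟩
  obtain ⟨L', h5, h6⟩ := exists_smooth_wi hneg hν hα.le hΨ hS hA hh hd hr hs
  refine Sol.congr h5 (fun t ht => ?_) ordConnected_Ici
  exact WI.uniq hneg hC hE hβ0 hα hβα hν (h3 t) (h6 t) t ⟨ht, le_rfl⟩

end

end Pool.Agent.Run7.h507.FD
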