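import Pool.Agent.Run7.h507.FD.Enq

/-!
The estimates for the random frequencies.
-/

set_option autoImplicit false

open MeasureTheory ProbabilityTheory Set Filter Topology
open scoped ENNReal

namespace Pool.Agent.Run7.h507.FD

open RT

theorem SD.mono {D : Set K3} {κ K K' : ℝ} (h : SD D κ K) (hK : K ≤ K') : SD D κ K' := by
  intro j i hij A B hA hB
  refine (h j i hij A B hA hB).trans (mul_le_mul_of_nonneg_right hK ?_)
  have h1 : (0 : ℝ) ≤ ((2 : ℝ) ^ i) ^ (-κ) := Real.rpow_nonneg (by positivity) _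
  positivity

theorem CD.mono {D : Set K3} {κ K K' : ℝ} (h : CD D κ K) (hK : K ≤ K') : CD D κ K' := by
  intro i R hR
  refine (h i R hR).trans (mul_le_mul_of_nonneg_right hK ?_)
  have h1 : (0 : ℝ) ≤ ((2 : ℝ) ^ i) ^ (3 - κ) := Real.rpow_nonneg (by positivity) _
  positivity

theorem one_le_len {k : K3} (hk : k ≠ 0) : 1 ≤ len k := by
  rw [← jb_of_ne hk]
  exact one_le_jb k

/-- The estimates needed for the solutions. -/
def Good (D : Set K3) (β : ℝ) : Prop :=
  Sub (dw D) (fun k => jb k ^ β) ∧ ∃ C : ℝ, 0 ≤ C ∧ Est D β C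

theorem good_of {D : Set K3} {κ K : ℝ} (hK : 0 ≤ K) (hκ : 0 ≤ κ) (hκ3 : κ ≤ 3) (h : SD D κ K)
    (h' : CD D κ K) (h0 : ∀ k ∈ D, k ≠ 0) {β : ℝ} (hβ : 1 + g0 κ < β) : Good D β := by
  have hδ : 0 < β - (1 + g0 κ) := by linarith
  have e : 1 + g0 κ + (β - (1 + g0 κ)) = β := by ring
  refine ⟨?_, ?_⟩
  · have h1 := sub_dw hK hκ hκ3 h h' h0 hδ
    rw [e] at h1
    exact h1
  · obtain ⟨C, hC, hate⟩ := ate hK hκ hκ3 h h' h0 hδ
    refine ⟨C * 4 ^ (1 : ℝ), by positivity, fun B u v w hu hv hw => ?_⟩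
    have h1 := hate 1 zero_le_one B u v w hu hv hw
    rw [e] at h1
    simp only [Real.rpow_one] at h1 ⊢
    exact h1

variable {Ω : Type*} [MeasurableSpace Ω] {P : Measure Ω} [IsProbabilityMeasure P]

/-- The estimates hold almost surely. -/
theorem ae_good {S : Sym2 K3 → Set Ω} (hm : ∀ l, MeasurableSet (S l)) (hS : iIndepSet S P)
    {d C₀ : ℝ} (hp : ∀ k : K3, k ≠ 0 → P.real (S s(k, -k)) ≤ C₀ * len k ^ (d - 3)) :
    ∀ᵐ ω ∂P, ∀ β : ℝ, 1 < β → (3 * d - 4) / 2 < β → Good (Dm S ω) β := by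
  set m := min 3 (max d 0) with hmd
  set κ := 3 - m with hκd
  have hm3 : m ≤ 3 := min_le_left _ _
  have hm0 : 0 ≤ m := le_min (by norm_num) (le_max_right _ _)
  have hκ : 0 ≤ κ := by linarith
  have hκ3 : κ ≤ 3 := by linarith
  have hC : 0 ≤ max 1 C₀ := zero_le_one.trans (le_max_left _ _)
  have hsel : Sel P S κ (max 1 C₀) := by
    refine ⟨hm, hS, fun k hk => ?_⟩
    have h1 := one_le_len hk
    rcases le_total 3 d with h3 | h3
    · have e : κ = 0 := by
        rw [hκd, hmd, min_eq_left (h3.trans (le_max_left _ _))]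
        norm_num
      rw [e, neg_zero, Real.rpow_zero, mul_one]
      exact measureReal_le_one.trans (le_max_left _ _)
    · have e : d - 3 ≤ -κ := by
        rw [hκd, hmd]
        have : max d 0 ≤ 3 := max_le h3 (by norm_num)
        rw [min_eq_right this]
        linarith [le_max_left d 0]
      refine (hp k hk).trans ?_
      have h2 : len k ^ (d - 3) ≤ len k ^ (-κ) := Real.rpow_le_rpow_of_exponent_le h1 e
      exact mul_le_mul (le_max_right _ _) h2 (Real.rpow_nonneg (len_nonneg k) _) hC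
  filter_upwards [ae_SD hsel hκ hC, ae_CD hsel hκ hC] with ω h1 h2 β hβ1 hβ2
  obtain ⟨K1, hK1, h1⟩ := h1
  obtain ⟨K2, hK2, h2⟩ := h2
  refine good_of (K := max K1 K2) (hK1.trans (le_max_left _ _)) hκ hκ3 (h1.mono (le_max_left _ _))
    (h2.mono (le_max_right _ _)) (fun k hk => hk.1) ?_
  unfold g0
  rcases le_total 0 ((3 - 3 * κ) / 2) with h | h
  · rw [max_eq_right h]
    have e : (3 - 3 * κ) / 2 = (3 * m - 6) / 2 := by rw [hκd]; ring
    rw [e] at h ⊢
    have h4 : 0 < d := by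
      by_contra hd
      have : m ≤ 0 := by
        rw [hmd, max_eq_right (not_lt.1 hd)]
        exact min_le_right _ _
      linarith
    have h5 : m ≤ d := by
      rw [hmd, max_eq_left h4.le]
      exact min_le_right _ _
    linarith
  · rw [max_eq_left h]
    linarith

end Pool.Agent.Run7.h507.FD
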