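import Pool.Agent.Run7.h507.FD.Wt

/-!
The trilinear estimates for infinitely many frequencies, at a fixed time.
-/

set_option autoImplicit false

open MeasureTheory ProbabilityTheory Set Filter Topology

namespace Pool.Agent.Run7.h507.FD

open RT

section

variable {D : Set K3} {b C : ℝ}

/-- Finite weighted norm. -/
def Sm (b : ℝ) (u : Cf) : Prop := Summable fun k => jb k ^ b * ‖u k‖ ^ 2

/-- The weighted norm. -/
noncomputable def nn (b : ℝ) (u : Cf) : ℝ := Real.sqrt (∑' k, jb k ^ b * ‖u k‖ ^ 2)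

theorem wnn (b : ℝ) (u : Cf) (k : K3) : 0 ≤ jb k ^ b * ‖u k‖ ^ 2 :=
  mul_nonneg (Real.rpow_nonneg (jb_pos k).le _) (sq_nonneg _)

theorem nn_nonneg (b : ℝ) (u : Cf) : 0 ≤ nn b u := Real.sqrt_nonneg _

theorem nn_sq (b : ℝ) (u : Cf) : nn b u ^ 2 = ∑' k, jb k ^ b * ‖u k‖ ^ 2 :=
  Real.sq_sqrt (tsum_nonneg fun k => wnn b u k)

theorem Sm.mono {b b' : ℝ} {u : Cf} (h : Sm b u) (hb : b' ≤ b) : Sm b' u :=
  Summable.of_nonneg_of_le (fun k => wnn b' u k) (fun k => mul_le_mul_of_nonneg_right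
    (Real.rpow_le_rpow_of_exponent_le (one_le_jb k) hb) (sq_nonneg _)) h

theorem Sm.sub {u v : Cf} (hu : Sm b u) (hv : Sm b v) : Sm b (u - v) := by
  refine Summable.of_nonneg_of_le (fun k => wnn b _ k) (fun k => ?_)
    ((Summable.add hu hv).mul_left 2)
  have h1 := norm_sub_le (u k) (v k)
  have h2 := norm_nonneg (u k - v k)
  have h3 : ‖u k - v k‖ ^ 2 ≤ 2 * (‖u k‖ ^ 2 + ‖v k‖ ^ 2) := by
    nlinarith [sq_nonneg (‖u k‖ - ‖v k‖)]
  have h4 := mul_le_mul_of_nonneg_left h3 (Real.rpow_nonneg (jb_pos k).le b)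
  rw [Pi.sub_apply]
  linarith

theorem Nb_le_nn {u : Cf} (h : Sm b u) (B : Finset K3) : Nb B b (fun k => ‖u k‖) ≤ nn b u :=
  Real.sqrt_le_sqrt (h.sum_le_tsum B fun k _ => wnn b u k)

/-- The sum of the three products. -/
noncomputable def YY (b : ℝ) (u v w : Cf) : ℝ :=
  nn 0 u * (nn b v * nn b w) + nn 0 v * (nn b u * nn b w) + nn 0 w * (nn b u * nn b v)

theorem YY_nonneg (b : ℝ) (u v w : Cf) : 0 ≤ YY b u v w := by
  unfold YY
  have h1 := nn_nonneg b u
  have h2 := nn_nonneg b v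
  have h3 := nn_nonneg b w
  have h4 := nn_nonneg 0 u
  have h5 := nn_nonneg 0 v
  have h6 := nn_nonneg 0 w
  positivity

theorem XX_le_YY (hb : 0 ≤ b) {u v w : Cf} (hu : Sm b u) (hv : Sm b v) (hw : Sm b w)
    (B : Finset K3) : XX B b (fun k => ‖u k‖) (fun k => ‖v k‖) (fun k => ‖w k‖) ≤ YY b u v w := by
  unfold XX YY
  have h1 := Nb_le_nn hu B
  have h2 := Nb_le_nn hv B
  have h3 := Nb_le_nn hw B
  have h4 := Nb_le_nn (hu.mono hb) B
  have h5 := Nb_le_nn (hv.mono hb) B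
  have h6 := Nb_le_nn (hw.mono hb) B
  have n1 := Nb_nonneg B b (fun k => ‖u k‖)
  have n2 := Nb_nonneg B b (fun k => ‖v k‖)
  have n3 := Nb_nonneg B b (fun k => ‖w k‖)
  have n4 := Nb_nonneg B 0 (fun k => ‖u k‖)
  have n5 := Nb_nonneg B 0 (fun k => ‖v k‖)
  have n6 := Nb_nonneg B 0 (fun k => ‖w k‖)
  have m1 := nn_nonneg b u
  have m2 := nn_nonneg b v
  have m3 := nn_nonneg b w
  have m4 := nn_nonneg 0 u
  have m5 := nn_nonneg 0 v
  have m6 := nn_nonneg 0 w
  gcongr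

/-- The trilinear estimate in the form used below. -/
def Est (D : Set K3) (b C : ℝ) : Prop :=
  ∀ (B : Finset K3) (u v w : K3 → ℝ), (∀ k, 0 ≤ u k) → (∀ k, 0 ≤ v k) → (∀ k, 0 ≤ w k) →
    ∑ x ∈ Tr B, dd D x * mx x.1 x.2 * (u x.1 * v x.2 * w (-(x.1 + x.2))) ≤ C * XX B b u v w

theorem summable_pair {u v : Cf} (hu : Sm 0 u) (hv : Sm 0 v) (k : K3) :
    Summable fun p => ‖u p‖ * ‖v (k - p)‖ := by
  have hu' : Summable fun p => ‖u p‖ ^ 2 := by
    refine Summable.congr hu fun p => ?_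
    rw [Real.rpow_zero, one_mul]
  have hv' : Summable fun p => ‖v (k - p)‖ ^ 2 := by
    have h1 : Summable fun p => ‖v p‖ ^ 2 := by
      refine Summable.congr hv fun p => ?_
      rw [Real.rpow_zero, one_mul]
    exact (Equiv.subLeft k).summable_iff.2 h1
  refine Summable.of_nonneg_of_le (fun p => by positivity) (fun p => ?_) (Summable.add hu' hv')
  nlinarith [sq_nonneg (‖u p‖ - ‖v (k - p)‖), sq_nonneg (‖u p‖), sq_nonneg (‖v (k - p)‖)]

/-- The sum over the interactions with output `k`. -/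
noncomputable def cs2 (D : Set K3) (u v : Cf) (k : K3) : ℝ :=
  ∑' p, dd D (p, k - p) * (‖u p‖ * ‖v (k - p)‖)

theorem summable_cs2 {u v : Cf} (hu : Sm 0 u) (hv : Sm 0 v) (k : K3) :
    Summable fun p => dd D (p, k - p) * (‖u p‖ * ‖v (k - p)‖) := by
  refine Summable.of_nonneg_of_le (fun p => mul_nonneg (dd_nonneg _) (by positivity)) (fun p => ?_)
    (summable_pair hu hv k)
  have := dd_le (D := D) (p, k - p)
  have h2 : 0 ≤ ‖u p‖ * ‖v (k - p)‖ := by positivity
  nlinarith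

theorem cs2_nonneg (u v : Cf) (k : K3) : 0 ≤ cs2 D u v k :=
  tsum_nonneg fun p => mul_nonneg (dd_nonneg _) (by positivity)

theorem sum_cs2_le (hE : Est D b C) (hC : 0 ≤ C) (hb : 0 ≤ b) {u v w : Cf} (hu : Sm b u)
    (hv : Sm b v) (hw : Sm b w) (hwh : ∀ k, ‖w (-k)‖ = ‖w k‖) (F : Finset K3) :
    ∑ k ∈ F, len k * cs2 D u v k * ‖w k‖ ≤ C * YY b u v w := by
  classical
  have h1 : Tendsto (fun G : Finset K3 => ∑ k ∈ F, len k
      * (∑ p ∈ G, dd D (p, k - p) * (‖u p‖ * ‖v (k - p)‖)) * ‖w k‖) atTop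
      (𝓝 (∑ k ∈ F, len k * cs2 D u v k * ‖w k‖)) := by
    refine tendsto_finsetSum _ fun k _ => ?_
    exact ((summable_cs2 (hu.mono hb) (hv.mono hb) k).hasSum.const_mul (len k)).mul_const _
  refine le_of_tendsto' h1 fun G => ?_
  set B : Finset K3 := G ∪ ((F ×ˢ G).image fun y => y.1 - y.2) ∪ F.image fun k => -k with hB
  have h2 := hE B (fun k => ‖u k‖) (fun k => ‖v k‖) (fun k => ‖w k‖) (fun _ => norm_nonneg _)
    (fun _ => norm_nonneg _) fun _ => norm_nonneg _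
  refine le_trans ?_ (h2.trans (mul_le_mul_of_nonneg_left (XX_le_YY hb hu hv hw B) hC))
  have h3 : ∑ k ∈ F, len k * (∑ p ∈ G, dd D (p, k - p) * (‖u p‖ * ‖v (k - p)‖)) * ‖w k‖
      = ∑ y ∈ F ×ˢ G, dd D (y.2, y.1 - y.2) * len y.1
        * (‖u y.2‖ * ‖v (y.1 - y.2)‖ * ‖w (-y.1)‖) := by
    rw [Finset.sum_product]
    refine Finset.sum_congr rfl fun k _ => ?_
    rw [Finset.mul_sum, Finset.sum_mul]
    refine Finset.sum_congr rfl fun p _ => ?_
    show _ = dd D (p, k - p) * len k * (‖u p‖ * ‖v (k - p)‖ * ‖w (-k)‖)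
    rw [hwh]
    ring
  rw [h3]
  have h4 : ∑ y ∈ F ×ˢ G, dd D (y.2, y.1 - y.2) * len y.1
        * (‖u y.2‖ * ‖v (y.1 - y.2)‖ * ‖w (-y.1)‖)
      ≤ ∑ x ∈ (F ×ˢ G).image (fun y => (y.2, y.1 - y.2)), dd D x * mx x.1 x.2
        * (‖u x.1‖ * ‖v x.2‖ * ‖w (-(x.1 + x.2))‖) := by
    rw [Finset.sum_image]
    · refine Finset.sum_le_sum fun y _ => ?_
      show _ ≤ dd D (y.2, y.1 - y.2) * mx y.2 (y.1 - y.2)
        * (‖u y.2‖ * ‖v (y.1 - y.2)‖ * ‖w (-(y.2 + (y.1 - y.2)))‖)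
      have e : y.2 + (y.1 - y.2) = y.1 := by abel
      have e2 : len y.1 ≤ mx y.2 (y.1 - y.2) := by
        unfold mx
        rw [e]
        exact (le_max_right _ _).trans (le_max_right _ _)
      rw [e]
      exact mul_le_mul_of_nonneg_right (mul_le_mul_of_nonneg_left e2 (dd_nonneg _)) (by positivity)
    · intro x _ y _ hxy
      have e1 := congrArg Prod.fst hxy
      have e2 := congrArg Prod.snd hxy
      simp only at e1 e2
      rw [e1] at e2
      exact Prod.ext (sub_left_injective e2) e1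
  refine h4.trans (Finset.sum_le_sum_of_subset_of_nonneg ?_ fun x _ _ => ?_)
  · intro x hx
    rw [Finset.mem_image] at hx
    obtain ⟨y, hy, rfl⟩ := hx
    have hy' := Finset.mem_product.1 hy
    rw [mem_Tr]
    refine ⟨?_, ?_, ?_⟩
    · exact Finset.mem_union_left _ (Finset.mem_union_left _ hy'.2)
    · exact Finset.mem_union_left _ (Finset.mem_union_right _
        (Finset.mem_image.2 ⟨y, hy, rfl⟩))
    · refine Finset.mem_union_right _ (Finset.mem_image.2 ⟨y.1, hy'.1, ?_⟩)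
      show -y.1 = -(y.2 + (y.1 - y.2))
      abel
  · have := mx_nn x.1 x.2
    have := dd_nonneg (D := D) x
    positivity

theorem norm_nl_cs2 {u v : Cf} (hu : Sm 0 u) (hv : Sm 0 v) (k : K3) :
    ‖nl (dw D) u v k‖ ≤ 12 * len k * cs2 D u v k := by
  have h1 : ‖∑' p, ((dw D p (k - p) : ℂ) * kd k (u p)) • v (k - p)‖ ≤ 3 * len k * cs2 D u v k := by
    unfold cs2
    rw [← tsum_mul_left]
    refine tsum_of_norm_bounded (((summable_cs2 hu hv k).mul_left (3 * len k)).hasSum) fun p => ?_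
    rw [norm_smul, norm_mul, Complex.norm_real, Real.norm_eq_abs]
    have e1 : |dw D p (k - p)| = dd D (p, k - p) := abs_of_nonneg (dd_nonneg _)
    rw [e1]
    have e2 := norm_kd_le k (u p)
    have e3 := dd_nonneg (D := D) (p, k - p)
    calc dd D (p, k - p) * ‖kd k (u p)‖ * ‖v (k - p)‖
        ≤ dd D (p, k - p) * (3 * len k * ‖u p‖) * ‖v (k - p)‖ := by gcongr
      _ = _ := by ring
  rw [nl, norm_smul, Complex.norm_I, one_mul]
  refine (norm_prj_le k _).trans ?_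
  linarith

/-- The estimate for the nonlinear term. -/
theorem sum_ip_le (hE : Est D b C) (hC : 0 ≤ C) (hb : 0 ≤ b) {u v w : Cf} (hu : Sm b u)
    (hv : Sm b v) (hw : Sm b w) (hwh : Herm w) (F : Finset K3) :
    ∑ k ∈ F, |ip (nl (dw D) u v k) (w k)| ≤ 36 * C * YY b u v w := by
  have h0 : ∀ k, ‖w (-k)‖ = ‖w k‖ := by
    intro k
    have : w (-k) = fun i => (starRingEnd ℂ) (w k i) := funext fun i => hwh k i
    rw [this]
    simp only [Pi.norm_def]
    congr 1
    refine Finset.sup_congr rfl fun i _ => ?_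
    simp
  have h1 := sum_cs2_le hE hC hb hu hv hw h0 F
  have h2 : ∑ k ∈ F, |ip (nl (dw D) u v k) (w k)|
      ≤ 36 * ∑ k ∈ F, len k * cs2 D u v k * ‖w k‖ := by
    rw [Finset.mul_sum]
    refine Finset.sum_le_sum fun k _ => ?_
    refine (abs_ip_le _ _).trans ?_
    have e1 := norm_nl_cs2 (D := D) (hu.mono hb) (hv.mono hb) k
    have e2 := norm_nonneg (w k)
    nlinarith
  linarith

theorem nl_add_right {u v v' : Cf} (hu : Sm 0 u) (hv : Sm 0 v) (hv' : Sm 0 v') (k : K3) :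
    nl (dw D) u (v - v') k = nl (dw D) u v k - nl (dw D) u v' k := by
  have hs : ∀ {v : Cf}, Sm 0 v → Summable fun p => ((dw D p (k - p) : ℂ) * kd k (u p)) • v (k - p) := by
    intro v hv
    refine Summable.of_norm_bounded ((summable_pair hu hv k).mul_left (3 * len k)) fun p => ?_
    refine norm_term_le (fun p q => ?_) p (k - p) k (u p) (v (k - p))
    unfold dw
    rw [abs_of_nonneg (dd_nonneg _)]
    exact dd_le _
  unfold nl
  rw [← smul_sub, ← prj_sub, ← (hs hv).tsum_sub (hs hv')]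
  congr 2
  refine tsum_congr fun p => ?_
  rw [Pi.sub_apply, smul_sub]

theorem nl_add_left {u u' v : Cf} (hu : Sm 0 u) (hu' : Sm 0 u') (hv : Sm 0 v) (k : K3) :
    nl (dw D) (u - u') v k = nl (dw D) u v k - nl (dw D) u' v k := by
  have hs : ∀ {u : Cf}, Sm 0 u → Summable fun p => ((dw D p (k - p) : ℂ) * kd k (u p)) • v (k - p) := by
    intro u hu
    refine Summable.of_norm_bounded ((summable_pair hu hv k).mul_left (3 * len k)) fun p => ?_
    refine norm_term_le (fun p q => ?_) p (k - p) k (u p) (v (k - p))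
    unfold dw
    rw [abs_of_nonneg (dd_nonneg _)]
    exact dd_le _
  unfold nl
  rw [← smul_sub, ← prj_sub, ← (hs hu).tsum_sub (hs hu')]
  congr 2
  refine tsum_congr fun p => ?_
  rw [Pi.sub_apply, kd_sub, ← sub_smul]
  congr 1
  ring

theorem sm_cut {u : Cf} (h : Sm b u) (n : ℕ) : Sm b (cut n u) := by
  refine Summable.of_nonneg_of_le (fun k => wnn b _ k) (fun k => ?_) h
  by_cases hk : k ∈ Bn n
  · rw [cut_mem hk]
  · rw [cut_not hk, norm_zero]
    have := wnn b u k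
    simpa using this

theorem tendsto_nn_cut {u : Cf} (h : Sm b u) :
    Tendsto (fun n => nn b (u - cut n u)) atTop (𝓝 0) := by
  have h1 : Tendsto (fun n => ∑' k, jb k ^ b * ‖(u - cut n u) k‖ ^ 2) atTop
      (𝓝 (∑' _k : K3, (0 : ℝ))) := by
    refine tendsto_tsum_of_dominated_convergence (bound := fun k => jb k ^ b * ‖u k‖ ^ 2) h ?_ ?_
    · intro k
      obtain ⟨N, hN⟩ := exists_Bn k
      refine tendsto_const_nhds.congr' ?_
      filter_upwards [eventually_ge_atTop N] with n hn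
      rw [Pi.sub_apply, cut_mem (hN n hn), sub_self, norm_zero]
      simp
    · refine Eventually.of_forall fun n k => ?_
      rw [Real.norm_eq_abs, abs_of_nonneg (wnn b _ k)]
      rw [Pi.sub_apply]
      by_cases hk : k ∈ Bn n
      · rw [cut_mem hk, sub_self, norm_zero]
        have := wnn b u k
        simpa using this
      · rw [cut_not hk, sub_zero]
  rw [tsum_zero] at h1
  have h2 := (Real.continuous_sqrt.tendsto 0).comp h1
  rw [Real.sqrt_zero] at h2
  exact h2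

theorem Bn_mono {m n : ℕ} (h : m ≤ n) : Bn m ⊆ Bn n := by
  intro k hk
  rw [mem_Bn] at hk ⊢
  intro i
  have := hk i
  omega

theorem nl_cut_eq {v w : Cf} {m n : ℕ} (hm : 2 * n ≤ m) {k : K3} (hk : k ∈ Bn n) :
    nl (dw D) (cut m v) (cut n w) k = nl (dw D) v (cut n w) k := by
  unfold nl
  congr 2
  refine tsum_congr fun p => ?_
  by_cases hp : p ∈ Bn m
  · rw [cut_mem hp]
  · have h1 : k - p ∉ Bn n := by
      intro h2
      apply hp
      rw [mem_Bn] at h2 hk ⊢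
      intro i
      have a1 := h2 i
      have a2 := hk i
      simp only [Pi.sub_apply] at a1
      omega
    rw [cut_not h1, smul_zero, smul_zero]

theorem ip_zero_right (v : C3) : ip v 0 = 0 := by
  unfold ip
  simp

theorem transport_cut (hneg : ∀ k, -k ∈ D ↔ k ∈ D) {v w : Cf} (hvd : Dv v) (hwd : Dv w)
    (hwh : Herm w) (n : ℕ) : ∑ k ∈ Bn n, ip (nl (dw D) v (cut n w) k) (w k) = 0 := by
  obtain ⟨m, hm⟩ : ∃ m, 2 * n ≤ m := ⟨_, le_rfl⟩
  have hmn : Bn n ⊆ Bn m := Bn_mono (by omega)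
  have s1 : ∀ k ∉ Bn m, cut m v k = 0 := fun k hk => cut_not hk
  have s2 : ∀ k ∉ Bn m, cut n w k = 0 := fun k hk => cut_not fun h => hk (hmn h)
  have e1 := transport_zero (isWeight_dw hneg) Bn_neg s1 s2 (cut_dv hvd) (cut_dv hwd) (cut_herm hwh)
  have e2 : ∑ k ∈ Bn m, ip (nl (dw D) (cut m v) (cut n w) k) (cut n w k)
      = ∑ k ∈ Bn n, ip (nl (dw D) (cut m v) (cut n w) k) (cut n w k) := by
    refine (Finset.sum_subset hmn fun k _ hk => ?_).symm
    rw [cut_not hk, ip_zero_right]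
  rw [e2] at e1
  rw [← e1]
  refine Finset.sum_congr rfl fun k hk => ?_
  rw [nl_cut_eq hm hk, cut_mem hk]

/-- The transport term vanishes. -/
theorem tendsto_transport (hneg : ∀ k, -k ∈ D ↔ k ∈ D) (hE : Est D b C) (hC : 0 ≤ C) (hb : 0 ≤ b)
    {v w : Cf} (hv : Sm b v) (hw : Sm b w) (hvd : Dv v) (hwd : Dv w) (hwh : Herm w) :
    Tendsto (fun n => ∑ k ∈ Bn n, ip (nl (dw D) v w k) (w k)) atTop (𝓝 0) := by
  have h1 : ∀ n, ∑ k ∈ Bn n, ip (nl (dw D) v (cut n w) k) (w k) = 0 :=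
    transport_cut hneg hvd hwd hwh
  have h2 : ∀ n, |∑ k ∈ Bn n, ip (nl (dw D) v w k) (w k)|
      ≤ 36 * C * YY b v (w - cut n w) w := by
    intro n
    have e1 : ∑ k ∈ Bn n, ip (nl (dw D) v w k) (w k)
        = ∑ k ∈ Bn n, ip (nl (dw D) v (w - cut n w) k) (w k) := by
      rw [← sub_zero (∑ k ∈ Bn n, ip (nl (dw D) v w k) (w k)), ← h1 n, ← Finset.sum_sub_distrib]
      refine Finset.sum_congr rfl fun k _ => ?_
      rw [nl_add_right (hv.mono hb) (hw.mono hb) ((sm_cut hw n).mono hb), ip_sub_left]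
    rw [e1]
    refine (Finset.abs_sum_le_sum_abs _ _).trans ?_
    exact sum_ip_le hE hC hb hv (hw.sub (sm_cut hw n)) hw hwh _
  have h3 : Tendsto (fun n => 36 * C * YY b v (w - cut n w) w) atTop (𝓝 0) := by
    have t1 := tendsto_nn_cut hw
    have t2 := tendsto_nn_cut (hw.mono hb)
    have t3 : Tendsto (fun n => 36 * C * YY b v (w - cut n w) w) atTop
        (𝓝 (36 * C * (nn 0 v * (0 * nn b w) + 0 * (nn b v * nn b w) + nn 0 w * (nn b v * 0)))) := by
      unfold YY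
      exact ((((t1.mul_const _).const_mul _).add (t2.mul_const _)).add
        ((t1.const_mul _).const_mul _)).const_mul _
    simpa using t3
  exact squeeze_zero_norm (fun n => by rw [Real.norm_eq_abs]; exact h2 n) h3

end

end Pool.Agent.Run7.h507.FD
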