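import Pool.Agent.Run7.h507.FD.Sam

/-!
The number of the triads between three sets.
-/

set_option autoImplicit false

open Finset

namespace Pool.Agent.Run7.h507.FD

variable {G : Type*} [DecidableEq G] [AddCommGroup G]

theorem rho_le_left (A B : Finset G) (r : G) : rho A B r ≤ A.card := card_filter_le _ _

theorem rho_le_right (A B : Finset G) (r : G) : rho A B r ≤ B.card := by
  unfold rho
  refine card_le_card_of_injOn (fun p => -(p + r)) (fun p hp => ?_) fun x _ y _ h => ?_
  · exact (mem_filter.1 (mem_coe.1 hp)).2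
  · exact add_right_cancel (neg_injective h)

theorem rho_symm (A B : Finset G) (r : G) : rho A B r = rho B A r := by
  unfold rho
  refine card_bij (fun p _ => -(p + r)) ?_ ?_ ?_
  · intro p hp
    rw [mem_filter] at hp ⊢
    refine ⟨hp.2, ?_⟩
    have e : -(-(p + r) + r) = p := by abel
    rw [e]
    exact hp.1
  · intro x _ y _ h
    exact add_right_cancel (neg_injective h)
  · intro q hq
    rw [mem_filter] at hq
    refine ⟨-(q + r), ?_, by abel⟩
    rw [mem_filter]
    refine ⟨hq.2, ?_⟩
    have e : -(-(q + r) + r) = q := by abel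
    rw [e]
    exact hq.1

theorem hits_mono {C C' : Finset G} (h : C' ⊆ C) (S S' : Finset G) : hits C' S S' ≤ hits C S S' :=
  card_le_card (filter_subset_filter _ h)

theorem hits_symm (C S S' : Finset G) : hits C S S' = hits C S' S := by
  unfold hits
  congr 1
  refine filter_congr fun r _ => ⟨?_, ?_⟩
  · rintro ⟨p, hp, hq⟩
    exact ⟨-(p + r), hq, by
      have e : -(-(p + r) + r) = p := by abel
      rwa [e]⟩
  · rintro ⟨p, hp, hq⟩
    exact ⟨-(p + r), hq, by
      have e : -(-(p + r) + r) = p := by abel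
      rwa [e]⟩

theorem min_trick {x X Y Z W : ℝ} (hX : 0 ≤ X) (hW : 0 ≤ W) (h1 : x ≤ X + Y)
    (h2 : x ≤ Z) (h3 : Y * Z ≤ W ^ 2) (_hY : 0 ≤ Y) (_hZ : 0 ≤ Z) : x ≤ X + W := by
  by_cases h : Y ≤ W
  · linarith
  · have h4 : Z ≤ W := by
      by_contra h5
      have h6 := not_le.1 h
      have h7 := not_le.1 h5
      nlinarith
    linarith

/-- The unbalanced case. -/
theorem level_unb {A B C : Finset G} {α β : ℝ} (hα : 0 ≤ α) (hβ : 1 ≤ β)
    (h : ∀ S ⊆ A, ∀ S' ⊆ B, (hits C S S' : ℝ) ≤ α * (S.card * S'.card) + β * (S.card + S'.card))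
    {m : ℕ} (hm : 1 ≤ m) (hu : (m : ℝ) * A.card ≤ B.card) :
    (m : ℝ) * (C.filter fun r => m ≤ rho A B r).card
      ≤ 2 * α * (A.card * B.card) + 4 * β * Real.sqrt (A.card * B.card * C.card) := by
  have hm0 : (0 : ℝ) < m := by exact_mod_cast hm
  have hm1 : (1 : ℝ) ≤ m := by exact_mod_cast hm
  have ha : (0 : ℝ) ≤ A.card := Nat.cast_nonneg _
  have hb : (0 : ℝ) ≤ B.card := Nat.cast_nonneg _
  have hc : (0 : ℝ) ≤ C.card := Nat.cast_nonneg _
  set T := C.filter fun r => m ≤ rho A B r with hT
  have hTC : (T.card : ℝ) ≤ C.card := by exact_mod_cast card_filter_le _ _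
  have h1 := popular (A := A) (B := B) (C := T) (α := α) (β := β) (τ := 1) (τ' := 1 / m) (m := m)
    (fun S hS S' hS' => le_trans (by exact_mod_cast hits_mono (filter_subset _ _) S S')
      (h S hS S' hS')) zero_le_one le_rfl (by positivity)
    (by rw [div_le_one hm0]; exact hm1) (by rw [one_mul, one_div, inv_mul_cancel₀ hm0.ne'])
    fun r hr => (mem_filter.1 hr).2
  have h2 : (m : ℝ) * T.card ≤ 2 * α * (A.card * B.card) + 4 * β * B.card := by
    have e1 : (m : ℝ) * T.card ≤ m * (2 * (α * (1 * A.card * (1 / m * B.card))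
        + β * (1 * A.card + 1 / m * B.card))) := mul_le_mul_of_nonneg_left h1 hm0.le
    have e2 : (m : ℝ) * (2 * (α * (1 * A.card * (1 / m * B.card))
        + β * (1 * A.card + 1 / m * B.card))) = 2 * α * (A.card * B.card)
          + 2 * β * (m * A.card + B.card) := by
      field_simp
    rw [e2] at e1
    have e3 : 2 * β * (m * A.card + B.card) ≤ 2 * β * (B.card + B.card) := by
      have : (0 : ℝ) ≤ 2 * β := by linarith
      exact mul_le_mul_of_nonneg_left (by linarith) this
    linarith
  have h3 : (m : ℝ) * T.card ≤ A.card * C.card := by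
    rcases T.eq_empty_or_nonempty with h0 | ⟨r, hr⟩
    · rw [h0, card_empty, Nat.cast_zero, mul_zero]
      positivity
    · have e1 := ((mem_filter.1 hr).2).trans (rho_le_left A B r)
      have e2 : (m : ℝ) ≤ A.card := by exact_mod_cast e1
      exact mul_le_mul e2 hTC (Nat.cast_nonneg _) ha
  refine min_trick (Y := 4 * β * B.card) (Z := A.card * C.card) (by positivity) (by positivity)
    h2 h3 ?_ (by positivity) (by positivity)
  rw [mul_pow, Real.sq_sqrt (by positivity)]
  have h4 : 4 * β * (A.card * B.card * C.card) ≤ (4 * β) ^ 2 * ((A.card : ℝ) * B.card * C.card) := by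
    refine mul_le_mul_of_nonneg_right ?_ (by positivity)
    nlinarith
  linarith

/-- The elements with many representations. -/
theorem level {A B C : Finset G} {α β : ℝ} (hα : 0 ≤ α) (hβ : 1 ≤ β)
    (h : ∀ S ⊆ A, ∀ S' ⊆ B, (hits C S S' : ℝ) ≤ α * (S.card * S'.card) + β * (S.card + S'.card))
    (hABC : min A.card B.card ≤ C.card) {m : ℕ} (hm : 1 ≤ m) :
    (m : ℝ) * (C.filter fun r => m ≤ rho A B r).card
      ≤ 2 * α * (A.card * B.card) + 4 * β * Real.sqrt (A.card * B.card * C.card) := by
  have hm0 : (0 : ℝ) < m := by exact_mod_cast hm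
  have ha : (0 : ℝ) ≤ A.card := Nat.cast_nonneg _
  have hb : (0 : ℝ) ≤ B.card := Nat.cast_nonneg _
  have hc : (0 : ℝ) ≤ C.card := Nat.cast_nonneg _
  rcases le_total ((m : ℝ) * A.card) B.card with h1 | h1
  · exact level_unb hα hβ h hm h1
  rcases le_total ((m : ℝ) * B.card) A.card with h2 | h2
  · have h3 := level_unb (A := B) (B := A) (C := C) hα hβ (fun S hS S' hS' => by
      rw [hits_symm]
      refine (h S' hS' S hS).trans (le_of_eq ?_)
      ring) hm h2
    simp only [rho_symm B A] at h3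
    refine h3.trans (le_of_eq ?_)
    rw [mul_comm (B.card : ℝ) A.card]
  set T := C.filter fun r => m ≤ rho A B r with hT
  rcases T.eq_empty_or_nonempty with h0 | ⟨r, hr⟩
  · rw [h0, card_empty, Nat.cast_zero, mul_zero]
    positivity
  have e1 := ((mem_filter.1 hr).2).trans (rho_le_left A B r)
  have e2 := ((mem_filter.1 hr).2).trans (rho_le_right A B r)
  have hmc : (m : ℝ) ≤ C.card := by exact_mod_cast (le_min e1 e2).trans hABC
  have ha1 : (0 : ℝ) < A.card := by exact_mod_cast (by omega : 0 < A.card)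
  have hb1 : (0 : ℝ) < B.card := by exact_mod_cast (by omega : 0 < B.card)
  set a : ℝ := (A.card : ℝ)
  set b : ℝ := (B.card : ℝ)
  set c : ℝ := (C.card : ℝ)
  have t1 : Real.sqrt (b / (a * m)) ≤ 1 := by
    rw [Real.sqrt_le_one, div_le_one (by positivity)]
    linarith
  have t2 : Real.sqrt (a / (b * m)) ≤ 1 := by
    rw [Real.sqrt_le_one, div_le_one (by positivity)]
    linarith
  have t3 : Real.sqrt (b / (a * m)) * Real.sqrt (a / (b * m)) = 1 / m := by
    rw [← Real.sqrt_mul (by positivity)]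
    have : b / (a * m) * (a / (b * m)) = (1 / m) ^ 2 := by field_simp
    rw [this, Real.sqrt_sq (by positivity)]
  have t4 : Real.sqrt (b / (a * m)) * a = Real.sqrt (a * b / m) := by
    have : a * b / m = b / (a * m) * a ^ 2 := by field_simp
    rw [this, Real.sqrt_mul (by positivity), Real.sqrt_sq ha1.le]
  have t5 : Real.sqrt (a / (b * m)) * b = Real.sqrt (a * b / m) := by
    have : a * b / m = a / (b * m) * b ^ 2 := by field_simp
    rw [this, Real.sqrt_mul (by positivity), Real.sqrt_sq hb1.le]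
  have h3 := popular (A := A) (B := B) (C := T) (α := α) (β := β) (τ := Real.sqrt (b / (a * m)))
    (τ' := Real.sqrt (a / (b * m))) (m := m)
    (fun S hS S' hS' => le_trans (by exact_mod_cast hits_mono (filter_subset _ _) S S')
      (h S hS S' hS')) (Real.sqrt_nonneg _) t1 (Real.sqrt_nonneg _) t2
    (by rw [t3, one_div, inv_mul_cancel₀ hm0.ne']) fun r hr => (mem_filter.1 hr).2
  change (T.card : ℝ) ≤ 2 * (α * (Real.sqrt (b / (a * m)) * a * (Real.sqrt (a / (b * m)) * b))
    + β * (Real.sqrt (b / (a * m)) * a + Real.sqrt (a / (b * m)) * b)) at h3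
  rw [t4, t5, Real.mul_self_sqrt (by positivity)] at h3
  have h4 : (m : ℝ) * T.card ≤ m * (2 * (α * (a * b / m)
      + β * (Real.sqrt (a * b / m) + Real.sqrt (a * b / m)))) := mul_le_mul_of_nonneg_left h3 hm0.le
  have h5 : (m : ℝ) * (2 * (α * (a * b / m) + β * (Real.sqrt (a * b / m) + Real.sqrt (a * b / m))))
      = 2 * α * (a * b) + 4 * β * (m * Real.sqrt (a * b / m)) := by
    field_simp
    ring
  rw [h5] at h4
  refine h4.trans ?_
  have h6 : (m : ℝ) * Real.sqrt (a * b / m) ≤ Real.sqrt (a * b * c) := by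
    have e : (m : ℝ) * Real.sqrt (a * b / m) = Real.sqrt (a * b * m) := by
      have : a * b * m = a * b / m * m ^ 2 := by field_simp
      rw [this, Real.sqrt_mul (by positivity), Real.sqrt_sq hm0.le, mul_comm]
    rw [e]
    exact Real.sqrt_le_sqrt (mul_le_mul_of_nonneg_left hmc (by positivity))
  have h7 : (0 : ℝ) ≤ 4 * β := by linarith
  have := mul_le_mul_of_nonneg_left h6 h7
  linarith

omit [DecidableEq G] [AddCommGroup G] in
theorem sum_level (C : Finset G) (f : G → ℕ) (M : ℕ) (hf : ∀ r ∈ C, f r ≤ M) :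
    ∑ r ∈ C, f r = ∑ t ∈ range M, (C.filter fun r => t + 1 ≤ f r).card := by
  have h1 : ∀ r ∈ C, f r = ∑ t ∈ range M, if t + 1 ≤ f r then 1 else 0 := by
    intro r hr
    rw [← card_filter]
    have : (range M).filter (fun t => t + 1 ≤ f r) = range (f r) := by
      ext t
      rw [mem_filter, mem_range, mem_range]
      have := hf r hr
      omega
    rw [this, card_range]
  rw [sum_congr rfl h1, sum_comm]
  refine sum_congr rfl fun t _ => ?_
  rw [card_filter]

/-- The number of the triads. -/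
theorem triads_le {A B C : Finset G} {α β : ℝ} (hα : 0 ≤ α) (hβ : 1 ≤ β)
    (h : ∀ S ⊆ A, ∀ S' ⊆ B, (hits C S S' : ℝ) ≤ α * (S.card * S'.card) + β * (S.card + S'.card))
    (hABC : min A.card B.card ≤ C.card) :
    ((∑ r ∈ C, rho A B r : ℕ) : ℝ)
      ≤ (harmonic A.card : ℝ) * (2 * α * (A.card * B.card)
        + 4 * β * Real.sqrt (A.card * B.card * C.card)) := by
  rw [sum_level C (rho A B) A.card fun r _ => rho_le_left A B r]
  push_cast
  set X : ℝ := 2 * α * (A.card * B.card) + 4 * β * Real.sqrt (A.card * B.card * C.card) with hX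
  have h1 : ∀ t ∈ range A.card, ((C.filter fun r => t + 1 ≤ rho A B r).card : ℝ)
      ≤ ((t : ℝ) + 1)⁻¹ * X := by
    intro t _
    have h2 := level hα hβ h hABC (m := t + 1) (by omega)
    have h3 : (0 : ℝ) < t + 1 := by positivity
    rw [← div_eq_inv_mul, le_div_iff₀ h3, mul_comm]
    push_cast at h2
    exact h2
  refine (sum_le_sum h1).trans (le_of_eq ?_)
  rw [← sum_mul]
  congr 1
  unfold harmonic
  push_cast
  rfl

end Pool.Agent.Run7.h507.FD
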