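import Mathlib

/-!
Random samples of two sets: a bound for the number of popular sums from a bound for the number of
sums of small subsets.
-/

set_option autoImplicit false

open Finset

namespace Pool.Agent.Run7.h507.FD

section

variable {G : Type*} [DecidableEq G]

/-- The probability of the sample `S` of `A`. -/
noncomputable def wt (A : Finset G) (τ : ℝ) (S : Finset G) : ℝ :=
  (∏ _i ∈ S, τ) * ∏ _i ∈ A \ S, (1 - τ)

theorem wt_nonneg {A : Finset G} {τ : ℝ} (h0 : 0 ≤ τ) (h1 : τ ≤ 1) (S : Finset G) :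
    0 ≤ wt A τ S :=
  mul_nonneg (prod_nonneg fun _ _ => h0) (prod_nonneg fun _ _ => sub_nonneg.2 h1)

theorem sum_wt_prod (A : Finset G) (τ : ℝ) (g : G → ℝ) :
    ∑ S ∈ A.powerset, wt A τ S * ∏ i ∈ S, g i = ∏ i ∈ A, (τ * g i + (1 - τ)) := by
  rw [Finset.prod_add]
  refine sum_congr rfl fun S _ => ?_
  unfold wt
  rw [prod_mul_distrib]
  ring

theorem sum_wt (A : Finset G) (τ : ℝ) : ∑ S ∈ A.powerset, wt A τ S = 1 := by
  have h := sum_wt_prod A τ fun _ => 1
  simpa using h

theorem sum_wt_mem (A : Finset G) (τ : ℝ) {p : G} (hp : p ∈ A) :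
    ∑ S ∈ A.powerset, wt A τ S * (if p ∈ S then 1 else 0) = τ := by
  have h := sum_wt_prod A τ fun i => if i = p then 0 else 1
  have h1 : ∏ i ∈ A, (τ * (if i = p then 0 else 1) + (1 - τ)) = 1 - τ := by
    rw [← Finset.mul_prod_erase A _ hp]
    rw [if_pos rfl, mul_zero, zero_add]
    rw [Finset.prod_eq_one fun i hi => ?_, mul_one]
    rw [if_neg (Finset.ne_of_mem_erase hi)]
    ring
  have h2 : ∀ S : Finset G, ∏ i ∈ S, (if i = p then (0 : ℝ) else 1) = if p ∈ S then 0 else 1 := by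
    intro S
    by_cases h3 : p ∈ S
    · rw [if_pos h3]
      exact Finset.prod_eq_zero h3 (if_pos rfl)
    · rw [if_neg h3]
      exact Finset.prod_eq_one fun i hi => if_neg fun h4 : i = p => h3 (h4 ▸ hi)
  rw [h1] at h
  simp only [h2] at h
  have h5 := sum_wt A τ
  have h6 : ∑ S ∈ A.powerset, wt A τ S * (if p ∈ S then 1 else 0)
      = ∑ S ∈ A.powerset, wt A τ S - ∑ S ∈ A.powerset, wt A τ S * (if p ∈ S then 0 else 1) := by
    rw [← sum_sub_distrib]
    refine sum_congr rfl fun S _ => ?_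
    split_ifs <;> ring
  rw [h6, h5, h]
  ring

theorem sum_wt_card (A : Finset G) (τ : ℝ) :
    ∑ S ∈ A.powerset, wt A τ S * (S.card : ℝ) = τ * A.card := by
  have h1 : ∀ S ∈ A.powerset, wt A τ S * (S.card : ℝ)
      = ∑ p ∈ A, wt A τ S * (if p ∈ S then 1 else 0) := by
    intro S hS
    rw [← mul_sum]
    congr 1
    rw [Finset.sum_ite_mem, Finset.inter_eq_right.2 (mem_powerset.1 hS)]
    simp
  rw [sum_congr rfl h1, sum_comm, sum_congr rfl fun p hp => sum_wt_mem A τ hp]
  simp [mul_comm]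

end

section

variable {G : Type*} [DecidableEq G] [AddCommGroup G]

/-- The number of the representations of `-r`. -/
def rho (A B : Finset G) (r : G) : ℕ := (A.filter fun p => -(p + r) ∈ B).card

/-- The number of the elements of `C` which are hit by `S` and `S'`. -/
def hits (C S S' : Finset G) : ℕ := (C.filter fun r => ∃ p ∈ S, -(p + r) ∈ S').card

theorem sum_miss (A B : Finset G) (τ τ' : ℝ) (r : G) :
    ∑ S ∈ A.powerset, ∑ S' ∈ B.powerset, wt A τ S * wt B τ' S'
        * (if ∃ p ∈ S, -(p + r) ∈ S' then 0 else 1)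
      = (1 - τ * τ') ^ rho A B r := by
  have h1 : ∀ S S' : Finset G, (if ∃ p ∈ S, -(p + r) ∈ S' then (0 : ℝ) else 1)
      = ∏ q ∈ S', if -(q + r) ∈ S then 0 else 1 := by
    intro S S'
    by_cases h : ∃ p ∈ S, -(p + r) ∈ S'
    · obtain ⟨p, hp, hq⟩ := h
      rw [if_pos ⟨p, hp, hq⟩]
      symm
      refine Finset.prod_eq_zero hq (if_pos ?_)
      have e : -(-(p + r) + r) = p := by abel
      rwa [e]
    · rw [if_neg h]
      symm
      refine Finset.prod_eq_one fun q hq => if_neg fun h2 => h ⟨_, h2, ?_⟩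
      have e : -(-(q + r) + r) = q := by abel
      rwa [e]
  have h2 : ∀ S ∈ A.powerset, ∑ S' ∈ B.powerset, wt A τ S * wt B τ' S'
        * (if ∃ p ∈ S, -(p + r) ∈ S' then 0 else 1)
      = wt A τ S * ∏ p ∈ S, if -(p + r) ∈ B then 1 - τ' else 1 := by
    intro S hS
    have e1 : ∑ S' ∈ B.powerset, wt A τ S * wt B τ' S' * (if ∃ p ∈ S, -(p + r) ∈ S' then 0 else 1)
        = wt A τ S * ∑ S' ∈ B.powerset, wt B τ' S' * ∏ q ∈ S', if -(q + r) ∈ S then 0 else 1 := by
      rw [mul_sum]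
      refine sum_congr rfl fun S' _ => ?_
      rw [h1]
      ring
    rw [e1, sum_wt_prod]
    congr 1
    have e2 : ∀ q, τ' * (if -(q + r) ∈ S then 0 else 1) + (1 - τ')
        = if -(q + r) ∈ S then 1 - τ' else 1 := by
      intro q
      split_ifs <;> ring
    rw [Finset.prod_congr rfl fun q _ => e2 q]
    rw [Finset.prod_ite, Finset.prod_ite]
    simp only [prod_const, one_pow, mul_one]
    congr 1
    refine Finset.card_bij (fun q _ => -(q + r)) ?_ ?_ ?_
    · intro q hq
      rw [mem_filter] at hq ⊢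
      refine ⟨hq.2, ?_⟩
      have e : -(-(q + r) + r) = q := by abel
      rw [e]
      exact hq.1
    · intro x _ y _ hxy
      exact add_right_cancel (neg_injective hxy)
    · intro p hp
      rw [mem_filter] at hp
      refine ⟨-(p + r), ?_, by abel⟩
      rw [mem_filter]
      refine ⟨hp.2, ?_⟩
      have e : -(-(p + r) + r) = p := by abel
      rw [e]
      exact hp.1
  rw [sum_congr rfl h2, sum_wt_prod]
  have e2 : ∀ p, τ * (if -(p + r) ∈ B then 1 - τ' else 1) + (1 - τ)
      = if -(p + r) ∈ B then 1 - τ * τ' else 1 := by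
    intro p
    split_ifs <;> ring
  rw [Finset.prod_congr rfl fun p _ => e2 p, Finset.prod_ite]
  simp only [prod_const, one_pow, mul_one]
  rfl

/-- The bound for the number of the popular sums. -/
theorem popular {A B C : Finset G} {α β τ τ' : ℝ}
    (h : ∀ S ⊆ A, ∀ S' ⊆ B, (hits C S S' : ℝ) ≤ α * (S.card * S'.card) + β * (S.card + S'.card))
    (h0 : 0 ≤ τ) (h1 : τ ≤ 1) (h0' : 0 ≤ τ') (h1' : τ' ≤ 1) {m : ℕ} (hm : 1 ≤ τ * τ' * m)
    (hC : ∀ r ∈ C, m ≤ rho A B r) :
    (C.card : ℝ) ≤ 2 * (α * (τ * A.card * (τ' * B.card)) + β * (τ * A.card + τ' * B.card)) := by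
  have hx0 : 0 ≤ τ * τ' := mul_nonneg h0 h0'
  have hx1 : τ * τ' ≤ 1 := mul_le_one₀ h1 h0' h1'
  have e1 : ∑ S ∈ A.powerset, ∑ S' ∈ B.powerset, wt A τ S * wt B τ' S' * (hits C S S' : ℝ)
      = ∑ r ∈ C, (1 - (1 - τ * τ') ^ rho A B r) := by
    have e2 : ∀ S S' : Finset G, (hits C S S' : ℝ)
        = ∑ r ∈ C, (1 - if ∃ p ∈ S, -(p + r) ∈ S' then (0 : ℝ) else 1) := by
      intro S S'
      unfold hits
      rw [card_filter]
      push_cast
      refine sum_congr rfl fun r _ => ?_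
      split_ifs <;> norm_num
    have e3 : ∀ S S' : Finset G, wt A τ S * wt B τ' S' * (hits C S S' : ℝ)
        = ∑ r ∈ C, (wt A τ S * wt B τ' S' - wt A τ S * wt B τ' S'
          * (if ∃ p ∈ S, -(p + r) ∈ S' then 0 else 1)) := by
      intro S S'
      rw [e2, mul_sum]
      refine sum_congr rfl fun r _ => ?_
      ring
    simp only [e3]
    have e4 : ∑ S ∈ A.powerset, ∑ S' ∈ B.powerset, ∑ r ∈ C, (wt A τ S * wt B τ' S'
          - wt A τ S * wt B τ' S' * (if ∃ p ∈ S, -(p + r) ∈ S' then 0 else 1))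
        = ∑ r ∈ C, ∑ S ∈ A.powerset, ∑ S' ∈ B.powerset, (wt A τ S * wt B τ' S'
          - wt A τ S * wt B τ' S' * (if ∃ p ∈ S, -(p + r) ∈ S' then 0 else 1)) := by
      rw [sum_congr rfl fun S _ => sum_comm]
      exact sum_comm
    rw [e4]
    refine sum_congr rfl fun r _ => ?_
    simp only [sum_sub_distrib]
    rw [sum_miss]
    congr 1
    rw [← Finset.sum_mul_sum, sum_wt, sum_wt, mul_one]
  have e5 : ∑ S ∈ A.powerset, ∑ S' ∈ B.powerset, wt A τ S * wt B τ' S' * (hits C S S' : ℝ)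
      ≤ ∑ S ∈ A.powerset, ∑ S' ∈ B.powerset, wt A τ S * wt B τ' S'
        * (α * (S.card * S'.card) + β * (S.card + S'.card)) := by
    refine sum_le_sum fun S hS => sum_le_sum fun S' hS' => ?_
    exact mul_le_mul_of_nonneg_left (h S (mem_powerset.1 hS) S' (mem_powerset.1 hS'))
      (mul_nonneg (wt_nonneg h0 h1 S) (wt_nonneg h0' h1' S'))
  have e6 : ∑ S ∈ A.powerset, ∑ S' ∈ B.powerset, wt A τ S * wt B τ' S'
        * (α * (S.card * S'.card) + β * (S.card + S'.card))
      = α * (τ * A.card * (τ' * B.card)) + β * (τ * A.card + τ' * B.card) := by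
    have f1 : ∑ S ∈ A.powerset, ∑ S' ∈ B.powerset, wt A τ S * wt B τ' S'
        * (α * (S.card * S'.card) + β * (S.card + S'.card))
        = α * ((∑ S ∈ A.powerset, wt A τ S * (S.card : ℝ))
            * ∑ S' ∈ B.powerset, wt B τ' S' * (S'.card : ℝ))
          + β * ((∑ S ∈ A.powerset, wt A τ S * (S.card : ℝ)) * ∑ S' ∈ B.powerset, wt B τ' S')
          + β * ((∑ S ∈ A.powerset, wt A τ S) * ∑ S' ∈ B.powerset, wt B τ' S' * (S'.card : ℝ)) := by
      rw [Finset.sum_mul_sum, Finset.sum_mul_sum, Finset.sum_mul_sum, mul_sum, mul_sum, mul_sum,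
        ← sum_add_distrib, ← sum_add_distrib]
      refine sum_congr rfl fun S _ => ?_
      rw [mul_sum, mul_sum, mul_sum, ← sum_add_distrib, ← sum_add_distrib]
      refine sum_congr rfl fun S' _ => ?_
      ring
    rw [f1, sum_wt_card, sum_wt_card, sum_wt, sum_wt]
    ring
  have e7 : (C.card : ℝ) / 2 ≤ ∑ r ∈ C, (1 - (1 - τ * τ') ^ rho A B r) := by
    have g1 : ∀ r ∈ C, (1 : ℝ) / 2 ≤ 1 - (1 - τ * τ') ^ rho A B r := by
      intro r hr
      have g2 : (1 - τ * τ') ^ rho A B r ≤ (1 - τ * τ') ^ m :=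
        pow_le_pow_of_le_one (by linarith) (by linarith) (hC r hr)
      have g3 : (1 - τ * τ') ^ m ≤ Real.exp (-(τ * τ' * m)) := by
        have g4 : 1 - τ * τ' ≤ Real.exp (-(τ * τ')) := by
          have := Real.add_one_le_exp (-(τ * τ'))
          linarith
        calc (1 - τ * τ') ^ m ≤ Real.exp (-(τ * τ')) ^ m := pow_le_pow_left₀ (by linarith) g4 m
          _ = Real.exp (-(τ * τ' * m)) := by
              rw [← Real.exp_nat_mul]
              congr 1
              ring
      have g5 : Real.exp (-(τ * τ' * m)) ≤ Real.exp (-1) := Real.exp_le_exp.2 (by linarith)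
      have g6 : Real.exp (-1) ≤ 1 / 2 := by
        have := Real.exp_neg_one_lt_d9
        linarith
      linarith
    calc (C.card : ℝ) / 2 = ∑ _r ∈ C, (1 : ℝ) / 2 := by
          rw [sum_const, nsmul_eq_mul]
          ring
      _ ≤ _ := sum_le_sum g1
  rw [e1, e6] at e5
  linarith

end

end Pool.Agent.Run7.h507.FD
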