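import Pool.Agent.Run7.h507.RT.Ran

/-!
Independent selection of the frequencies.
-/

set_option autoImplicit false

open MeasureTheory ProbabilityTheory Filter Topology
open scoped NNReal ENNReal

namespace Pool.Agent.Run7.h507.FD

open RT

section

variable {Ω : Type*} [MeasurableSpace Ω] {P : Measure Ω} [IsProbabilityMeasure P]

/-- The upper tail of the number of independent events. -/
theorem chernoff {L : Type*} {S : L → Set Ω} (hm : ∀ l, MeasurableSet (S l)) (hi : iIndepSet S P)
    (T : Finset L) {m : ℝ} (hμ : ∑ l ∈ T, P.real (S l) ≤ m) (u : ℝ) :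
    P.real {ω | u ≤ ∑ l ∈ T, (S l).indicator (fun _ => (1 : ℝ)) ω} ≤ Real.exp (2 * m - u) := by
  classical
  set X : L → Ω → ℝ := fun l => (S l).indicator fun _ => (1 : ℝ) with hX
  have hind : iIndepFun X P := hi.iIndepFun_indicator
  have hmeas : ∀ l, Measurable (X l) := fun l => measurable_const.indicator (hm l)
  have hexp : ∀ l, (fun ω => Real.exp (1 * X l ω)) = fun ω => 1 + (Real.exp 1 - 1) * X l ω := by
    intro l
    funext ω
    by_cases h : ω ∈ S l
    · simp [hX, h]
    · simp [hX, h]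
  have hint : ∀ l, Integrable (X l) P := fun l => (integrable_const (1 : ℝ)).indicator (hm l)
  have hinte : ∀ l, Integrable (fun ω => Real.exp (1 * X l ω)) P := by
    intro l
    rw [hexp l]
    exact (integrable_const _).add ((hint l).const_mul _)
  have hmgf : ∀ l, mgf (X l) P 1 ≤ Real.exp (2 * P.real (S l)) := by
    intro l
    have h1 : mgf (X l) P 1 = 1 + (Real.exp 1 - 1) * P.real (S l) := by
      unfold mgf
      rw [hexp l, integral_add (integrable_const _) ((hint l).const_mul _), integral_const_mul]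
      congr 1
      · simp
      · congr 1
        exact integral_indicator_one (hm l)
    rw [h1]
    have h2 : Real.exp 1 - 1 ≤ 2 := by
      have := Real.exp_one_lt_d9
      linarith
    have h3 := mul_le_mul_of_nonneg_right h2 (measureReal_nonneg (μ := P) (s := S l))
    have h4 := Real.add_one_le_exp (2 * P.real (S l))
    linarith
  have hsumint : Integrable (fun ω => Real.exp (1 * (∑ l ∈ T, X l) ω)) P :=
    hind.integrable_exp_mul_sum hmeas fun l _ => hinte l
  have h1 := measure_ge_le_exp_mul_mgf (X := ∑ l ∈ T, X l) (μ := P) u zero_le_one hsumint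
  rw [hind.mgf_sum hmeas] at h1
  have h2 : ∏ l ∈ T, mgf (X l) P 1 ≤ Real.exp (2 * m) := by
    calc ∏ l ∈ T, mgf (X l) P 1 ≤ ∏ l ∈ T, Real.exp (2 * P.real (S l)) :=
          Finset.prod_le_prod (fun l _ => mgf_nonneg) fun l _ => hmgf l
      _ = Real.exp (2 * ∑ l ∈ T, P.real (S l)) := by
          rw [← Real.exp_sum, Finset.mul_sum]
      _ ≤ Real.exp (2 * m) := Real.exp_le_exp.2 (by linarith)
  have h3 : {ω | u ≤ ∑ l ∈ T, (S l).indicator (fun _ => (1 : ℝ)) ω}
      = {ω | u ≤ (∑ l ∈ T, X l) ω} := by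
    ext ω
    simp [hX, Finset.sum_apply]
  rw [h3]
  refine h1.trans ?_
  calc Real.exp (-1 * u) * ∏ l ∈ T, mgf (X l) P 1 ≤ Real.exp (-1 * u) * Real.exp (2 * m) :=
        mul_le_mul_of_nonneg_left h2 (Real.exp_pos _).le
    _ = Real.exp (2 * m - u) := by
        rw [← Real.exp_add]
        congr 1
        ring

/-- Independent events, one for each frequency up to its sign, of probability at most
`C₀ |k| ^ (-κ)`. -/
structure Sel (P : Measure Ω) (S : Sym2 K3 → Set Ω) (κ C₀ : ℝ) : Prop where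
  meas : ∀ l, MeasurableSet (S l)
  indep : iIndepSet S P
  prob : ∀ k : K3, k ≠ 0 → P.real (S s(k, -k)) ≤ C₀ * len k ^ (-κ)

/-- The selected frequencies. -/
def Dm (S : Sym2 K3 → Set Ω) (ω : Ω) : Set K3 := {k | k ≠ 0 ∧ ω ∈ S s(k, -k)}

omit [MeasurableSpace Ω] in
theorem Dm_neg {S : Sym2 K3 → Set Ω} {ω : Ω} {k : K3} : -k ∈ Dm S ω ↔ k ∈ Dm S ω := by
  unfold Dm
  simp only [Set.mem_ofPred_eq, neg_neg, ne_eq, neg_eq_zero]
  rw [Sym2.eq_swap]

variable {S : Sym2 K3 → Set Ω} {κ C₀ : ℝ}

open Classical in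
/-- The number of the selected frequencies in a set. -/
theorem count_tail (h : Sel P S κ C₀) (R : Finset K3) (hR : ∀ k ∈ R, k ≠ 0) {m : ℝ}
    (hm : ∑ k ∈ R, C₀ * len k ^ (-κ) ≤ m) (u : ℝ) :
    P.real {ω | 4 * m + 2 * u ≤ ((R.filter fun k => k ∈ Dm S ω).card : ℝ)} ≤ Real.exp (-u) := by
  set T : Finset (Sym2 K3) := R.image fun k => s(k, -k) with hT
  have h1 : ∑ l ∈ T, P.real (S l) ≤ m := by
    refine le_trans ?_ hm
    refine (Finset.sum_image_le_of_nonneg fun k _ => measureReal_nonneg).trans ?_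
    exact Finset.sum_le_sum fun k hk => h.prob k (hR k hk)
  have h2 := chernoff h.meas h.indep T h1 (2 * m + u)
  have h3 : ∀ ω, ((R.filter fun k => k ∈ Dm S ω).card : ℝ)
      ≤ 2 * ∑ l ∈ T, (S l).indicator (fun _ => (1 : ℝ)) ω := by
    intro ω
    have e1 : ((R.filter fun k => k ∈ Dm S ω).card : ℝ)
        = ∑ k ∈ R, if k ∈ Dm S ω then (1 : ℝ) else 0 := by
      rw [Finset.card_filter]
      push_cast
      rfl
    have e2 : ∀ k ∈ R, (if k ∈ Dm S ω then (1 : ℝ) else 0)
        = (S s(k, -k)).indicator (fun _ => (1 : ℝ)) ω := by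
      intro k hk
      by_cases h4 : ω ∈ S s(k, -k)
      · rw [if_pos ⟨hR k hk, h4⟩, Set.indicator_of_mem h4]
      · rw [if_neg fun h5 => h4 h5.2, Set.indicator_of_notMem h4]
    rw [e1, Finset.sum_congr rfl e2]
    rw [← Finset.sum_fiberwise_of_maps_to (t := T) (g := fun k => s(k, -k))
      (fun k hk => Finset.mem_image_of_mem _ hk), Finset.mul_sum]
    refine Finset.sum_le_sum fun l _ => ?_
    rw [Finset.sum_congr rfl fun k hk => by rw [(Finset.mem_filter.1 hk).2], Finset.sum_const,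
      nsmul_eq_mul]
    refine mul_le_mul_of_nonneg_right ?_ (Set.indicator_nonneg (fun _ _ => zero_le_one) _)
    have hc : (R.filter fun k => s(k, -k) = l).card ≤ 2 := by
      rcases (R.filter fun k => s(k, -k) = l).eq_empty_or_nonempty with h0 | ⟨k₀, hk₀⟩
      · rw [h0]; simp
      have hk₁ := (Finset.mem_filter.1 hk₀).2
      refine (Finset.card_le_card (t := {k₀, -k₀}) fun k hk => ?_).trans Finset.card_le_two
      have hk₂ := (Finset.mem_filter.1 hk).2
      rw [← hk₁, Sym2.eq_iff] at hk₂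
      rcases hk₂ with h6 | h6
      · simp [h6.1]
      · simp [h6.1]
    exact_mod_cast hc
  refine le_trans (measureReal_mono (fun ω hω => ?_) (measure_ne_top _ _)) (h2.trans (le_of_eq ?_))
  · have h4 : 4 * m + 2 * u ≤ ((R.filter fun k => k ∈ Dm S ω).card : ℝ) := hω
    have h5 := h3 ω
    show 2 * m + u ≤ ∑ l ∈ T, (S l).indicator (fun _ => (1 : ℝ)) ω
    linarith
  · congr 1
    ring

end

end Pool.Agent.Run7.h507.FD
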