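import Pool.Agent.Run7.h507.RT.Uni2
import Pool.Agent.W918.ES.GronL1

/-!
Lemmas on integrals over the time.
-/

set_option autoImplicit false

open MeasureTheory Set Filter Topology
open scoped ENNReal

namespace Pool.Agent.Run7.h507.FD

open RT

theorem sq_int {f : ℝ → ℝ} {t : ℝ} (_ht : 0 ≤ t) (hf : IntervalIntegrable f volume 0 t) :
    (∫ s in (0 : ℝ)..t, f s) ^ 2 = ∫ s in (0 : ℝ)..t, 2 * (f s * ∫ r in (0 : ℝ)..s, f r) := by
  have hac : AbsolutelyContinuousOnInterval (fun x => ∫ r in (0 : ℝ)..x, f r) 0 t :=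
    hf.absolutelyContinuousOnInterval_intervalIntegral left_mem_uIcc
  have h1 := hac.integral_deriv_mul_eq_sub hac
  simp only [intervalIntegral.integral_same, mul_zero, sub_zero] at h1
  rw [pow_two, ← h1]
  refine intervalIntegral.integral_congr_ae ?_
  filter_upwards [hf.ae_hasDerivAt_integral] with x hx hx2
  have hx3 : x ∈ uIcc 0 t := uIoc_subset_uIcc hx2
  rw [(hx hx3 0 left_mem_uIcc).deriv]
  ring

theorem int_mul_int {f g : ℝ → ℝ} {t : ℝ} (hf : IntervalIntegrable f volume 0 t)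
    (hg : IntervalIntegrable g volume 0 t) :
    IntervalIntegrable (fun s => 2 * (f s * ∫ r in (0 : ℝ)..s, g r)) volume 0 t := by
  have hac : AbsolutelyContinuousOnInterval (fun x => ∫ r in (0 : ℝ)..x, g r) 0 t :=
    hg.absolutelyContinuousOnInterval_intervalIntegral left_mem_uIcc
  exact (hf.mul_continuousOn hac.continuousOn).const_mul 2

/-- The coordinates. -/
noncomputable def reL (i : Fin 3) : C3 →L[ℝ] ℝ := Complex.reCLM.comp (ContinuousLinearMap.proj i)

/-- The coordinates. -/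
noncomputable def imL (i : Fin 3) : C3 →L[ℝ] ℝ := Complex.imCLM.comp (ContinuousLinearMap.proj i)

theorem reL_apply (i : Fin 3) (v : C3) : reL i v = (v i).re := rfl

theorem imL_apply (i : Fin 3) (v : C3) : imL i v = (v i).im := rfl

theorem nsq_eq_re (v : C3) : nsq v = ∑ i, ((v i).re ^ 2 + (v i).im ^ 2) := by
  unfold nsq
  refine Finset.sum_congr rfl fun i _ => ?_
  rw [← Complex.normSq_eq_norm_sq, Complex.normSq_apply]
  ring

theorem ip_eq_re (v w : C3) : ip v w = ∑ i, ((v i).re * (w i).re + (v i).im * (w i).im) := by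
  unfold ip
  refine Finset.sum_congr rfl fun i _ => ?_
  simp [Complex.mul_re]

theorem clm_int (L : C3 →L[ℝ] ℝ) {g : ℝ → C3} {t : ℝ} (hg : IntervalIntegrable g volume 0 t) :
    L (∫ s in (0 : ℝ)..t, g s) = ∫ s in (0 : ℝ)..t, L (g s) :=
  (L.intervalIntegral_comp_comm hg).symm

theorem clm_ii (L : C3 →L[ℝ] ℝ) {g : ℝ → C3} {t : ℝ} (hg : IntervalIntegrable g volume 0 t) :
    IntervalIntegrable (fun s => L (g s)) volume 0 t :=
  ⟨L.integrable_comp hg.1, L.integrable_comp hg.2⟩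

theorem ip_int_eq {g h : ℝ → C3} {t : ℝ} (ht : 0 ≤ t) (hh : IntervalIntegrable h volume 0 t) :
    EqOn (fun s => 2 * ip (g s) (∫ r in (0 : ℝ)..s, h r))
      (fun s => ∑ i, (2 * (reL i (g s) * ∫ r in (0 : ℝ)..s, reL i (h r))
        + 2 * (imL i (g s) * ∫ r in (0 : ℝ)..s, imL i (h r)))) (uIcc 0 t) := by
  intro s hs
  rw [uIcc_of_le ht] at hs
  have hs' : IntervalIntegrable h volume 0 s := hh.mono_set (by
    rw [uIcc_of_le hs.1, uIcc_of_le ht]
    exact Icc_subset_Icc le_rfl hs.2)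
  show 2 * ip (g s) (∫ r in (0 : ℝ)..s, h r) = _
  rw [ip_eq_re, Finset.mul_sum]
  refine Finset.sum_congr rfl fun i _ => ?_
  rw [← clm_int (reL i) hs', ← clm_int (imL i) hs']
  simp only [reL_apply, imL_apply]
  ring

theorem ip_int_ii {g h : ℝ → C3} {t : ℝ} (ht : 0 ≤ t) (hg : IntervalIntegrable g volume 0 t)
    (hh : IntervalIntegrable h volume 0 t) :
    IntervalIntegrable (fun s => 2 * ip (g s) (∫ r in (0 : ℝ)..s, h r)) volume 0 t := by
  have h1 : IntervalIntegrable (fun s => ∑ i, (2 * (reL i (g s) * ∫ r in (0 : ℝ)..s, reL i (h r))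
        + 2 * (imL i (g s) * ∫ r in (0 : ℝ)..s, imL i (h r)))) volume 0 t := by
    have h2 : ∀ i : Fin 3, IntervalIntegrable (fun s => 2 * (reL i (g s) * ∫ r in (0 : ℝ)..s,
        reL i (h r)) + 2 * (imL i (g s) * ∫ r in (0 : ℝ)..s, imL i (h r))) volume 0 t := fun i =>
      (int_mul_int (clm_ii (reL i) hg) (clm_ii (reL i) hh)).add
        (int_mul_int (clm_ii (imL i) hg) (clm_ii (imL i) hh))
    simp only [Fin.sum_univ_three]
    exact ((h2 0).add (h2 1)).add (h2 2)
  exact h1.congr fun s hs => (ip_int_eq ht hh (uIoc_subset_uIcc hs)).symm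

/-- The derivative of the energy of an integral. -/
theorem nsq_int {g : ℝ → C3} {t : ℝ} (ht : 0 ≤ t) (hg : IntervalIntegrable g volume 0 t) :
    nsq (∫ s in (0 : ℝ)..t, g s) = ∫ s in (0 : ℝ)..t, 2 * ip (g s) (∫ r in (0 : ℝ)..s, g r) := by
  rw [intervalIntegral.integral_congr (ip_int_eq ht hg)]
  rw [intervalIntegral.integral_finsetSum fun i _ =>
    (int_mul_int (clm_ii (reL i) hg) (clm_ii (reL i) hg)).add
      (int_mul_int (clm_ii (imL i) hg) (clm_ii (imL i) hg))]
  rw [nsq_eq_re]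
  refine Finset.sum_congr rfl fun i _ => ?_
  rw [intervalIntegral.integral_add (int_mul_int (clm_ii (reL i) hg) (clm_ii (reL i) hg))
    (int_mul_int (clm_ii (imL i) hg) (clm_ii (imL i) hg)), ← sq_int ht (clm_ii (reL i) hg),
    ← sq_int ht (clm_ii (imL i) hg), ← clm_int (reL i) hg, ← clm_int (imL i) hg]
  rfl

/-- Sums of nonnegative functions. -/
theorem tsum_int {f : K3 → ℝ → ℝ} {T E : ℝ} (hT : 0 ≤ T) (hf0 : ∀ k s, 0 ≤ f k s)
    (hfm : ∀ k, Measurable (f k)) (hfi : ∀ k, IntervalIntegrable (f k) volume 0 T)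
    (h : ∀ F : Finset K3, ∫ s in (0 : ℝ)..T, ∑ k ∈ F, f k s ≤ E) :
    (∀ᵐ s ∂volume.restrict (Ioc 0 T), Summable fun k => f k s) ∧
      IntervalIntegrable (fun s => ∑' k, f k s) volume 0 T := by
  have h1 : ∫⁻ s in Ioc 0 T, ∑' k, ENNReal.ofReal (f k s) ≤ ENNReal.ofReal E := by
    rw [lintegral_tsum fun k => (hfm k).ennreal_ofReal.aemeasurable]
    rw [ENNReal.tsum_eq_iSup_sum]
    refine iSup_le fun F => ?_
    have e1 : ∀ k ∈ F, ∫⁻ s in Ioc 0 T, ENNReal.ofReal (f k s)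
        = ENNReal.ofReal (∫ s in Ioc 0 T, f k s) := by
      intro k _
      rw [ofReal_integral_eq_lintegral_ofReal ((intervalIntegrable_iff_integrableOn_Ioc_of_le hT).1
        (hfi k)) (Eventually.of_forall fun s => hf0 k s)]
    rw [Finset.sum_congr rfl e1, ← ENNReal.ofReal_sum_of_nonneg fun k _ =>
      setIntegral_nonneg measurableSet_Ioc fun s _ => hf0 k s]
    refine ENNReal.ofReal_le_ofReal ?_
    have e2 := h F
    rw [intervalIntegral.integral_of_le hT, integral_finsetSum F fun k _ =>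
      (intervalIntegrable_iff_integrableOn_Ioc_of_le hT).1 (hfi k)] at e2
    exact e2
  have hm : Measurable fun s => ∑' k, ENNReal.ofReal (f k s) :=
    Measurable.tsum fun k => (hfm k).ennreal_ofReal
  have h2 : ∀ᵐ s ∂volume.restrict (Ioc 0 T), ∑' k, ENNReal.ofReal (f k s) < ∞ :=
    ae_lt_top hm (ne_top_of_le_ne_top ENNReal.ofReal_ne_top h1)
  have h3 : ∀ s, ∑' k, ENNReal.ofReal (f k s) < ∞ → Summable fun k => f k s := by
    intro s hs
    have := ENNReal.summable_toReal hs.ne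
    refine this.congr fun k => ?_
    rw [ENNReal.toReal_ofReal (hf0 k s)]
  refine ⟨h2.mono h3, ?_⟩
  rw [intervalIntegrable_iff_integrableOn_Ioc_of_le hT]
  have h4 : IntegrableOn (fun s => (∑' k, ENNReal.ofReal (f k s)).toReal) (Ioc 0 T) :=
    integrable_toReal_of_lintegral_ne_top hm.aemeasurable
      (ne_top_of_le_ne_top ENNReal.ofReal_ne_top h1)
  refine h4.congr ?_
  filter_upwards with s
  rw [ENNReal.tsum_toReal_eq fun k => ENNReal.ofReal_ne_top]
  exact tsum_congr fun k => ENNReal.toReal_ofReal (hf0 k s)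

/-- Gronwall's lemma. -/
theorem gron {T : ℝ} (hT : 0 ≤ T) {y g : ℝ → ℝ} (hg : IntervalIntegrable g volume 0 T)
    (hg0 : ∀ s, 0 ≤ g s) (hgy : IntervalIntegrable (fun s => g s * y s) volume 0 T)
    (h : ∀ t ∈ Icc 0 T, y t ≤ ∫ s in (0 : ℝ)..t, g s * y s) : ∀ t ∈ Icc 0 T, y t ≤ 0 := by
  intro t ht
  have hsub : uIcc 0 t ⊆ uIcc 0 T := by
    rw [uIcc_of_le ht.1, uIcc_of_le hT]
    exact Icc_subset_Icc le_rfl ht.2
  have hgt := hg.mono_set hsub
  have hgyt := hgy.mono_set hsub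
  set z : ℝ → ℝ := fun x => ∫ s in (0 : ℝ)..x, g s * y s with hz
  have hac : AbsolutelyContinuousOnInterval z 0 t :=
    hgyt.absolutelyContinuousOnInterval_intervalIntegral left_mem_uIcc
  have hzc : ContinuousOn z (Icc 0 t) := by
    have := hac.continuousOn
    rwa [uIcc_of_le ht.1] at this
  have h1 := Pool.Agent.W918.ES.gronL1 ht.1 (y := z) (k := 0) hzc hgt hg0 (fun x hx => by
    rw [zero_add]
    have hsx : uIcc 0 x ⊆ uIcc 0 t := by
      rw [uIcc_of_le hx.1, uIcc_of_le ht.1]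
      exact Icc_subset_Icc le_rfl hx.2
    refine intervalIntegral.integral_mono_on hx.1 (hgyt.mono_set hsx)
      ((hgt.mono_set hsx).mul_continuousOn (hac.continuousOn.mono hsx)) fun s hs => ?_
    refine mul_le_mul_of_nonneg_left (h s ⟨hs.1, (hs.2.trans hx.2).trans ht.2⟩) (hg0 s))
  rw [zero_mul] at h1
  exact (h t ht).trans h1

end Pool.Agent.Run7.h507.FD
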