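import Pool.Agent.Run7.h507.FD.Fix
import Pool.Agent.Run7.h507.FD.Tim

/-!
Weak solutions with selected frequencies: preparations.
-/

set_option autoImplicit false

open MeasureTheory Set Filter Topology
open scoped ENNReal

namespace Pool.Agent.Run7.h507.FD

open RT

/-- Weak solutions on `[0, T]`, extended to all times. -/
structure WR (D : Set K3) (ν α T : ℝ) (c : Cf) (a : ℝ → Cf) : Prop where
  herm : ∀ t, Herm (a t)
  div : ∀ t, Dv (a t)
  cont : ∀ k, Continuous fun t => a t k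
  bdd : ∃ E : ℝ, ∀ t, ∀ F : Finset K3, ∑ k ∈ F, nsq (a t k) ≤ E
  diss : ∃ E : ℝ, ∀ F : Finset K3, ∫ s in (0 : ℝ)..T, ∑ k ∈ F, RT.sq k ^ α * nsq (a s k) ≤ E
  eqn : ∀ t ∈ Icc 0 T, ∀ k,
    a t k = c k - ∫ s in (0 : ℝ)..t, (lam ν α k • a s k + nl (dw D) (a s) (a s) k)

section

variable {D : Set K3}

theorem sm0_of_bdd {a : Cf} {E : ℝ} (h : ∀ F : Finset K3, ∑ k ∈ F, nsq (a k) ≤ E) :
    Sm 0 a ∧ nn 0 a ^ 2 ≤ E := by
  have h1 : ∀ F : Finset K3, ∑ k ∈ F, jb k ^ (0 : ℝ) * ‖a k‖ ^ 2 ≤ E := by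
    intro F
    refine le_trans (Finset.sum_le_sum fun k _ => ?_) (h F)
    rw [Real.rpow_zero, one_mul]
    exact norm_sq_le_nsq _
  have h2 : Sm 0 a := summable_of_sum_le (fun k => wnn 0 a k) h1
  refine ⟨h2, ?_⟩
  rw [nn_sq]
  exact h2.tsum_le_of_sum_le h1

theorem summable_nsq_of_bdd {a : Cf} {E : ℝ} (h : ∀ F : Finset K3, ∑ k ∈ F, nsq (a k) ≤ E) :
    Summable fun k => nsq (a k) := summable_of_sum_le (fun k => nsq_nonneg _) h

theorem tendsto_Bn_sum {f : K3 → ℝ} {s : ℝ} (h : HasSum f s) :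
    Tendsto (fun n => ∑ k ∈ Bn n, f k) atTop (𝓝 s) := by
  refine h.comp ?_
  refine tendsto_atTop.2 fun F => ?_
  choose N hN using exists_Bn
  filter_upwards [eventually_ge_atTop (F.sup N)] with n hn k hk
  exact hN k n ((Finset.le_sup hk).trans hn)

theorem tendsto_Bn_sum' {f : K3 → C3} {s : C3} (h : HasSum f s) :
    Tendsto (fun n => ∑ k ∈ Bn n, f k) atTop (𝓝 s) := by
  refine h.comp ?_
  refine tendsto_atTop.2 fun F => ?_
  choose N hN using exists_Bn
  filter_upwards [eventually_ge_atTop (F.sup N)] with n hn k hk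
  exact hN k n ((Finset.le_sup hk).trans hn)

theorem summable_nl0 {u v : Cf} (hu : Sm 0 u) (hv : Sm 0 v) (k : K3) :
    Summable fun p => ((dw D p (k - p) : ℂ) * kd k (u p)) • v (k - p) := by
  refine Summable.of_norm_bounded ((summable_pair hu hv k).mul_left (3 * len k)) fun p => ?_
  refine norm_term_le (fun p q => ?_) p (k - p) k (u p) (v (k - p))
  unfold dw
  rw [abs_of_nonneg (dd_nonneg _)]
  exact dd_le _

/-- The nonlinear term is measurable. -/
theorem meas_nl {a b : ℝ → Cf} (ha : ∀ k, Continuous fun t => a t k)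
    (hb : ∀ k, Continuous fun t => b t k) (ha0 : ∀ t, Sm 0 (a t)) (hb0 : ∀ t, Sm 0 (b t)) (k : K3) :
    Measurable fun s => nl (dw D) (a s) (b s) k := by
  refine measurable_of_tendsto_metrizable (f := fun (n : ℕ) s => Complex.I • prjC k
    (∑ p ∈ Bn n, ((dw D p (k - p) : ℂ) * kd k (a s p)) • b s (k - p))) (fun n => ?_) ?_
  · have hc : Continuous fun s => ∑ p ∈ Bn n, ((dw D p (k - p) : ℂ) * kd k (a s p)) • b s (k - p) :=
      continuous_finsetSum _ fun p _ =>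
        (continuous_const.mul ((kd_continuous k).comp (ha p))).smul (hb (k - p))
    exact (((prjC k).continuous.comp hc).const_smul Complex.I).measurable
  · rw [tendsto_pi_nhds]
    intro s
    have h1 := tendsto_Bn_sum' (summable_nl0 (D := D) (ha0 s) (hb0 s) k).hasSum
    exact (((prjC k).continuous.tendsto _).comp h1).const_smul Complex.I

theorem norm_nl_le0 {u v : Cf} {E : ℝ} (hu : Sm 0 u) (hv : Sm 0 v) (huE : nn 0 u ^ 2 ≤ E)
    (hvE : nn 0 v ^ 2 ≤ E) (k : K3) : ‖nl (dw D) u v k‖ ≤ 12 * len k * E := by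
  have h1 := norm_nl_cs2 (D := D) hu hv k
  have h2 : cs2 D u v k ≤ E := by
    have e1 : cs2 D u v k ≤ ∑' p, (jb p ^ (0 : ℝ) * ‖u p‖ ^ 2
        + jb (k - p) ^ (0 : ℝ) * ‖v (k - p)‖ ^ 2) / 2 := by
      have s2 : Summable fun p => jb (k - p) ^ (0 : ℝ) * ‖v (k - p)‖ ^ 2 :=
        (Equiv.subLeft k).summable_iff.2 hv
      refine (summable_cs2 hu hv k).tsum_le_tsum (fun p => ?_) ((Summable.add hu s2).div_const 2)
      have := dd_le (D := D) (p, k - p)
      have := dd_nonneg (D := D) (p, k - p)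
      have h3 : 0 ≤ ‖u p‖ * ‖v (k - p)‖ := by positivity
      rw [Real.rpow_zero, Real.rpow_zero, one_mul, one_mul]
      nlinarith [sq_nonneg (‖u p‖ - ‖v (k - p)‖)]
    refine e1.trans ?_
    have s2 : Summable fun p => jb (k - p) ^ (0 : ℝ) * ‖v (k - p)‖ ^ 2 :=
      (Equiv.subLeft k).summable_iff.2 hv
    rw [tsum_div_const, Summable.tsum_add hu s2]
    have e2 : ∑' p, jb (k - p) ^ (0 : ℝ) * ‖v (k - p)‖ ^ 2 = ∑' q, jb q ^ (0 : ℝ) * ‖v q‖ ^ 2 :=
      (Equiv.subLeft k).tsum_eq fun q => jb q ^ (0 : ℝ) * ‖v q‖ ^ 2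
    rw [e2, ← nn_sq, ← nn_sq]
    linarith
  have := len_nonneg k
  calc _ ≤ _ := h1
    _ ≤ _ := mul_le_mul_of_nonneg_left h2 (by positivity)

theorem ii_of_bdd {g : ℝ → C3} (hg : Measurable g) {M T : ℝ} (h : ∀ s, ‖g s‖ ≤ M) :
    IntervalIntegrable g volume 0 T := by
  have h1 : IntervalIntegrable (fun _ : ℝ => M) volume 0 T := intervalIntegrable_const
  exact h1.mono_fun hg.aestronglyMeasurable (Eventually.of_forall fun s => by
    have := h s
    rw [Real.norm_eq_abs]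
    exact this.trans (le_abs_self M))

theorem jb_two_le {α : ℝ} (hα : 0 < α) (k : K3) : jb k ^ (2 * α) ≤ 1 + RT.sq k ^ α := by
  have := jb_rpow_le_sq hα k
  linarith

/-- The weighted norm by the dissipation. -/
theorem sm_of_diss {α b E : ℝ} (hα : 0 < α) (hb : b ≤ 2 * α) {a : Cf}
    (hE : ∀ F : Finset K3, ∑ k ∈ F, nsq (a k) ≤ E) (hs : Summable fun k => RT.sq k ^ α * nsq (a k)) :
    Sm b a ∧ nn b a ^ 2 ≤ E + ∑' k, RT.sq k ^ α * nsq (a k) := by
  have hn := summable_nsq_of_bdd hE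
  have h1 : ∀ k, jb k ^ b * ‖a k‖ ^ 2 ≤ nsq (a k) + RT.sq k ^ α * nsq (a k) := by
    intro k
    have e1 : jb k ^ b ≤ 1 + RT.sq k ^ α :=
      (Real.rpow_le_rpow_of_exponent_le (one_le_jb k) hb).trans (jb_two_le hα k)
    calc jb k ^ b * ‖a k‖ ^ 2 ≤ (1 + RT.sq k ^ α) * nsq (a k) :=
          mul_le_mul e1 (norm_sq_le_nsq _) (sq_nonneg _)
            (add_nonneg zero_le_one (Real.rpow_nonneg (sq_nonneg' k) _))
      _ = _ := by ring
  have h2 : Sm b a := Summable.of_nonneg_of_le (fun k => wnn b a k) h1 (Summable.add hn hs)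
  refine ⟨h2, ?_⟩
  rw [nn_sq]
  refine (Summable.tsum_le_tsum h1 h2 (Summable.add hn hs)).trans ?_
  rw [Summable.tsum_add hn hs]
  have := hn.tsum_le_of_sum_le hE
  linarith

theorem WR.ae_diss {ν α T : ℝ} {c : Cf} {a : ℝ → Cf} (h : WR D ν α T c a) (hT : 0 ≤ T) :
    (∀ᵐ s ∂volume.restrict (Ioc 0 T), Summable fun k => RT.sq k ^ α * nsq (a s k)) ∧
      IntervalIntegrable (fun s => ∑' k, RT.sq k ^ α * nsq (a s k)) volume 0 T := by
  obtain ⟨E, hE⟩ := h.diss
  refine tsum_int hT (fun k s => mul_nonneg (Real.rpow_nonneg (sq_nonneg' k) _) (nsq_nonneg _))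
    (fun k => ?_) (fun k => ?_) hE
  · exact (continuous_const.mul (nsq_continuous.comp (h.cont k))).measurable
  · exact (continuous_const.mul (nsq_continuous.comp (h.cont k))).intervalIntegrable _ _

end

end Pool.Agent.Run7.h507.FD
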