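import Pool.Agent.Run7.h507.FD.Weak

/-!
Weak solutions with selected frequencies: the inequality for the difference at a fixed time.
-/

set_option autoImplicit false

open MeasureTheory Set Filter Topology
open scoped ENNReal

namespace Pool.Agent.Run7.h507.FD

open RT

section

variable {D : Set K3} {ν α β C E : ℝ}

theorem prod_le {x y z R : ℝ} (hE : 0 ≤ E) (hx0 : 0 ≤ x) (hy0 : 0 ≤ y) (hz0 : 0 ≤ z)
    (hx : x ^ 2 ≤ 4 * E) (hy : y ^ 2 ≤ 2 * R) (hz : z ^ 2 ≤ 2 * R) :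
    x * (y * z) ≤ 4 * Real.sqrt E * R := by
  have h1 : x ≤ 2 * Real.sqrt E := by
    have h2 : x ^ 2 ≤ (2 * Real.sqrt E) ^ 2 := by
      rw [mul_pow, Real.sq_sqrt hE]
      linarith
    exact (pow_le_pow_iff_left₀ hx0 (by positivity) (by norm_num)).1 h2
  have h3 : y * z ≤ 2 * R := by nlinarith [sq_nonneg (y - z)]
  have h4 : 0 ≤ y * z := by positivity
  calc x * (y * z) ≤ (2 * Real.sqrt E) * (2 * R) := mul_le_mul h1 h3 h4 (by positivity)
    _ = _ := by ring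

/-- The data of two fields at a fixed time. -/
structure Two (D : Set K3) (α E : ℝ) (u v : Cf) : Prop where
  hu : Herm u
  hv : Herm v
  du : Dv u
  dv : Dv v
  eu : ∀ F : Finset K3, ∑ k ∈ F, nsq (u k) ≤ E
  ev : ∀ F : Finset K3, ∑ k ∈ F, nsq (v k) ≤ E
  su : Summable fun k => RT.sq k ^ α * nsq (u k)
  sv : Summable fun k => RT.sq k ^ α * nsq (v k)

/-- The sum of the bounds. -/
noncomputable def PP (α E : ℝ) (u : Cf) : ℝ := E + ∑' k, RT.sq k ^ α * nsq (u k)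

theorem wsn (α : ℝ) (u : Cf) (k : K3) : 0 ≤ RT.sq k ^ α * nsq (u k) :=
  mul_nonneg (Real.rpow_nonneg (sq_nonneg' k) _) (nsq_nonneg _)

theorem Two.E0 {u v : Cf} (h : Two D α E u v) : 0 ≤ E := by
  have := h.eu ∅
  simpa using this

theorem PP_ge {u v : Cf} (_h : Two D α E u v) (w : Cf) : E ≤ PP α E w := by
  unfold PP
  have : 0 ≤ ∑' k, RT.sq k ^ α * nsq (w k) := tsum_nonneg fun k => wsn α w k
  linarith

theorem Two.ew {u v : Cf} (h : Two D α E u v) (F : Finset K3) :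
    ∑ k ∈ F, nsq ((u - v) k) ≤ 4 * E := by
  have h1 : ∀ k ∈ F, nsq ((u - v) k) ≤ 2 * nsq (u k) + 2 * nsq (v k) := fun k _ => nsq_add_le _ _
  refine (Finset.sum_le_sum h1).trans ?_
  rw [Finset.sum_add_distrib, ← Finset.mul_sum, ← Finset.mul_sum]
  have := h.eu F
  have := h.ev F
  linarith

theorem Two.le_w {u v : Cf} (k : K3) : RT.sq k ^ α * nsq ((u - v) k)
    ≤ 2 * (RT.sq k ^ α * nsq (u k)) + 2 * (RT.sq k ^ α * nsq (v k)) := by
  have h1 : nsq ((u - v) k) ≤ 2 * nsq (u k) + 2 * nsq (v k) := nsq_add_le _ _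
  have := mul_le_mul_of_nonneg_left h1 (Real.rpow_nonneg (sq_nonneg' k) α)
  linarith

theorem Two.sw {u v : Cf} (h : Two D α E u v) : Summable fun k => RT.sq k ^ α * nsq ((u - v) k) :=
  Summable.of_nonneg_of_le (fun k => wsn α _ k) (fun k => Two.le_w k)
    (Summable.add (h.su.mul_left 2) (h.sv.mul_left 2))

theorem Two.tsw {u v : Cf} (h : Two D α E u v) :
    ∑' k, RT.sq k ^ α * nsq ((u - v) k)
      ≤ 2 * ∑' k, RT.sq k ^ α * nsq (u k) + 2 * ∑' k, RT.sq k ^ α * nsq (v k) := by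
  refine (h.sw.tsum_le_tsum (fun k => Two.le_w k)
    (Summable.add (h.su.mul_left 2) (h.sv.mul_left 2))).trans ?_
  rw [Summable.tsum_add (h.su.mul_left 2) (h.sv.mul_left 2), tsum_mul_left, tsum_mul_left]

/-- All norms. -/
theorem Two.norms (hα : 0 < α) (hβα : β ≤ 2 * α) {u v : Cf} (h : Two D α E u v) :
    (Sm β u ∧ nn β u ^ 2 ≤ PP α E u) ∧ (Sm β v ∧ nn β v ^ 2 ≤ PP α E v)
      ∧ (Sm β (u - v) ∧ nn β (u - v) ^ 2 ≤ 2 * (PP α E u + PP α E v))
      ∧ nn 0 u ^ 2 ≤ E ∧ nn 0 v ^ 2 ≤ E ∧ nn 0 (u - v) ^ 2 ≤ 4 * E := by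
  refine ⟨sm_of_diss hα hβα h.eu h.su, sm_of_diss hα hβα h.ev h.sv, ?_, (sm0_of_bdd h.eu).2,
    (sm0_of_bdd h.ev).2, (sm0_of_bdd h.ew).2⟩
  obtain ⟨h1, h2⟩ := sm_of_diss hα hβα h.ew h.sw
  refine ⟨h1, h2.trans ?_⟩
  have := h.tsw
  unfold PP
  linarith

/-- The derivative of the energy of the difference of two solutions. -/
theorem Two.expand (hβ0 : 0 ≤ β) (hα : 0 < α) (hβα : β ≤ 2 * α) {u v : Cf} (h : Two D α E u v)
    (ν : ℝ) (k : K3) :
    2 * ip (-(lam ν α k • (u - v) k + (nl (dw D) u u k - nl (dw D) v v k))) ((u - v) k)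
      = -(2 * ν * (RT.sq k ^ α * nsq ((u - v) k))) - 2 * ip (nl (dw D) (u - v) u k) ((u - v) k)
        - 2 * ip (nl (dw D) v (u - v) k) ((u - v) k) := by
  obtain ⟨⟨u1, _⟩, ⟨v1, _⟩, ⟨w1, _⟩, _⟩ := h.norms hα hβα
  have u0 := u1.mono hβ0
  have v0 := v1.mono hβ0
  rw [nl_add_left u0 v0 u0, nl_add_right v0 u0 v0, ip_neg_left, ip_add_left, ip_smul_left, ip_self,
    ip_sub_left, ip_sub_left, ip_sub_left]
  unfold lam
  ring

theorem Two.bound (hC : 0 ≤ C) (hE : Est D β C) (hβ0 : 0 ≤ β) (hα : 0 < α) (hβα : β ≤ 2 * α)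
    (hν : 0 ≤ ν) {u v : Cf} (h : Two D α E u v) (F : Finset K3) :
    |∑ k ∈ F, 2 * ip (-(lam ν α k • (u - v) k + (nl (dw D) u u k - nl (dw D) v v k))) ((u - v) k)|
      ≤ (4 * ν + 1728 * C * Real.sqrt E) * (PP α E u + PP α E v) := by
  obtain ⟨⟨u1, u2⟩, ⟨v1, v2⟩, ⟨w1, w2⟩, u3, v3, w3⟩ := h.norms hα hβα
  have hE0 := h.E0
  have hPu := PP_ge h u
  have hPv := PP_ge h v
  set R := PP α E u + PP α E v with hR
  have wh : Herm (u - v) := h.hu.sub h.hv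
  have n1 := nn_nonneg β u
  have n2 := nn_nonneg β v
  have n3 := nn_nonneg β (u - v)
  have n4 := nn_nonneg 0 u
  have n5 := nn_nonneg 0 v
  have n6 := nn_nonneg 0 (u - v)
  have hu2 : nn β u ^ 2 ≤ 2 * R := by linarith
  have hv2 : nn β v ^ 2 ≤ 2 * R := by linarith
  have hu4 : nn 0 u ^ 2 ≤ 4 * E := by linarith
  have hv4 : nn 0 v ^ 2 ≤ 4 * E := by linarith
  have y1 : YY β (u - v) u (u - v) ≤ 12 * Real.sqrt E * R := by
    unfold YY
    have a1 := prod_le hE0 n6 n1 n3 w3 hu2 w2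
    have a2 := prod_le hE0 n4 n3 n3 hu4 w2 w2
    have a3 := prod_le hE0 n6 n3 n1 w3 w2 hu2
    linarith
  have y2 : YY β v (u - v) (u - v) ≤ 12 * Real.sqrt E * R := by
    unfold YY
    have a1 := prod_le hE0 n5 n3 n3 hv4 w2 w2
    have a2 := prod_le hE0 n6 n2 n3 w3 hv2 w2
    linarith
  have s1 := sum_ip_le hE hC hβ0 w1 u1 w1 wh F
  have s2 := sum_ip_le hE hC hβ0 v1 w1 w1 wh F
  have s1' := (Finset.abs_sum_le_sum_abs (fun k => ip (nl (dw D) (u - v) u k) ((u - v) k)) F).trans s1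
  have s2' := (Finset.abs_sum_le_sum_abs (fun k => ip (nl (dw D) v (u - v) k) ((u - v) k)) F).trans s2
  have s3 : ∑ k ∈ F, RT.sq k ^ α * nsq ((u - v) k) ≤ 2 * R := by
    refine (h.sw.sum_le_tsum F fun k _ => wsn α _ k).trans (h.tsw.trans ?_)
    rw [hR]
    unfold PP
    linarith
  have s4 : 0 ≤ ∑ k ∈ F, RT.sq k ^ α * nsq ((u - v) k) := Finset.sum_nonneg fun k _ => wsn α _ k
  rw [Finset.sum_congr rfl fun k _ => h.expand hβ0 hα hβα ν k, Finset.sum_sub_distrib,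
    Finset.sum_sub_distrib, Finset.sum_neg_distrib, ← Finset.mul_sum, ← Finset.mul_sum,
    ← Finset.mul_sum]
  have b1 := abs_le.1 s1'
  have b2 := abs_le.1 s2'
  have c1 : 36 * C * YY β (u - v) u (u - v) ≤ 36 * C * (12 * Real.sqrt E * R) :=
    mul_le_mul_of_nonneg_left y1 (by positivity)
  have c2 : 36 * C * YY β v (u - v) (u - v) ≤ 36 * C * (12 * Real.sqrt E * R) :=
    mul_le_mul_of_nonneg_left y2 (by positivity)
  have c3 := mul_le_mul_of_nonneg_left s3 (by positivity : 0 ≤ 2 * ν)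
  have c4 := mul_nonneg (by positivity : 0 ≤ 2 * ν) s4
  rw [abs_le]
  constructor <;> linarith [b1.1, b1.2, b2.1, b2.2]

theorem Two.lim (hneg : ∀ k, -k ∈ D ↔ k ∈ D) (hC : 0 ≤ C) (hE : Est D β C) (hβ0 : 0 ≤ β)
    (hα : 0 < α) (hβα : β ≤ 2 * α) {u v : Cf} (h : Two D α E u v) (ν : ℝ) :
    Tendsto (fun n => ∑ k ∈ Bn n, 2 * ip (-(lam ν α k • (u - v) k
        + (nl (dw D) u u k - nl (dw D) v v k))) ((u - v) k)) atTop
      (𝓝 (-(2 * ν * ∑' k, RT.sq k ^ α * nsq ((u - v) k))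
        - 2 * ∑' k, ip (nl (dw D) (u - v) u k) ((u - v) k))) := by
  obtain ⟨⟨u1, _⟩, ⟨v1, _⟩, ⟨w1, _⟩, _⟩ := h.norms hα hβα
  have wh : Herm (u - v) := h.hu.sub h.hv
  have wd : Dv (u - v) := h.du.sub h.dv
  have t1 := tendsto_Bn_sum h.sw.hasSum
  have hs : Summable fun k => ip (nl (dw D) (u - v) u k) ((u - v) k) := by
    refine Summable.of_norm ?_
    exact summable_of_sum_le (fun k => norm_nonneg _) fun F => sum_ip_le hE hC hβ0 w1 u1 w1 wh F
  have t2 := tendsto_Bn_sum hs.hasSum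
  have t3 := tendsto_transport hneg hE hC hβ0 v1 w1 h.dv wd wh
  have t4 := (((t1.const_mul (2 * ν)).neg).sub (t2.const_mul 2)).sub (t3.const_mul 2)
  rw [mul_zero, sub_zero] at t4
  refine t4.congr fun n => ?_
  rw [Finset.sum_congr rfl fun k _ => h.expand hβ0 hα hβα ν k, Finset.sum_sub_distrib,
    Finset.sum_sub_distrib, Finset.sum_neg_distrib, ← Finset.mul_sum, ← Finset.mul_sum,
    ← Finset.mul_sum]

theorem Two.ineq (hC : 0 ≤ C) (hE : Est D β C) (hβ0 : 0 ≤ β)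
    (hα : 0 < α) (hβα : β ≤ 2 * α) (_hν : 0 ≤ ν) {u v : Cf} (h : Two D α E u v) {M : ℝ}
    (hM : ∀ k, -2 * lam ν α k + 72 * C * (1 + Real.sqrt E) * jb k ^ β ≤ M) :
    -(2 * ν * ∑' k, RT.sq k ^ α * nsq ((u - v) k))
        - 2 * ∑' k, ip (nl (dw D) (u - v) u k) ((u - v) k)
      ≤ (72 * C * PP α E u + M) * ∑' k, nsq ((u - v) k) := by
  obtain ⟨⟨u1, u2⟩, ⟨v1, v2⟩, ⟨w1, w2⟩, u3, v3, w3⟩ := h.norms hα hβα
  have hE0 := h.E0
  have wh : Herm (u - v) := h.hu.sub h.hv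
  have hn := summable_nsq_of_bdd h.ew
  set y := ∑' k, nsq ((u - v) k) with hy
  have hs : Summable fun k => ‖ip (nl (dw D) (u - v) u k) ((u - v) k)‖ :=
    summable_of_sum_le (fun k => norm_nonneg _) fun F => sum_ip_le hE hC hβ0 w1 u1 w1 wh F
  have s1 : -(∑' k, ip (nl (dw D) (u - v) u k) ((u - v) k)) ≤ 36 * C * YY β (u - v) u (u - v) := by
    refine (neg_le_abs _).trans ?_
    rw [← Real.norm_eq_abs]
    refine (norm_tsum_le_tsum_norm hs).trans ?_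
    exact hs.tsum_le_of_sum_le fun F => sum_ip_le hE hC hβ0 w1 u1 w1 wh F
  have n1 := nn_nonneg β u
  have n3 := nn_nonneg β (u - v)
  have n4 := nn_nonneg 0 u
  have n6 := nn_nonneg 0 (u - v)
  have e0 : nn 0 (u - v) ^ 2 ≤ y := by
    rw [nn_sq, hy]
    refine Summable.tsum_le_tsum (fun k => ?_) (w1.mono hβ0) hn
    rw [Real.rpow_zero, one_mul]
    exact norm_sq_le_nsq _
  have hy0 : 0 ≤ y := (sq_nonneg _).trans e0
  have hsE : nn 0 u ≤ Real.sqrt E := Real.le_sqrt_of_sq_le u3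
  have hPu : 0 ≤ PP α E u := (sq_nonneg _).trans u2
  have y1 : YY β (u - v) u (u - v) ≤ y * PP α E u + (1 + Real.sqrt E) * nn β (u - v) ^ 2 := by
    have a1 : nn 0 (u - v) * (nn β u * nn β (u - v)) * 2 ≤ y * PP α E u + nn β (u - v) ^ 2 := by
      have b1 : (nn 0 (u - v) * nn β u) ^ 2 ≤ y * PP α E u := by
        rw [mul_pow]
        exact mul_le_mul e0 u2 (sq_nonneg _) hy0
      nlinarith [sq_nonneg (nn 0 (u - v) * nn β u - nn β (u - v))]
    have a2 : nn 0 u * (nn β (u - v) * nn β (u - v)) ≤ Real.sqrt E * nn β (u - v) ^ 2 := by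
      rw [← pow_two]
      exact mul_le_mul_of_nonneg_right hsE (sq_nonneg _)
    unfold YY
    linarith
  have s2 : 72 * C * (1 + Real.sqrt E) * nn β (u - v) ^ 2
      ≤ 2 * ν * ∑' k, RT.sq k ^ α * nsq ((u - v) k) + M * y := by
    rw [nn_sq, ← tsum_mul_left, ← tsum_mul_left, hy, ← tsum_mul_left,
      ← Summable.tsum_add (h.sw.mul_left (2 * ν)) (hn.mul_left M)]
    refine Summable.tsum_le_tsum (fun k => ?_) (Summable.mul_left _ w1)
      (Summable.add (h.sw.mul_left (2 * ν)) (hn.mul_left M))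
    have b1 := hM k
    have b2 : 72 * C * (1 + Real.sqrt E) * jb k ^ β ≤ 2 * (ν * RT.sq k ^ α) + M := by
      unfold lam at b1
      linarith
    have b3 : 0 ≤ 2 * (ν * RT.sq k ^ α) + M := by
      have : 0 ≤ 72 * C * (1 + Real.sqrt E) * jb k ^ β :=
        mul_nonneg (by positivity) (Real.rpow_nonneg (jb_pos k).le _)
      linarith
    calc 72 * C * (1 + Real.sqrt E) * (jb k ^ β * ‖(u - v) k‖ ^ 2)
        = 72 * C * (1 + Real.sqrt E) * jb k ^ β * ‖(u - v) k‖ ^ 2 := by ring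
      _ ≤ (2 * (ν * RT.sq k ^ α) + M) * nsq ((u - v) k) :=
          mul_le_mul b2 (norm_sq_le_nsq _) (sq_nonneg _) b3
      _ = _ := by ring
  have c1 := mul_le_mul_of_nonneg_left y1 (by positivity : 0 ≤ 72 * C)
  linarith

end

end Pool.Agent.Run7.h507.FD
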