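import Pool.Agent.Run7.h507.FD.Weak2

/-!
Uniqueness of weak solutions with selected frequencies.
-/

set_option autoImplicit false

open MeasureTheory Set Filter Topology
open scoped ENNReal

namespace Pool.Agent.Run7.h507.FD

open RT

section

variable {D : Set K3} {ν α β C : ℝ}

theorem norm_le_of_energy {a : Cf} {E : ℝ} (h : ∀ F : Finset K3, ∑ k ∈ F, nsq (a k) ≤ E) (k : K3) :
    ‖a k‖ ≤ Real.sqrt E := by
  refine Real.le_sqrt_of_sq_le ((norm_sq_le_nsq _).trans ?_)
  have := h {k}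
  simpa using this

theorem WR.uniq (hneg : ∀ k, -k ∈ D ↔ k ∈ D) (hC : 0 ≤ C) (hE : Est D β C) (hβ0 : 0 ≤ β)
    (hα : 0 < α) (hβα : β < 2 * α) (hν : 0 < ν) {T : ℝ} (hT : 0 ≤ T) {c : Cf} {a b : ℝ → Cf}
    (ha : WR D ν α T c a) (hb : WR D ν α T c b) : ∀ t ∈ Icc 0 T, a t = b t := by
  obtain ⟨Ea, hEa⟩ := ha.bdd
  obtain ⟨Eb, hEb⟩ := hb.bdd
  set E := max Ea Eb with hEdef
  have ea : ∀ t, ∀ F : Finset K3, ∑ k ∈ F, nsq (a t k) ≤ E := fun t F =>
    (hEa t F).trans (le_max_left _ _)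
  have eb : ∀ t, ∀ F : Finset K3, ∑ k ∈ F, nsq (b t k) ≤ E := fun t F =>
    (hEb t F).trans (le_max_right _ _)
  have hE0 : 0 ≤ E := by
    have := ea 0 ∅
    simpa using this
  obtain ⟨hda, hia⟩ := ha.ae_diss hT
  obtain ⟨hdb, hib⟩ := hb.ae_diss hT
  have sa : ∀ t, Sm 0 (a t) := fun t => (sm0_of_bdd (ea t)).1
  have sb : ∀ t, Sm 0 (b t) := fun t => (sm0_of_bdd (eb t)).1
  set G : K3 → ℝ → C3 := fun k s => -(lam ν α k • (a s - b s) k
    + (nl (dw D) (a s) (a s) k - nl (dw D) (b s) (b s) k)) with hG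
  have ma : ∀ k, Measurable fun s => nl (dw D) (a s) (a s) k := meas_nl ha.cont ha.cont sa sa
  have mb : ∀ k, Measurable fun s => nl (dw D) (b s) (b s) k := meas_nl hb.cont hb.cont sb sb
  have ia : ∀ k t, IntervalIntegrable (fun s => nl (dw D) (a s) (a s) k) volume 0 t := fun k t =>
    ii_of_bdd (ma k) fun s => norm_nl_le0 (sa s) (sa s) (sm0_of_bdd (ea s)).2
      (sm0_of_bdd (ea s)).2 k
  have ib : ∀ k t, IntervalIntegrable (fun s => nl (dw D) (b s) (b s) k) volume 0 t := fun k t =>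
    ii_of_bdd (mb k) fun s => norm_nl_le0 (sb s) (sb s) (sm0_of_bdd (eb s)).2
      (sm0_of_bdd (eb s)).2 k
  have la : ∀ k t, IntervalIntegrable (fun s => lam ν α k • a s k) volume 0 t := by
    intro k t
    have hc : Continuous fun s => lam ν α k • a s k := (ha.cont k).const_smul (lam ν α k)
    exact hc.intervalIntegrable _ _
  have lb : ∀ k t, IntervalIntegrable (fun s => lam ν α k • b s k) volume 0 t := by
    intro k t
    have hc : Continuous fun s => lam ν α k • b s k := (hb.cont k).const_smul (lam ν α k)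
    exact hc.intervalIntegrable _ _
  have iG : ∀ k t, IntervalIntegrable (G k) volume 0 t := by
    intro k t
    have h1 := (((la k t).sub (lb k t)).add ((ia k t).sub (ib k t))).neg
    refine h1.congr fun s _ => ?_
    simp only [hG, Pi.sub_apply, smul_sub]
    rfl
  have weq : ∀ t ∈ Icc 0 T, ∀ k, (a t - b t) k = ∫ s in (0 : ℝ)..t, G k s := by
    intro t ht k
    rw [Pi.sub_apply, ha.eqn t ht k, hb.eqn t ht k]
    have e1 : ∫ s in (0 : ℝ)..t, G k s
        = (∫ s in (0 : ℝ)..t, (lam ν α k • b s k + nl (dw D) (b s) (b s) k))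
          - ∫ s in (0 : ℝ)..t, (lam ν α k • a s k + nl (dw D) (a s) (a s) k) := by
      rw [← intervalIntegral.integral_sub ((lb k t).add (ib k t)) ((la k t).add (ia k t))]
      refine intervalIntegral.integral_congr fun s _ => ?_
      simp only [hG, Pi.sub_apply, smul_sub]
      abel
    rw [e1]
    abel
  have hsub : ∀ {t}, t ∈ Icc 0 T → uIcc 0 t ⊆ uIcc 0 T := by
    intro t ht
    rw [uIcc_of_le ht.1, uIcc_of_le hT]
    exact Icc_subset_Icc le_rfl ht.2
  have hcongr : ∀ t ∈ Icc 0 T, ∀ k, EqOn (fun s => 2 * ip (G k s) (∫ r in (0 : ℝ)..s, G k r))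
      (fun s => 2 * ip (G k s) ((a s - b s) k)) (uIcc 0 t) := by
    intro t ht k s hs
    have hs' : s ∈ Icc 0 T := by
      have := hsub ht hs
      rwa [uIcc_of_le hT] at this
    show 2 * ip (G k s) (∫ r in (0 : ℝ)..s, G k r) = 2 * ip (G k s) ((a s - b s) k)
    rw [weq s hs' k]
  have iip : ∀ t ∈ Icc 0 T, ∀ k,
      IntervalIntegrable (fun s => 2 * ip (G k s) ((a s - b s) k)) volume 0 t := fun t ht k =>
    (ip_int_ii ht.1 (iG k t) (iG k t)).congr fun s hs => hcongr t ht k (uIoc_subset_uIcc hs)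
  have hnsq : ∀ t ∈ Icc 0 T, ∀ k, nsq ((a t - b t) k)
      = ∫ s in (0 : ℝ)..t, 2 * ip (G k s) ((a s - b s) k) := by
    intro t ht k
    rw [weq t ht k, nsq_int ht.1 (iG k t)]
    exact intervalIntegral.integral_congr (hcongr t ht k)
  set Fn : ℕ → ℝ → ℝ := fun n s => ∑ k ∈ Bn n, 2 * ip (G k s) ((a s - b s) k) with hFn
  have iFn : ∀ t ∈ Icc 0 T, ∀ n, IntervalIntegrable (Fn n) volume 0 t := by
    intro t ht n
    have h1 : IntervalIntegrable (∑ k ∈ Bn n, fun s => 2 * ip (G k s) ((a s - b s) k)) volume 0 t :=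
      IntervalIntegrable.sum _ fun k _ => iip t ht k
    refine h1.congr fun s _ => ?_
    simp only [hFn, Finset.sum_apply]
  have hyn : ∀ t ∈ Icc 0 T, ∀ n, ∑ k ∈ Bn n, nsq ((a t - b t) k) = ∫ s in (0 : ℝ)..t, Fn n s := by
    intro t ht n
    rw [Finset.sum_congr rfl fun k _ => hnsq t ht k]
    exact (intervalIntegral.integral_finsetSum fun k _ => iip t ht k).symm
  have ht2 : ∀ᵐ s ∂volume.restrict (Ioc 0 T), Two D α E (a s) (b s) := by
    filter_upwards [hda, hdb] with s h1 h2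
    exact ⟨ha.herm s, hb.herm s, ha.div s, hb.div s, ea s, eb s, h1, h2⟩
  rw [ae_restrict_iff' measurableSet_Ioc] at ht2
  have iPa : IntervalIntegrable (fun s => PP α E (a s)) volume 0 T :=
    intervalIntegrable_const.add hia
  have iPb : IntervalIntegrable (fun s => PP α E (b s)) volume 0 T :=
    intervalIntegrable_const.add hib
  set bd : ℝ → ℝ := fun s => (4 * ν + 1728 * C * Real.sqrt E) * (PP α E (a s) + PP α E (b s)) with hbd
  have ibd : IntervalIntegrable bd volume 0 T := (iPa.add iPb).const_mul _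
  set f : ℝ → ℝ := fun s => -(2 * ν * ∑' k, RT.sq k ^ α * nsq ((a s - b s) k))
        - 2 * ∑' k, ip (nl (dw D) (a s - b s) (a s) k) ((a s - b s) k) with hf
  have hmem : ∀ {t}, t ∈ Icc 0 T → ∀ {s}, s ∈ uIoc 0 t → s ∈ Ioc 0 T := by
    intro t ht s hs
    rw [uIoc_of_le ht.1] at hs
    exact ⟨hs.1, hs.2.trans ht.2⟩
  have hbound : ∀ t ∈ Icc 0 T, ∀ n, ∀ᵐ s ∂volume, s ∈ uIoc 0 t → ‖Fn n s‖ ≤ bd s := by
    intro t ht n
    filter_upwards [ht2] with s hs hst
    rw [Real.norm_eq_abs]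
    exact (hs (hmem ht hst)).bound hC hE hβ0 hα hβα.le hν.le (Bn n)
  have hlim : ∀ t ∈ Icc 0 T, ∀ᵐ s ∂volume, s ∈ uIoc 0 t →
      Tendsto (fun n => Fn n s) atTop (𝓝 (f s)) := by
    intro t ht
    filter_upwards [ht2] with s hs hst
    exact (hs (hmem ht hst)).lim hneg hC hE hβ0 hα hβα.le ν
  set y : ℝ → ℝ := fun t => ∑' k, nsq ((a t - b t) k) with hy
  have ew : ∀ s, ∀ F : Finset K3, ∑ k ∈ F, nsq ((a s - b s) k) ≤ 4 * E := by
    intro s F
    have h1 : ∀ k ∈ F, nsq ((a s - b s) k) ≤ 2 * nsq (a s k) + 2 * nsq (b s k) :=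
      fun k _ => nsq_add_le _ _
    refine (Finset.sum_le_sum h1).trans ?_
    rw [Finset.sum_add_distrib, ← Finset.mul_sum, ← Finset.mul_sum]
    have := ea s F
    have := eb s F
    linarith
  have sn : ∀ s, Summable fun k => nsq ((a s - b s) k) := fun s => summable_nsq_of_bdd (ew s)
  have hy0 : ∀ s, 0 ≤ y s := fun s => tsum_nonneg fun k => nsq_nonneg _
  have hyE : ∀ s, y s ≤ 4 * E := fun s => (sn s).tsum_le_of_sum_le (ew s)
  have hyf : ∀ t ∈ Icc 0 T, y t = ∫ s in (0 : ℝ)..t, f s := by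
    intro t ht
    have h1 := tendsto_Bn_sum (sn t).hasSum
    have h2 : Tendsto (fun n => ∫ s in (0 : ℝ)..t, Fn n s) atTop (𝓝 (∫ s in (0 : ℝ)..t, f s)) :=
      intervalIntegral.tendsto_integral_filter_of_dominated_convergence bd
        (Eventually.of_forall fun n => (iFn t ht n).aestronglyMeasurable_restrict_uIoc)
        (Eventually.of_forall fun n => hbound t ht n) (ibd.mono_set (hsub ht)) (hlim t ht)
    refine tendsto_nhds_unique h1 (h2.congr fun n => ?_)
    exact (hyn t ht n).symm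
  obtain ⟨M, _, hM⟩ := absb_rpow (β := β) hν hα hβα 0 (72 * C * (1 + Real.sqrt E))
  have hM' : ∀ k, -2 * lam ν α k + 72 * C * (1 + Real.sqrt E) * jb k ^ β ≤ |M| := by
    intro k
    have := hM k
    have := le_abs_self M
    linarith
  set g : ℝ → ℝ := fun s => 72 * C * PP α E (a s) + |M| with hg
  have hg0 : ∀ s, 0 ≤ g s := by
    intro s
    have h1 : 0 ≤ PP α E (a s) := by
      unfold PP
      have : 0 ≤ ∑' k, RT.sq k ^ α * nsq (a s k) := tsum_nonneg fun k => wsn α _ k
      linarith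
    have := abs_nonneg M
    simp only [hg]
    positivity
  have ig : IntervalIntegrable g volume 0 T := (iPa.const_mul _).add intervalIntegrable_const
  have my : Measurable y := by
    refine measurable_of_tendsto_metrizable (f := fun (n : ℕ) t => ∑ k ∈ Bn n, nsq ((a t - b t) k))
      (fun n => ?_) ?_
    · refine Continuous.measurable (continuous_finsetSum _ fun k _ => ?_)
      exact nsq_continuous.comp ((ha.cont k).sub (hb.cont k))
    · rw [tendsto_pi_nhds]
      exact fun t => tendsto_Bn_sum (sn t).hasSum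
  have igy : IntervalIntegrable (fun s => g s * y s) volume 0 T := by
    rw [intervalIntegrable_iff_integrableOn_Ioc_of_le hT] at ig ⊢
    refine Integrable.mul_bdd (c := 4 * E) ig my.aestronglyMeasurable (Eventually.of_forall fun s => ?_)
    rw [Real.norm_eq_abs, abs_of_nonneg (hy0 s)]
    exact hyE s
  have hle : ∀ t ∈ Icc 0 T, y t ≤ ∫ s in (0 : ℝ)..t, g s * y s := by
    intro t ht
    rw [hyf t ht]
    have hfi : IntervalIntegrable f volume 0 t := by
      have h1 : AEStronglyMeasurable f (volume.restrict (uIoc 0 t)) :=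
        aestronglyMeasurable_of_tendsto_ae atTop
          (fun n => (iFn t ht n).aestronglyMeasurable_restrict_uIoc)
          ((ae_restrict_iff' measurableSet_uIoc).2 (hlim t ht))
      refine (ibd.mono_set (hsub ht)).mono_fun h1 ?_
      refine (ae_restrict_iff' measurableSet_uIoc).2 ?_
      have hb2 : ∀ᵐ s ∂volume, ∀ n, s ∈ uIoc 0 t → ‖Fn n s‖ ≤ bd s :=
        ae_all_iff.2 fun n => hbound t ht n
      filter_upwards [hb2, hlim t ht] with s h2 h3 hs
      refine (le_of_tendsto (h3 hs).norm (Eventually.of_forall fun n => h2 n hs)).trans ?_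
      exact le_abs_self _
    refine intervalIntegral.integral_mono_ae_restrict ht.1 hfi (igy.mono_set (hsub ht)) ?_
    rw [EventuallyLE, ae_restrict_iff' measurableSet_Icc]
    have h0 : ∀ᵐ s ∂(volume : Measure ℝ), s ≠ 0 := by
      simp [ae_iff]
    filter_upwards [ht2, h0] with s hs hs0 hst
    have hs' : s ∈ Ioc 0 T := ⟨lt_of_le_of_ne hst.1 (Ne.symm hs0), hst.2.trans ht.2⟩
    exact (hs hs').ineq hC hE hβ0 hα hβα.le hν.le hM'
  have hfin := gron hT ig hg0 igy hle
  intro t ht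
  have h1 := hfin t ht
  funext k
  have h2 : nsq ((a t - b t) k) ≤ 0 := ((sn t).le_tsum k fun _ _ => nsq_nonneg _).trans h1
  have h3 : ‖(a t - b t) k‖ ^ 2 ≤ 0 := (norm_sq_le_nsq _).trans h2
  have h4 : ‖(a t - b t) k‖ = 0 := by
    have := sq_nonneg ‖(a t - b t) k‖
    exact pow_eq_zero_iff (two_ne_zero) |>.1 (le_antisymm h3 this)
  have h5 : (a t - b t) k = 0 := norm_eq_zero.1 h4
  rw [Pi.sub_apply, sub_eq_zero] at h5
  exact h5

end

end Pool.Agent.Run7.h507.FD
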