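import Pool.Agent.Run7.h507.FD.Ate
import Pool.Agent.Run7.h507.RT.En

/-!
The equations for the selected frequencies: the energy estimates.
-/

set_option autoImplicit false

open MeasureTheory ProbabilityTheory Set Filter Topology

namespace Pool.Agent.Run7.h507.FD

open RT

section

variable {D : Set K3} {κ K : ℝ}

/-- The weight: the interactions between selected frequencies. -/
noncomputable def dw (D : Set K3) (p q : K3) : ℝ := dd D (p, q)

theorem dd_nonneg (x : K3 × K3) : 0 ≤ dd D x := by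
  classical
  unfold dd
  split_ifs <;> norm_num

theorem dd_le (x : K3 × K3) : dd D x ≤ 1 := by
  classical
  unfold dd
  split_ifs <;> norm_num

theorem dd_of {x : K3 × K3} (h : x.1 ∈ D ∧ x.2 ∈ D ∧ -(x.1 + x.2) ∈ D) : dd D x = 1 := by
  classical
  unfold dd
  rw [if_pos h]

theorem dd_of_not {x : K3 × K3} (h : ¬(x.1 ∈ D ∧ x.2 ∈ D ∧ -(x.1 + x.2) ∈ D)) : dd D x = 0 := by
  classical
  unfold dd
  rw [if_neg h]

theorem dd_congr {x y : K3 × K3} (h : (x.1 ∈ D ∧ x.2 ∈ D ∧ -(x.1 + x.2) ∈ D)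
    ↔ (y.1 ∈ D ∧ y.2 ∈ D ∧ -(y.1 + y.2) ∈ D)) : dd D x = dd D y := by
  by_cases c : x.1 ∈ D ∧ x.2 ∈ D ∧ -(x.1 + x.2) ∈ D
  · rw [dd_of c, dd_of (h.1 c)]
  · rw [dd_of_not c, dd_of_not fun c' => c (h.2 c')]

theorem isWeight_dw (hneg : ∀ k, -k ∈ D ↔ k ∈ D) : IsWeight (dw D) := by
  refine ⟨fun p q => dd_congr ?_, fun p q => dd_congr ?_, fun p q => dd_congr ?_, fun p q => ?_⟩
  · show (q ∈ D ∧ p ∈ D ∧ -(q + p) ∈ D) ↔ (p ∈ D ∧ q ∈ D ∧ -(p + q) ∈ D)
    rw [add_comm q p]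
    tauto
  · show (p ∈ D ∧ -(p + q) ∈ D ∧ -(p + -(p + q)) ∈ D) ↔ (p ∈ D ∧ q ∈ D ∧ -(p + q) ∈ D)
    have e : -(p + -(p + q)) = q := by abel
    rw [e]
    tauto
  · show (-p ∈ D ∧ -q ∈ D ∧ -(-p + -q) ∈ D) ↔ (p ∈ D ∧ q ∈ D ∧ -(p + q) ∈ D)
    have e : -p + -q = -(p + q) := by abel
    rw [e, hneg, hneg, hneg]
  · unfold dw
    rw [abs_of_nonneg (dd_nonneg _)]
    exact dd_le _

theorem nb_sq (B : Finset K3) (b : ℝ) (u : K3 → ℝ) : Nb B b u ^ 2 = ∑ k ∈ B, jb k ^ b * u k ^ 2 :=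
  Real.sq_sqrt (Finset.sum_nonneg fun k _ =>
    mul_nonneg (Real.rpow_nonneg (jb_pos k).le _) (sq_nonneg _))

/-- The energy estimates at all levels. -/
theorem sub_dw (hK : 0 ≤ K) (hκ : 0 ≤ κ) (hκ3 : κ ≤ 3) (h : SD D κ K) (h' : CD D κ K)
    (h0 : ∀ k ∈ D, k ≠ 0) {δ : ℝ} (hδ : 0 < δ) :
    Sub (dw D) fun k => jb k ^ (1 + g0 κ + δ) := by
  obtain ⟨C, hC, hate⟩ := ate hK hκ hκ3 h h' h0 hδ
  intro S
  refine ⟨27 * (C * 4 ^ (2 * S + 1)), by positivity, fun s hs B _ a _ _ _ => ?_⟩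
  have hs0 := hs.1
  have h1 := hate (2 * s + 1) (by linarith) B (fun k => ‖a k‖) (fun k => ‖a k‖) (fun k => ‖a k‖)
    (fun _ => norm_nonneg _) (fun _ => norm_nonneg _) fun _ => norm_nonneg _
  have h2 : ‖∑ x ∈ Tr B, ((jb (-(x.1 + x.2)) ^ (2 * s) : ℝ) : ℂ) * th (dw D) a a a x‖
      ≤ 9 * ∑ x ∈ Tr B, dd D x * mx x.1 x.2 ^ (2 * s + 1)
        * (‖a x.1‖ * ‖a x.2‖ * ‖a (-(x.1 + x.2))‖) := by
    refine (norm_sum_le _ _).trans ?_
    rw [Finset.mul_sum]
    refine Finset.sum_le_sum fun x _ => ?_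
    by_cases hd : x.1 ∈ D ∧ x.2 ∈ D ∧ -(x.1 + x.2) ∈ D
    · have hr := h0 _ hd.2.2
      have e1 : jb (-(x.1 + x.2)) = len (x.1 + x.2) := by rw [jb_of_ne hr, len_neg]
      have e2 : 0 < len (x.1 + x.2) := by rw [← len_neg]; exact len_pos hr
      have e3 : len (x.1 + x.2) ≤ mx x.1 x.2 := (le_max_right _ _).trans (le_max_right _ _)
      rw [norm_mul, Complex.norm_real, Real.norm_eq_abs,
        abs_of_nonneg (Real.rpow_nonneg (jb_pos _).le _)]
      unfold th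
      rw [norm_mul, norm_mul, Complex.norm_real, Real.norm_eq_abs, e1]
      have e4 : |dw D x.1 x.2| = dd D x := abs_of_nonneg (dd_nonneg _)
      rw [e4]
      have e5 := norm_kd_le (-(x.1 + x.2)) (a x.1)
      rw [len_neg] at e5
      have e6 := norm_dc_le (a x.2) (a (-(x.1 + x.2)))
      have e7 : len (x.1 + x.2) ^ (2 * s) * len (x.1 + x.2) ≤ mx x.1 x.2 ^ (2 * s + 1) := by
        rw [← Real.rpow_add_one e2.ne']
        exact Real.rpow_le_rpow e2.le e3 (by linarith)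
      have hdd := dd_nonneg (D := D) x
      calc len (x.1 + x.2) ^ (2 * s) * (dd D x * (‖kd (-(x.1 + x.2)) (a x.1)‖
            * ‖dc (a x.2) (a (-(x.1 + x.2)))‖))
          ≤ len (x.1 + x.2) ^ (2 * s) * (dd D x * ((3 * len (x.1 + x.2) * ‖a x.1‖)
            * (3 * (‖a x.2‖ * ‖a (-(x.1 + x.2))‖)))) := by
            refine mul_le_mul_of_nonneg_left (mul_le_mul_of_nonneg_left ?_ hdd)
              (Real.rpow_nonneg e2.le _)
            exact mul_le_mul e5 e6 (norm_nonneg _) (by positivity)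
        _ = 9 * (dd D x * (len (x.1 + x.2) ^ (2 * s) * len (x.1 + x.2))
            * (‖a x.1‖ * ‖a x.2‖ * ‖a (-(x.1 + x.2))‖)) := by ring
        _ ≤ _ := by
            refine mul_le_mul_of_nonneg_left (mul_le_mul_of_nonneg_right
              (mul_le_mul_of_nonneg_left e7 hdd) (by positivity)) (by norm_num)
    · have e1 : dd D x = 0 := dd_of_not hd
      have e2 : th (dw D) a a a x = 0 := by
        unfold th
        have : dw D x.1 x.2 = 0 := e1
        rw [this, Complex.ofReal_zero, zero_mul]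
      rw [e2, e1, mul_zero, norm_zero]
      simp
  have hb : 2 * s + 1 + g0 κ + δ = 2 * s + (1 + g0 κ + δ) := by ring
  rw [hb] at h1
  set b : ℝ := 2 * s + (1 + g0 κ + δ) with hbd
  have hXX : XX B b (fun k => ‖a k‖) (fun k => ‖a k‖) (fun k => ‖a k‖)
      ≤ 3 * (Real.sqrt (∑ k ∈ B, nsq (a k))
        * ∑ k ∈ B, jb k ^ (2 * s) * jb k ^ (1 + g0 κ + δ) * nsq (a k)) := by
    have e1 : Nb B 0 (fun k => ‖a k‖) ≤ Real.sqrt (∑ k ∈ B, nsq (a k)) := by
      unfold Nb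
      refine Real.sqrt_le_sqrt (Finset.sum_le_sum fun k _ => ?_)
      rw [Real.rpow_zero, one_mul]
      exact norm_sq_le_nsq _
    have e2 : Nb B b (fun k => ‖a k‖) * Nb B b (fun k => ‖a k‖)
        ≤ ∑ k ∈ B, jb k ^ (2 * s) * jb k ^ (1 + g0 κ + δ) * nsq (a k) := by
      rw [← pow_two, nb_sq]
      refine Finset.sum_le_sum fun k _ => ?_
      rw [← Real.rpow_add (jb_pos k)]
      exact mul_le_mul_of_nonneg_left (norm_sq_le_nsq _) (Real.rpow_nonneg (jb_pos k).le _)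
    have e3 := mul_le_mul e1 e2 (mul_nonneg (Nb_nonneg _ _ _) (Nb_nonneg _ _ _))
      (Real.sqrt_nonneg _)
    unfold XX
    linarith
  have h4 : (4 : ℝ) ^ (2 * s + 1) ≤ 4 ^ (2 * S + 1) :=
    Real.rpow_le_rpow_of_exponent_le (by norm_num) (by linarith [hs.2])
  have hXX0 := XX_nonneg B b (fun k => ‖a k‖) (fun k => ‖a k‖) (fun k => ‖a k‖)
  calc _ ≤ _ := h2
    _ ≤ 9 * (C * 4 ^ (2 * s + 1) * XX B b (fun k => ‖a k‖) (fun k => ‖a k‖) (fun k => ‖a k‖)) :=
        mul_le_mul_of_nonneg_left h1 (by norm_num)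
    _ ≤ 9 * (C * 4 ^ (2 * S + 1) * (3 * (Real.sqrt (∑ k ∈ B, nsq (a k))
        * ∑ k ∈ B, jb k ^ (2 * s) * jb k ^ (1 + g0 κ + δ) * nsq (a k)))) := by
        refine mul_le_mul_of_nonneg_left ?_ (by norm_num)
        exact mul_le_mul (mul_le_mul_of_nonneg_left h4 hC) hXX hXX0 (by positivity)
    _ = _ := by ring

/-! ### Solutions with selected frequencies -/

open Classical in
/-- The restriction to the selected frequencies. -/
noncomputable def cD (D : Set K3) (a : Cf) : Cf := fun k => if k ∈ D then a k else 0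

theorem cD_of {a : Cf} {k : K3} (h : k ∈ D) : cD D a k = a k := by unfold cD; rw [if_pos h]

theorem cD_of_not {a : Cf} {k : K3} (h : k ∉ D) : cD D a k = 0 := by unfold cD; rw [if_neg h]

theorem cD_eq {a : Cf} (h : ∀ k ∉ D, a k = 0) : cD D a = a := by
  funext k
  by_cases hk : k ∈ D
  · rw [cD_of hk]
  · rw [cD_of_not hk, h k hk]

theorem norm_cD_le (a : Cf) (k : K3) : ‖cD D a k‖ ≤ ‖a k‖ := by
  by_cases hk : k ∈ D
  · rw [cD_of hk]
  · rw [cD_of_not hk, norm_zero]; exact norm_nonneg _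

theorem nl_cD (hneg : ∀ k, -k ∈ D ↔ k ∈ D) (a b : Cf) (k : K3) :
    nl (dw D) (cD D a) (cD D b) k = nl (dw D) a b k := by
  unfold nl
  congr 2
  refine tsum_congr fun p => ?_
  by_cases hd : p ∈ D ∧ k - p ∈ D ∧ -(p + (k - p)) ∈ D
  · rw [cD_of hd.1, cD_of hd.2.1]
  · have : dw D p (k - p) = 0 := dd_of_not hd
    rw [this, Complex.ofReal_zero, zero_mul, zero_mul, zero_smul, zero_smul]

theorem nl_out (hneg : ∀ k, -k ∈ D ↔ k ∈ D) (a b : Cf) {k : K3} (hk : k ∉ D) :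
    nl (dw D) a b k = 0 := by
  unfold nl
  have h1 : ∀ p, ((dw D p (k - p) : ℂ) * kd k (a p)) • b (k - p) = 0 := by
    intro p
    have : dw D p (k - p) = 0 := dd_of_not fun hd => hk (by
      have h2 := hd.2.2
      rw [show -((p, k - p).1 + (p, k - p).2) = -k by
        show -(p + (k - p)) = -k
        abel] at h2
      exact (hneg k).1 h2)
    rw [this, Complex.ofReal_zero, zero_mul, zero_smul]
  simp only [h1, tsum_zero, prj_zero, smul_zero]

theorem herm_cD (hneg : ∀ k, -k ∈ D ↔ k ∈ D) {a : Cf} (ha : Herm a) : Herm (cD D a) := by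
  intro k i
  by_cases hk : k ∈ D
  · rw [cD_of hk, cD_of ((hneg k).2 hk), ha]
  · rw [cD_of_not hk, cD_of_not fun h => hk ((hneg k).1 h)]
    simp

theorem dv_cD {a : Cf} (ha : Dv a) : Dv (cD D a) := by
  intro k
  by_cases hk : k ∈ D
  · rw [cD_of hk, ha]
  · rw [cD_of_not hk, kd_zero_right]

theorem Sol.cD (hneg : ∀ k, -k ∈ D ↔ k ∈ D) {ν α : ℝ} {I : Set ℝ} {a : ℝ → Cf}
    (h : Sol (dw D) ν α I a) : Sol (dw D) ν α I fun t => cD D (a t) := by
  refine ⟨fun t ht => herm_cD hneg (h.herm t ht), fun t ht => dv_cD (h.div t ht), ?_, ?_⟩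
  · intro s hs t ht m
    obtain ⟨C, hC⟩ := h.rapid s hs t ht m
    exact ⟨C, fun τ hτ k => (mul_le_mul_of_nonneg_left (norm_cD_le _ _)
      (pow_nonneg (len_nonneg k) _)).trans (hC τ hτ k)⟩
  · intro t ht k
    rw [nl_cD hneg]
    by_cases hk : k ∈ D
    · simp only [cD_of hk]
      exact h.der t ht k
    · simp only [cD_of_not hk]
      rw [nl_out hneg _ _ hk, smul_zero, neg_zero, sub_zero]
      exact hasDerivWithinAt_const _ _ _

end

end Pool.Agent.Run7.h507.FD
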